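import Mathlib

/-!
# Characteristic 3: statements about a quadratic extension `F/k`, `|k| = q = 9^m`

Goals of the independent packets (MP_7aba51_co).
-/

set_option autoImplicit false

open Classical

namespace Pool.Agent.Helper52.Hemi

/-- Packet H1: point count of a quartic over a field of characteristic 3. -/
def GoalCount : Prop :=
  ∀ (k : Type) [Field k] [Fintype k], (3 : k) = 0 → ∀ d a0 c e : k, ¬ IsSquare d →
    (∀ z : k, z ^ 3 - z ≠ a0) → a0 - d * c * e ≠ 0 →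
    ((Finset.univ.filter (fun p : k × k => (p.1 ^ 2 - d * p.2 ^ 2) ^ 2 =
      (p.1 - d * c * p.2) ^ 2 + a0 * p.1 - d * e * p.2)).card : ℤ) =
    Fintype.card k + 1 - ∑ v : k, quadraticChar k (v ^ 3 - (a0 - d * c * e) ^ 2 * v +
      ((1 - d * c ^ 2) ^ 3 + (a0 ^ 2 - d * e ^ 2)) ^ 2)

/-- Packet H2: the Artin–Schreier transform of the cubic sum. -/
def GoalAS : Prop :=
  ∀ (k : Type) [Field k] [Fintype k], (3 : k) = 0 → ∀ ψ : AddChar k ℂ, ψ ≠ 1 →
    (∀ x, ψ (x ^ 3) = ψ x) → ∀ t κ : k, t ≠ 0 →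
    ((∑ v : k, quadraticChar k (v ^ 3 - t ^ 2 * v + κ ^ 2) : ℤ) : ℂ) =
      ∑ r : k, ψ (t ^ 3 * r ^ 2 + κ * r) + ∑ r : k, ψ (- (t ^ 3 * r ^ 2) + κ * r)

/-- Packet H3: divisibility of quadratic exponential sums over `F_3`. -/
def GoalDiv : Prop :=
  ∀ (E : Type) [Field E] [Fintype E], (3 : E) = 0 → ∀ m : ℕ, Fintype.card E = 3 ^ (2 * m) →
    ∀ ψ : AddChar E ℂ, ∀ w : ℂ, w ^ 2 + w + 1 = 0 → ∀ α β γ : E, ∃ A B : ℤ,
    ∑ y : E, ψ (α * y ^ 4 + β * y ^ 2 + γ * y) = 3 ^ m * (A + B * w)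

section
variable (k F : Type) [Field k] [Fintype k] [Field F] [Fintype F] [Algebra k F]

/-- The function `φ(t) = χ_F(t + i t^q)`. -/
noncomputable def phi (i : k) (t : F) : ℤ :=
  quadraticChar F (t + algebraMap k F i * t ^ Fintype.card k)

/-- The elliptic sum `W(λ)`. -/
noncomputable def WW (δ : F) (β : k) (ν : F) (lam : F) : ℤ :=
  ∑ v : k, quadraticChar k (v ^ 3 - (Algebra.norm k lam * β / Algebra.norm k δ) ^ 2 * v +
    (Algebra.trace k F (lam ^ 3 * ν / δ ^ 3)) ^ 2)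

end

/-- Packet H4: the two sums of `W(λ)` over `λ ∈ F^*`. -/
def GoalW : Prop :=
  ∀ (k F : Type) [Field k] [Fintype k] [Field F] [Fintype F] [Algebra k F],
    (3 : k) = 0 → Module.finrank k F = 2 → ∀ i : k, i ^ 2 = -1 →
    ∀ δ : F, δ ≠ 0 → δ ^ Fintype.card k = -δ → ∀ β : k, β ≠ 0 → ∀ ν : F,
    (∀ v : k, Algebra.norm k ν ≠ β ^ 3 * (v ^ 3 - v)) →
    (∑ lam ∈ Finset.univ.erase (0 : F), WW k F δ β ν lam =
      3 * Fintype.card k * (Fintype.card k - 1)) ∧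
    ∃ m : ℤ, ∑ lam ∈ Finset.univ.erase (0 : F), phi k F i lam * WW k F δ β ν lam =
      (Fintype.card k - 1) * (Fintype.card k * m)

end Pool.Agent.Helper52.Hemi
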