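import Mathlib
import Pool.Agent.Helper52.Hemi.Goals

/-!
# Characteristic 3: the tower `k ⊂ F ⊂ K`, `|k| = q`, `|F| = q^2`, `|K| = q^6`
-/

set_option autoImplicit false
set_option linter.unusedSectionVars false

open Classical

namespace Pool.Agent.Helper52.Hemi

section defs

variable (k F K : Type) [Field k] [Fintype k] [Field F] [Fintype F] [Field K] [Fintype K]
  [Algebra k F] [Algebra F K] [Algebra k K] [IsScalarTower k F K]

/-- `x ↦ x^q` on `F`. -/
noncomputable def cj : F →ₐ[k] F := FiniteField.frobeniusAlgHom k F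

/-- `x ↦ x^q` on `K`. -/
noncomputable def fr : K →ₐ[k] K := FiniteField.frobeniusAlgHom k K

/-- `x ↦ x^(q^3)` on `K`. -/
noncomputable def tau : K →ₐ[k] K := (fr k K).comp ((fr k K).comp (fr k K))

/-- The Hermitian form `Tr_{K/F}(x y^{q^3})`. -/
noncomputable def hh (x y : K) : F := Algebra.trace F K (x * tau k K y)

/-- The cyclic group `C` of order `q^2-q+1`. -/
noncomputable def CC : Finset K :=
  Finset.univ.filter (fun s => s ^ (Fintype.card k ^ 2 - Fintype.card k + 1) = 1)

/-- The data of characteristic 3. -/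
structure Ctx where
  char3 : (3 : k) = 0
  finF : Module.finrank k F = 2
  finK : Module.finrank F K = 3
  i : k
  hi : i ^ 2 = -1
  δ : F
  hδ0 : δ ≠ 0
  hδ : δ ^ Fintype.card k = -δ
  θ : K
  hθ : θ ^ Fintype.card k = θ + 1

end defs

section api

variable {k F K : Type} [Field k] [Fintype k] [Field F] [Fintype F] [Field K] [Fintype K]
  [Algebra k F] [Algebra F K] [Algebra k K] [IsScalarTower k F K]

omit [Fintype F] in
theorem cj_apply [Fintype F] (x : F) : cj k F x = x ^ Fintype.card k := rfl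

theorem fr_apply (x : K) : fr k K x = x ^ Fintype.card k := rfl

theorem tau_apply (x : K) : tau k K x = x ^ (Fintype.card k ^ 3) := by
  change ((x ^ Fintype.card k) ^ Fintype.card k) ^ Fintype.card k = _
  rw [← pow_mul, ← pow_mul]
  congr 1
  ring

theorem tau_eq (x : K) : tau k K x = fr k K (fr k K (fr k K x)) := rfl

theorem cj_algebraMap (c : k) : cj k F (algebraMap k F c) = algebraMap k F c :=
  (cj k F).commutes c

theorem fr_algebraMap (c : k) : fr k K (algebraMap k K c) = algebraMap k K c :=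
  (fr k K).commutes c

theorem tau_algebraMap (c : k) : tau k K (algebraMap k K c) = algebraMap k K c :=
  (tau k K).commutes c

theorem fr_F (x : F) : fr k K (algebraMap F K x) = algebraMap F K (cj k F x) := by
  rw [fr_apply, cj_apply, map_pow]

namespace Ctx

variable (c : Ctx k F K)

include c in
theorem three_F : (3 : F) = 0 := by
  have := congrArg (algebraMap k F) c.char3
  rwa [map_ofNat, map_zero] at this

include c in
theorem three_K : (3 : K) = 0 := by
  have := congrArg (algebraMap k K) c.char3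
  rwa [map_ofNat, map_zero] at this

include c in
theorem card_F : Fintype.card F = Fintype.card k ^ 2 := by
  rw [Module.card_eq_pow_finrank (K := k) (V := F), c.finF]

include c in
theorem card_K : Fintype.card K = Fintype.card k ^ 6 := by
  rw [Module.card_eq_pow_finrank (K := F) (V := K), c.finK, c.card_F]
  ring

include c in
theorem cj_cj (x : F) : cj k F (cj k F x) = x := by
  rw [cj_apply, cj_apply, ← pow_mul, ← sq, ← c.card_F, FiniteField.pow_card]

include c in
theorem tau_F (x : F) : tau k K (algebraMap F K x) = algebraMap F K (cj k F x) := by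
  rw [tau_eq, fr_F, fr_F, fr_F, c.cj_cj]

include c in
theorem fr_six (x : K) : fr k K (fr k K (fr k K (fr k K (fr k K (fr k K x))))) = x := by
  change ((((((x ^ Fintype.card k) ^ Fintype.card k) ^ Fintype.card k) ^ Fintype.card k) ^
    Fintype.card k) ^ Fintype.card k) = x
  rw [← pow_mul, ← pow_mul, ← pow_mul, ← pow_mul, ← pow_mul]
  have h6 : ∀ m n : ℕ, m = n → x ^ m = x ^ n := fun m n h => by rw [h]
  rw [h6 _ (Fintype.card K) (by rw [c.card_K]; ring), FiniteField.pow_card]

include c in
theorem tau_tau (x : K) : tau k K (tau k K x) = x := by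
  rw [tau_eq, tau_eq, c.fr_six]

include c in
theorem trace_formula (z : K) : algebraMap F K (Algebra.trace F K z) =
    z + fr k K (fr k K z) + fr k K (fr k K (fr k K (fr k K z))) := by
  rw [FiniteField.algebraMap_trace_eq_sum_pow, c.finK, Finset.sum_range_succ,
    Finset.sum_range_succ, Finset.sum_range_one, Nat.card_eq_fintype_card, c.card_F]
  simp only [fr_apply, ← pow_mul]
  ring_nf

include c in
theorem norm_formula (z : K) : algebraMap F K (Algebra.norm F z) =
    z * fr k K (fr k K z) * fr k K (fr k K (fr k K (fr k K z))) := by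
  rw [FiniteField.algebraMap_norm_eq_prod_pow, c.finK, Finset.prod_range_succ,
    Finset.prod_range_succ, Finset.prod_range_one, Nat.card_eq_fintype_card, c.card_F]
  simp only [fr_apply, ← pow_mul]
  ring_nf

include c in
theorem trF_formula (z : F) : algebraMap k F (Algebra.trace k F z) = z + cj k F z := by
  rw [FiniteField.algebraMap_trace_eq_sum_pow, c.finF, Finset.sum_range_succ,
    Finset.sum_range_one, Nat.card_eq_fintype_card, cj_apply]
  simp

include c in
theorem normF_formula (z : F) : algebraMap k F (Algebra.norm k z) = z * cj k F z := by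
  rw [FiniteField.algebraMap_norm_eq_prod_pow, c.finF, Finset.prod_range_succ,
    Finset.prod_range_one, Nat.card_eq_fintype_card, cj_apply]
  simp

theorem cj_δ : cj k F c.δ = - c.δ := c.hδ

theorem fr_θ : fr k K c.θ = c.θ + 1 := c.hθ

theorem fr2_θ : fr k K (fr k K c.θ) = c.θ - 1 := by
  rw [c.fr_θ, map_add, map_one, c.fr_θ]
  linear_combination c.three_K

theorem fr4_θ : fr k K (fr k K (fr k K (fr k K c.θ))) = c.θ + 1 := by
  rw [c.fr2_θ, map_sub, map_one, map_sub, map_one, c.fr2_θ]
  linear_combination - c.three_K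

theorem tau_θ : tau k K c.θ = c.θ := by
  rw [tau_eq, c.fr2_θ, map_sub, map_one, c.fr_θ]
  ring

include c in
/-- Elements of `F` fixed by conjugation lie in `k`. -/
theorem exists_k {x : F} (hx : cj k F x = x) : ∃ u : k, algebraMap k F u = x := by
  have hq1 : 1 < Fintype.card k := Fintype.one_lt_card
  have hne := FiniteField.X_pow_card_sub_X_ne_zero F hq1
  have hdeg := FiniteField.X_pow_card_sub_X_natDegree_eq F hq1
  set p := (Polynomial.X ^ Fintype.card k - Polynomial.X : Polynomial F) with hp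
  have hsub : Finset.univ.image (algebraMap k F) ⊆ p.roots.toFinset := by
    intro y hy
    obtain ⟨u, _, rfl⟩ := Finset.mem_image.1 hy
    rw [Multiset.mem_toFinset, Polynomial.mem_roots hne]
    simp only [hp, Polynomial.IsRoot, Polynomial.eval_sub, Polynomial.eval_pow,
      Polynomial.eval_X]
    rw [← map_pow, FiniteField.pow_card, sub_self]
  have hcard : p.roots.toFinset.card ≤ (Finset.univ.image (algebraMap k F)).card := by
    rw [Finset.card_image_of_injective _ (algebraMap k F).injective, Finset.card_univ, ← hdeg]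
    exact (Multiset.toFinset_card_le _).trans (Polynomial.card_roots' _)
  have heq := Finset.eq_of_subset_of_card_le hsub hcard
  have hxr : x ∈ p.roots.toFinset := by
    rw [Multiset.mem_toFinset, Polynomial.mem_roots hne]
    simp only [hp, Polynomial.IsRoot, Polynomial.eval_sub, Polynomial.eval_pow,
      Polynomial.eval_X]
    rw [← cj_apply, hx, sub_self]
  rw [← heq] at hxr
  obtain ⟨u, _, hu⟩ := Finset.mem_image.1 hxr
  exact ⟨u, hu⟩

/-- Elements with `cj x = -x` are the multiples of `δ`. -/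
theorem exists_δ {x : F} (hx : cj k F x = -x) : ∃ u : k, x = algebraMap k F u * c.δ := by
  obtain ⟨u, hu⟩ := c.exists_k (x := x / c.δ) (by rw [map_div₀, hx, c.cj_δ, neg_div_neg_eq])
  exact ⟨u, by rw [hu, div_mul_cancel₀ _ c.hδ0]⟩

theorem decomp (x : F) : ∃ u v : k, x = algebraMap k F u + algebraMap k F v * c.δ := by
  obtain ⟨u, hu⟩ := c.exists_k (x := -(x + cj k F x))
    (by rw [map_neg, map_add, c.cj_cj, add_comm])
  obtain ⟨v, hv⟩ := c.exists_δ (x := -(x - cj k F x))
    (by rw [map_neg, map_sub, c.cj_cj]; ring)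
  refine ⟨u, v, ?_⟩
  rw [hu, ← hv]
  linear_combination (x) * c.three_F

/-- Coordinates with respect to the basis `1, θ, 1 + θ^2`. -/
noncomputable def vec (X0 x1 x2 : F) : K :=
  algebraMap F K X0 + algebraMap F K x1 * c.θ + algebraMap F K x2 * (1 + c.θ ^ 2)

theorem fr2_vec (X0 x1 x2 : F) : fr k K (fr k K (c.vec X0 x1 x2)) =
    algebraMap F K X0 + algebraMap F K x1 * (c.θ - 1) +
      algebraMap F K x2 * (1 + (c.θ - 1) ^ 2) := by
  rw [vec]
  simp only [map_add, map_mul, map_pow, map_one, fr_F, c.cj_cj, c.fr2_θ]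

theorem fr4_vec (X0 x1 x2 : F) : fr k K (fr k K (fr k K (fr k K (c.vec X0 x1 x2)))) =
    algebraMap F K X0 + algebraMap F K x1 * (c.θ + 1) +
      algebraMap F K x2 * (1 + (c.θ + 1) ^ 2) := by
  rw [vec]
  simp only [map_add, map_mul, map_pow, map_one, fr_F, c.cj_cj, c.fr4_θ]

theorem tau_vec (X0 x1 x2 : F) : tau k K (c.vec X0 x1 x2) =
    c.vec (cj k F X0) (cj k F x1) (cj k F x2) := by
  rw [vec, vec]
  simp only [map_add, map_mul, map_pow, map_one, c.tau_F, c.tau_θ]

theorem vec_injective {X0 x1 x2 Y0 y1 y2 : F} (h : c.vec X0 x1 x2 = c.vec Y0 y1 y2) :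
    X0 = Y0 ∧ x1 = y1 ∧ x2 = y2 := by
  have h2 : fr k K (fr k K (c.vec X0 x1 x2)) = fr k K (fr k K (c.vec Y0 y1 y2)) := by rw [h]
  have h4 : fr k K (fr k K (fr k K (fr k K (c.vec X0 x1 x2)))) =
    fr k K (fr k K (fr k K (fr k K (c.vec Y0 y1 y2)))) := by rw [h]
  rw [c.fr2_vec, c.fr2_vec] at h2
  rw [c.fr4_vec, c.fr4_vec] at h4
  rw [vec, vec] at h
  have hinj := (algebraMap F K).injective
  have e2 : algebraMap F K x2 = algebraMap F K y2 := by
    linear_combination - h - h2 - h4 + (algebraMap F K X0 + algebraMap F K x1 * c.θ +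
      algebraMap F K x2 * (2 + c.θ ^ 2) - algebraMap F K Y0 - algebraMap F K y1 * c.θ -
      algebraMap F K y2 * (2 + c.θ ^ 2)) * c.three_K
  have e1 : algebraMap F K x1 = algebraMap F K y1 := by
    rw [e2] at h h4
    linear_combination h4 - h
  have e0 : algebraMap F K X0 = algebraMap F K Y0 := by
    rw [e1, e2] at h
    linear_combination h
  exact ⟨hinj e0, hinj e1, hinj e2⟩

theorem vec_surjective (x : K) : ∃ X0 x1 x2 : F, x = c.vec X0 x1 x2 := by
  have hinj : Function.Injective (fun p : F × F × F => c.vec p.1 p.2.1 p.2.2) := by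
    rintro ⟨a, b, d⟩ ⟨a', b', d'⟩ h
    obtain ⟨h1, h2, h3⟩ := c.vec_injective h
    simp only at h1 h2 h3
    rw [h1, h2, h3]
  have hcard : Fintype.card (F × F × F) = Fintype.card K := by
    rw [Fintype.card_prod, Fintype.card_prod, c.card_F, c.card_K]
    ring
  have hbij := (Fintype.bijective_iff_injective_and_card _).2 ⟨hinj, hcard⟩
  obtain ⟨⟨a, b, d⟩, h⟩ := hbij.2 x
  exact ⟨a, b, d, h.symm⟩

/-- `θ^3 - θ` lies in `k`. -/
theorem exists_a : ∃ a : k, c.θ ^ 3 = c.θ + algebraMap k K a := by
  have h3 : fr k K (c.θ ^ 3 - c.θ) = c.θ ^ 3 - c.θ := by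
    rw [map_sub, map_pow, c.fr_θ]
    linear_combination (c.θ ^ 2 + c.θ) * c.three_K
  obtain ⟨X0, x1, x2, hX⟩ := c.vec_surjective (c.θ ^ 3 - c.θ)
  have h32 : fr k K (fr k K (c.θ ^ 3 - c.θ)) = c.θ ^ 3 - c.θ := by rw [h3, h3]
  rw [hX, c.fr2_vec, vec] at h32
  have e1 : c.vec (x2 - x1) x2 0 = c.vec 0 0 0 := by
    rw [vec, vec, map_sub, map_zero]
    linear_combination h32 + (algebraMap F K x2 * c.θ) * c.three_K
  obtain ⟨h1, h2, _⟩ := c.vec_injective e1
  have hx1 : x1 = 0 := by rw [h2] at h1; simpa using h1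
  have hX' : c.θ ^ 3 - c.θ = algebraMap F K X0 := by
    rw [hX, vec, h2, hx1, map_zero]
    ring
  have h5 : cj k F X0 = X0 := by
    apply (algebraMap F K).injective
    rw [← fr_F, ← hX', h3]
  obtain ⟨a, ha⟩ := c.exists_k h5
  refine ⟨a, ?_⟩
  rw [IsScalarTower.algebraMap_apply k F K, ha, ← hX']
  ring

/-- `θ^3 - θ` as an element of `k`. -/
noncomputable def a : k := Classical.choose c.exists_a

theorem θ3 : c.θ ^ 3 = c.θ + algebraMap k K c.a := Classical.choose_spec c.exists_a

/-- `a` is not of the form `z^3 - z`. -/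
theorem a_ne (z : k) : z ^ 3 - z ≠ c.a := by
  intro h
  have h3 := c.θ3
  rw [← h, map_sub, map_pow] at h3
  have h4 : (c.θ - algebraMap k K z) * ((c.θ - algebraMap k K z) - 1) *
      ((c.θ - algebraMap k K z) + 1) = 0 := by
    linear_combination h3 + (- c.θ ^ 2 * algebraMap k K z +
      c.θ * algebraMap k K z ^ 2) * c.three_K
  have key : ∀ w : k, c.θ ≠ algebraMap k K w := by
    intro w hw
    have h5 := c.fr_θ
    rw [hw, fr_algebraMap] at h5
    exact one_ne_zero (α := K) (by linear_combination -h5)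
  rcases mul_eq_zero.1 h4 with h5 | h5
  · rcases mul_eq_zero.1 h5 with h6 | h6
    · exact key z (by linear_combination h6)
    · exact key (z + 1) (by rw [map_add, map_one]; linear_combination h6)
  · exact key (z - 1) (by rw [map_sub, map_one]; linear_combination h5)

theorem a_ne_zero : c.a ≠ 0 := by
  intro h
  exact c.a_ne 0 (by rw [h]; ring)

theorem trace_vec (X0 x1 x2 : F) : Algebra.trace F K (c.vec X0 x1 x2) = - x2 := by
  apply (algebraMap F K).injective
  rw [c.trace_formula, c.fr4_vec, c.fr2_vec, vec, map_neg]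
  linear_combination (algebraMap F K X0 + algebraMap F K x1 * c.θ +
      algebraMap F K x2 * (2 + c.θ ^ 2)) * c.three_K

theorem vec_mul (X0 x1 x2 Y0 y1 y2 : F) : ∃ Z0 Z1 : F,
    c.vec X0 x1 x2 * c.vec Y0 y1 y2 = c.vec Z0 Z1 (X0 * y2 + x1 * y1 + x2 * Y0) := by
  refine ⟨X0 * Y0 - x1 * y1 + (x1 * y2 + x2 * y1) * algebraMap k F c.a + x2 * y2,
    X0 * y1 + x1 * Y0 + 2 * (x1 * y2 + x2 * y1) + x2 * y2 * algebraMap k F c.a, ?_⟩
  rw [vec, vec, vec]
  simp only [map_add, map_sub, map_mul, map_ofNat, ← IsScalarTower.algebraMap_apply]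
  linear_combination ((algebraMap F K x1 * algebraMap F K y2 +
    algebraMap F K x2 * algebraMap F K y1) +
    (algebraMap F K x2 * algebraMap F K y2) * c.θ) * c.θ3 +
    ((algebraMap F K x2 * algebraMap F K y2) * c.θ ^ 2) * c.three_K

theorem hh_vec (X0 x1 x2 Y0 y1 y2 : F) :
    hh k F K (c.vec X0 x1 x2) (c.vec Y0 y1 y2) =
      - (X0 * cj k F y2 + x1 * cj k F y1 + x2 * cj k F Y0) := by
  rw [hh, c.tau_vec]
  obtain ⟨Z0, Z1, h⟩ := c.vec_mul X0 x1 x2 (cj k F Y0) (cj k F y1) (cj k F y2)
  rw [h, c.trace_vec]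

end Ctx

end api

end Pool.Agent.Helper52.Hemi
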