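import Mathlib
import Pool.Agent.Helper52.Hemi.Base

/-!
# The cyclic group `C` of order `q^2-q+1` and its parametrisation
-/

set_option autoImplicit false
set_option linter.unusedSectionVars false

open Classical

namespace Pool.Agent.Helper52.Hemi

variable {k F K : Type} [Field k] [Fintype k] [Field F] [Fintype F] [Field K] [Fintype K]
  [Algebra k F] [Algebra F K] [Algebra k K] [IsScalarTower k F K]

namespace Ctx

variable (c : Ctx k F K)

/-- Replace `θ` by `θ - σ`. -/
def shift (σ : k) : Ctx k F K :=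
  { c with
    θ := c.θ - algebraMap k K σ
    hθ := by
      have h : fr k K (c.θ - algebraMap k K σ) = c.θ - algebraMap k K σ + 1 := by
        rw [map_sub, c.fr_θ, fr_algebraMap]
        ring
      exact h }

theorem shift_θ (σ : k) : (c.shift σ).θ = c.θ - algebraMap k K σ := rfl

theorem shift_δ (σ : k) : (c.shift σ).δ = c.δ := rfl

theorem shift_a (σ : k) : (c.shift σ).a = c.a + σ - σ ^ 3 := by
  apply (algebraMap k K).injective
  have h1 := (c.shift σ).θ3
  have h2 := c.θ3
  rw [c.shift_θ] at h1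
  rw [map_sub, map_add, map_pow]
  linear_combination h2 - h1 + (c.θ ^ 2 * algebraMap k K σ -
    c.θ * (algebraMap k K σ) ^ 2) * c.three_K * (-1)

theorem θ_ne (x : F) : c.θ ≠ algebraMap F K x := by
  intro h
  have h2 := c.fr2_θ
  rw [h, fr_F, fr_F, c.cj_cj] at h2
  exact one_ne_zero (α := K) (by linear_combination h2)

include c in
theorem mem_CC_iff {s : K} : s ∈ CC k K ↔
    s * tau k K s = 1 ∧ s * fr k K (fr k K s) * fr k K (fr k K (fr k K (fr k K s))) = 1 := by
  have hle : Fintype.card k ≤ Fintype.card k ^ 2 := Nat.le_self_pow (by norm_num) _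
  have e1 : s * tau k K s = (s ^ (Fintype.card k ^ 2 - Fintype.card k + 1)) ^
      (Fintype.card k + 1) := by
    rw [tau_apply, ← pow_succ', ← pow_mul]
    congr 1
    zify [hle]
    ring
  have e2 : s * fr k K (fr k K s) * fr k K (fr k K (fr k K (fr k K s))) =
      (s ^ (Fintype.card k ^ 2 - Fintype.card k + 1)) ^
        (Fintype.card k ^ 2 + Fintype.card k + 1) := by
    simp only [fr_apply, ← pow_mul, ← pow_succ', ← pow_add]
    congr 1
    zify [hle]
    ring
  rw [CC, Finset.mem_filter, e1, e2]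
  constructor
  · rintro ⟨_, h⟩
    rw [h, one_pow, one_pow]
    exact ⟨rfl, rfl⟩
  · rintro ⟨h1, h2⟩
    refine ⟨Finset.mem_univ _, ?_⟩
    have h3 : ∀ u : K, u ^ (Fintype.card k ^ 2 + Fintype.card k + 1) =
        (u ^ (Fintype.card k + 1)) ^ Fintype.card k * u := by
      intro u
      rw [← pow_mul, ← pow_succ]
      congr 1
      ring
    have h4 := h3 (s ^ (Fintype.card k ^ 2 - Fintype.card k + 1))
    rw [h2, h1, one_pow, one_mul] at h4
    exact h4.symm

include c in
theorem one_mem_CC : (1 : K) ∈ CC k K := by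
  rw [CC, Finset.mem_filter]
  exact ⟨Finset.mem_univ _, one_pow _⟩

/-- The points of `C ∖ {1}`. -/
noncomputable def sp (b : F) : K :=
  (c.θ ^ 2 - (algebraMap F K b + 1) ^ 2) / (c.θ ^ 2 - (algebraMap F K b - 1) ^ 2)

/-- The denominator. -/
noncomputable def DD (b : F) : F := (algebraMap k F c.a) ^ 2 - (b ^ 3 - b) ^ 2

theorem θ_sq_ne (x : F) : c.θ ^ 2 - (algebraMap F K x) ^ 2 ≠ 0 := by
  intro h
  have h1 : (c.θ - algebraMap F K x) * (c.θ - algebraMap F K (-x)) = 0 := by
    rw [map_neg]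
    linear_combination h
  rcases mul_eq_zero.1 h1 with h2 | h2
  · exact c.θ_ne x (sub_eq_zero.1 h2)
  · exact c.θ_ne (-x) (sub_eq_zero.1 h2)

theorem den_ne (b : F) : c.θ ^ 2 - (algebraMap F K b - 1) ^ 2 ≠ 0 := by
  have := c.θ_sq_ne (b - 1)
  rwa [map_sub, map_one] at this

theorem num_ne (b : F) : c.θ ^ 2 - (algebraMap F K b + 1) ^ 2 ≠ 0 := by
  have := c.θ_sq_ne (b + 1)
  rwa [map_add, map_one] at this

include c in
theorem two_ne_zero_F : (2 : F) ≠ 0 := by
  intro h
  have h3 := c.three_F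
  exact one_ne_zero (α := F) (by linear_combination h3 - h)

theorem DD_ne_zero {b : F} (hb : cj k F b = -b) : c.DD b ≠ 0 := by
  intro h
  have h1 : (algebraMap k F c.a - (b ^ 3 - b)) * (algebraMap k F c.a + (b ^ 3 - b)) = 0 := by
    rw [DD] at h
    linear_combination h
  have ha : algebraMap k F c.a ≠ 0 := by
    intro h0
    exact c.a_ne_zero ((map_eq_zero _).1 h0)
  have key : ∀ ε : F, (ε = 1 ∨ ε = -1) → algebraMap k F c.a ≠ ε * (b ^ 3 - b) := by
    intro ε hε h0
    have h2 := congrArg (cj k F) h0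
    have hε' : cj k F ε = ε := by
      rcases hε with rfl | rfl <;> simp
    rw [cj_algebraMap, map_mul, map_sub, map_pow, hb, hε'] at h2
    apply ha
    have h4 : 2 * algebraMap k F c.a = 0 := by linear_combination h0 + h2
    exact (mul_eq_zero.1 h4).resolve_left c.two_ne_zero_F
  rcases mul_eq_zero.1 h1 with h2 | h2
  · exact key 1 (Or.inl rfl) (by linear_combination h2)
  · exact key (-1) (Or.inr rfl) (by linear_combination h2)

theorem cj_DD {b : F} (hb : cj k F b = -b) : cj k F (c.DD b) = c.DD b := by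
  rw [DD]
  simp only [map_sub, map_pow, cj_algebraMap, hb]
  ring

theorem sp_explicit (b : F) : algebraMap F K (c.DD b) * c.sp b =
    c.vec ((algebraMap k F c.a) ^ 2 - b ^ 5 - b ^ 6) (-(algebraMap k F c.a) * b)
      (-(b ^ 2 + b ^ 3)) := by
  rw [sp, ← mul_div_assoc, div_eq_iff (c.den_ne b), vec, DD]
  simp only [map_sub, map_neg, map_add, map_pow, map_mul, ← IsScalarTower.algebraMap_apply]
  set B := algebraMap F K b
  set A := algebraMap k K c.a
  linear_combination (B ^ 3 * c.θ + B ^ 2 * c.θ + A * B) * c.θ3 -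
    (- B ^ 7 - B ^ 4 * c.θ ^ 2 - B ^ 3 * c.θ ^ 2 + 2 * B ^ 5 - A * B ^ 2 * c.θ + A ^ 2 * B
      - B ^ 3) * c.three_K

theorem tau_sp {b : F} (hb : cj k F b = -b) : tau k K (c.sp b) = (c.sp b)⁻¹ := by
  rw [sp, map_div₀]
  simp only [map_sub, map_add, map_pow, map_one, c.tau_θ, c.tau_F, hb, map_neg]
  rw [inv_div]
  congr 1 <;> ring

theorem sp_mem {b : F} (hb : cj k F b = -b) : c.sp b ∈ CC k K := by
  rw [c.mem_CC_iff]
  have hsp0 : c.sp b ≠ 0 := by
    rw [sp]
    exact div_ne_zero (c.num_ne b) (c.den_ne b)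
  refine ⟨by rw [c.tau_sp hb, mul_inv_cancel₀ hsp0], ?_⟩
  have e2 : fr k K (fr k K (c.sp b)) = ((c.θ - 1) ^ 2 - (algebraMap F K b + 1) ^ 2) /
      ((c.θ - 1) ^ 2 - (algebraMap F K b - 1) ^ 2) := by
    rw [sp]
    simp only [map_div₀, map_sub, map_add, map_pow, map_one, fr_F, c.cj_cj, c.fr2_θ]
  have e4 : fr k K (fr k K (fr k K (fr k K (c.sp b)))) =
      ((c.θ + 1) ^ 2 - (algebraMap F K b + 1) ^ 2) /
      ((c.θ + 1) ^ 2 - (algebraMap F K b - 1) ^ 2) := by
    rw [sp]
    simp only [map_div₀, map_sub, map_add, map_pow, map_one, fr_F, c.cj_cj, c.fr4_θ]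
  have n1 := c.den_ne b
  have n2 : (c.θ - 1) ^ 2 - (algebraMap F K b - 1) ^ 2 ≠ 0 := by
    have := (c.shift 1).den_ne b
    rwa [c.shift_θ, map_one] at this
  have n3 : (c.θ + 1) ^ 2 - (algebraMap F K b - 1) ^ 2 ≠ 0 := by
    have := (c.shift (-1)).den_ne b
    rwa [c.shift_θ, map_neg, map_one, sub_neg_eq_add] at this
  rw [e4, e2, sp, div_mul_div_comm, div_mul_div_comm, div_eq_one_iff_eq
    (mul_ne_zero (mul_ne_zero n1 n2) n3)]
  set B := algebraMap F K b
  linear_combination (- 4 * B * c.θ ^ 4 + 8 * B ^ 3 * c.θ ^ 2 - 4 * B ^ 5 + 8 * B * c.θ ^ 2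
    - 8 * B ^ 3) * c.three_K

theorem sp_sub_one (b : F) : c.sp b - 1 =
    - algebraMap F K b / (c.θ ^ 2 - (algebraMap F K b - 1) ^ 2) := by
  rw [sp, div_sub_one (c.den_ne b)]
  congr 1
  linear_combination (- algebraMap F K b) * c.three_K

theorem sp_ne_one {b : F} (hb0 : b ≠ 0) : c.sp b ≠ 1 := by
  intro h
  have h1 := c.sp_sub_one b
  rw [h, sub_self, eq_comm, div_eq_zero_iff] at h1
  rcases h1 with h1 | h1
  · rw [neg_eq_zero, map_eq_zero] at h1
    exact hb0 h1
  · exact c.den_ne b h1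

theorem sp_inj {b b' : F} {σ σ' : k} (hb0 : b ≠ 0)
    (h : (c.shift σ).sp b = (c.shift σ').sp b') : σ = σ' ∧ b = b' := by
  have h1 := (c.shift σ).sp_sub_one b
  have h2 := (c.shift σ').sp_sub_one b'
  rw [h, h2, div_eq_div_iff ((c.shift σ').den_ne b') ((c.shift σ).den_ne b), c.shift_θ,
    c.shift_θ] at h1
  have h3 : c.vec (b' * ((algebraMap k F σ) ^ 2 - (b - 1) ^ 2 - 1))
      (b' * algebraMap k F σ) b' =
      c.vec (b * ((algebraMap k F σ') ^ 2 - (b' - 1) ^ 2 - 1))
      (b * algebraMap k F σ') b := by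
    rw [vec, vec]
    simp only [map_sub, map_pow, map_mul, map_one, ← IsScalarTower.algebraMap_apply]
    linear_combination - h1 + (algebraMap F K b' * algebraMap k K σ * c.θ -
      algebraMap F K b * algebraMap k K σ' * c.θ) * c.three_K
  obtain ⟨_, h4, h5⟩ := c.vec_injective h3
  refine ⟨?_, h5.symm⟩
  rw [h5] at h4
  exact (algebraMap k F).injective (mul_left_cancel₀ hb0 h4)

theorem cj_yδ (y : k) : cj k F (algebraMap k F y * c.δ) = -(algebraMap k F y * c.δ) := by
  rw [map_mul, cj_algebraMap, c.cj_δ]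
  ring

theorem yδ_ne {y : k} (hy : y ≠ 0) : algebraMap k F y * c.δ ≠ 0 :=
  mul_ne_zero ((map_ne_zero _).2 hy) c.hδ0

/-- The parametrising map. -/
noncomputable def par (p : k × k) : K := (c.shift p.1).sp (algebraMap k F p.2 * c.δ)

theorem CC_eq : CC k K = insert 1
    ((Finset.univ ×ˢ (Finset.univ.erase (0 : k))).image c.par) := by
  symm
  apply Finset.eq_of_subset_of_card_le
  · intro s hs
    rw [Finset.mem_insert] at hs
    rcases hs with rfl | hs
    · exact c.one_mem_CC
    · obtain ⟨⟨σ, y⟩, _, rfl⟩ := Finset.mem_image.1 hs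
      exact (c.shift σ).sp_mem (c.cj_yδ y)
  · have hinj : Set.InjOn c.par
        ((Finset.univ ×ˢ (Finset.univ.erase (0 : k)) : Finset (k × k)) : Set (k × k)) := by
      rintro ⟨σ, y⟩ h1 ⟨σ', y'⟩ h2 h
      simp only [Finset.coe_product, Set.mem_prod, Finset.mem_coe, Finset.mem_erase,
        Finset.mem_univ, and_true, true_and] at h1 h2
      obtain ⟨h3, h4⟩ := c.sp_inj (c.yδ_ne h1) h
      have h5 := mul_right_cancel₀ c.hδ0 h4
      have h6 := (algebraMap k F).injective h5
      exact Prod.ext h3 h6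
    have hni : (1 : K) ∉ (Finset.univ ×ˢ (Finset.univ.erase (0 : k))).image c.par := by
      intro h
      obtain ⟨⟨σ, y⟩, h1, h2⟩ := Finset.mem_image.1 h
      simp only [Finset.mem_product, Finset.mem_erase,
        Finset.mem_univ, and_true, true_and] at h1
      exact (c.shift σ).sp_ne_one (c.yδ_ne h1) h2
    rw [Finset.card_insert_of_notMem hni, Finset.card_image_of_injOn hinj, Finset.card_product,
      Finset.card_univ, Finset.card_erase_of_mem (Finset.mem_univ _), Finset.card_univ]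
    have hle : Fintype.card k ≤ Fintype.card k ^ 2 := Nat.le_self_pow (by norm_num) _
    have h1 : Fintype.card k * (Fintype.card k - 1) + 1 =
        Fintype.card k ^ 2 - Fintype.card k + 1 := by
      have : 1 ≤ Fintype.card k := Fintype.card_pos
      zify [hle, this]
      ring
    rw [h1]
    have h2 : CC k K ⊆ (Polynomial.nthRoots (Fintype.card k ^ 2 - Fintype.card k + 1)
        (1 : K)).toFinset := by
      intro s hs
      rw [CC, Finset.mem_filter] at hs
      rw [Multiset.mem_toFinset, Polynomial.mem_nthRoots (by omega)]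
      exact hs.2
    exact (Finset.card_le_card h2).trans ((Multiset.toFinset_card_le _).trans
      (Polynomial.card_nthRoots _ _))

/-- Sums over `C`. -/
theorem sum_CC {M : Type} [AddCommMonoid M] (g : K → M) : ∑ s ∈ CC k K, g s =
    g 1 + ∑ σ : k, ∑ y ∈ Finset.univ.erase (0 : k),
      g ((c.shift σ).sp (algebraMap k F y * c.δ)) := by
  have hinj : Set.InjOn c.par
      ((Finset.univ ×ˢ (Finset.univ.erase (0 : k)) : Finset (k × k)) : Set (k × k)) := by
    rintro ⟨σ, y⟩ h1 ⟨σ', y'⟩ h2 h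
    simp only [Finset.coe_product, Set.mem_prod, Finset.mem_coe, Finset.mem_erase,
      Finset.mem_univ, and_true, true_and] at h1 h2
    obtain ⟨h3, h4⟩ := c.sp_inj (c.yδ_ne h1) h
    have h5 := mul_right_cancel₀ c.hδ0 h4
    have h6 := (algebraMap k F).injective h5
    exact Prod.ext h3 h6
  have hni : (1 : K) ∉ (Finset.univ ×ˢ (Finset.univ.erase (0 : k))).image c.par := by
    intro h
    obtain ⟨⟨σ, y⟩, h1, h2⟩ := Finset.mem_image.1 h
    simp only [Finset.mem_product, Finset.mem_erase,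
      Finset.mem_univ, and_true, true_and] at h1
    exact (c.shift σ).sp_ne_one (c.yδ_ne h1) h2
  rw [c.CC_eq, Finset.sum_insert hni, Finset.sum_image hinj, Finset.sum_product]
  rfl

include c in
theorem card_CC : (CC k K).card = Fintype.card k ^ 2 - Fintype.card k + 1 := by
  have h := c.sum_CC (fun _ : K => (1 : ℕ))
  simp only [Finset.sum_const, smul_eq_mul, mul_one, Finset.card_univ,
    Finset.card_erase_of_mem (Finset.mem_univ _)] at h
  rw [h]
  have hle : Fintype.card k ≤ Fintype.card k ^ 2 := Nat.le_self_pow (by norm_num) _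
  have : 1 ≤ Fintype.card k := Fintype.card_pos
  zify [hle, this]
  ring

end Ctx

end Pool.Agent.Helper52.Hemi
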