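import Mathlib
import Pool.Agent.Helper52.Hemi.Cpart

/-!
# The Hermitian form and the function `phi`
-/

set_option autoImplicit false
set_option linter.unusedSectionVars false

open Classical

namespace Pool.Agent.Helper52.Hemi

variable {k F K : Type} [Field k] [Fintype k] [Field F] [Fintype F] [Field K] [Fintype K]
  [Algebra k F] [Algebra F K] [Algebra k K] [IsScalarTower k F K]

theorem hh_add_left (x y z : K) : hh k F K (x + y) z = hh k F K x z + hh k F K y z := by
  rw [hh, hh, hh, add_mul, map_add]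

theorem hh_add_right (x y z : K) : hh k F K x (y + z) = hh k F K x y + hh k F K x z := by
  rw [hh, hh, hh, map_add, mul_add, map_add]

theorem hh_zero_left (z : K) : hh k F K 0 z = 0 := by
  rw [hh, zero_mul, map_zero]

theorem hh_zero_right (z : K) : hh k F K z 0 = 0 := by
  rw [hh, map_zero, mul_zero, map_zero]

theorem hh_smul_left (a : F) (x y : K) : hh k F K (algebraMap F K a * x) y =
    a * hh k F K x y := by
  rw [hh, hh, mul_assoc, ← Algebra.smul_def, map_smul, smul_eq_mul]

namespace Ctx

variable (c : Ctx k F K)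

include c in
theorem hh_smul_right (a : F) (x y : K) : hh k F K x (algebraMap F K a * y) =
    cj k F a * hh k F K x y := by
  rw [hh, hh, map_mul (tau k K), c.tau_F, mul_left_comm, ← Algebra.smul_def, map_smul, smul_eq_mul]

include c in
theorem hh_symm (x y : K) : cj k F (hh k F K x y) = hh k F K y x := by
  apply (algebraMap F K).injective
  rw [← fr_F, hh, hh, c.trace_formula, c.trace_formula]
  simp only [map_add, map_mul, tau_eq, c.fr_six]
  ring

include c in
theorem CC_mul {s t : K} (hs : s ∈ CC k K) (ht : t ∈ CC k K) : s * t ∈ CC k K := by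
  rw [CC, Finset.mem_filter] at *
  refine ⟨Finset.mem_univ _, ?_⟩
  rw [mul_pow, hs.2, ht.2, one_mul]

include c in
theorem CC_ne_zero {s : K} (hs : s ∈ CC k K) : s ≠ 0 := by
  rintro rfl
  rw [CC, Finset.mem_filter, zero_pow (by omega)] at hs
  exact zero_ne_one hs.2

include c in
theorem CC_inv {s : K} (hs : s ∈ CC k K) : s⁻¹ ∈ CC k K := by
  rw [CC, Finset.mem_filter] at *
  refine ⟨Finset.mem_univ _, ?_⟩
  rw [inv_pow, hs.2, inv_one]

include c in
theorem CC_tau {s : K} (hs : s ∈ CC k K) : s * tau k K s = 1 := (c.mem_CC_iff.1 hs).1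

include c in
theorem CC_norm {s : K} (hs : s ∈ CC k K) : Algebra.norm F s = 1 := by
  apply (algebraMap F K).injective
  rw [c.norm_formula, map_one]
  exact (c.mem_CC_iff.1 hs).2

include c in
theorem hh_CC {s : K} (hs : s ∈ CC k K) (x y : K) :
    hh k F K (s * x) (s * y) = hh k F K x y := by
  rw [hh, hh, map_mul (tau k K)]
  congr 1
  calc s * x * (tau k K s * tau k K y) = (s * tau k K s) * (x * tau k K y) := by ring
    _ = x * tau k K y := by rw [c.CC_tau hs, one_mul]

include c in
theorem hh_CC_inv {s : K} (hs : s ∈ CC k K) (x y : K) :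
    hh k F K (s * x) y = hh k F K x (s⁻¹ * y) := by
  rw [← c.hh_CC hs x (s⁻¹ * y), mul_inv_cancel_left₀ (c.CC_ne_zero hs)]

include c in
/-- Reindexing sums over `C`. -/
theorem sum_CC_mul {M : Type} [AddCommMonoid M] {t : K} (ht : t ∈ CC k K) (g : K → M) :
    ∑ s ∈ CC k K, g (t * s) = ∑ s ∈ CC k K, g s := by
  apply Finset.sum_bij (fun s _ => t * s)
  · intro s hs
    exact c.CC_mul ht hs
  · intro s _ s' _ h
    exact mul_left_cancel₀ (c.CC_ne_zero ht) h
  · intro s hs
    exact ⟨t⁻¹ * s, c.CC_mul (c.CC_inv ht) hs, mul_inv_cancel_left₀ (c.CC_ne_zero ht) s⟩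
  · intro s _
    rfl

/-! ### arithmetic of `q` -/

include c in
theorem ringChar_k : ringChar k ≠ 2 := by
  intro h
  have h3 := c.char3
  have h2 : ((2 : ℕ) : k) = 0 := by
    rw [← h]
    exact ringChar.Nat.cast_ringChar
  have : (1 : k) = 0 := by
    push_cast at h2
    linear_combination h3 - h2
  exact one_ne_zero this

include c in
theorem ringChar_F : ringChar F ≠ 2 := by
  intro h
  have h3 := c.three_F
  have h2 : ((2 : ℕ) : F) = 0 := by
    rw [← h]
    exact ringChar.Nat.cast_ringChar
  have : (1 : F) = 0 := by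
    push_cast at h2
    linear_combination h3 - h2
  exact one_ne_zero this

include c in
theorem q_mod_four : Fintype.card k % 4 = 1 := by
  have h1 : IsSquare (-1 : k) := ⟨c.i, by rw [← sq, c.hi]⟩
  have h2 := FiniteField.isSquare_neg_one_iff.1 h1
  have h3 := FiniteField.odd_card_of_char_ne_two c.ringChar_k
  omega

include c in
theorem chi_F (x : F) :
    (quadraticChar F x : F) = x ^ ((Fintype.card k - 1) * ((Fintype.card k + 1) / 2)) := by
  rw [quadraticChar_eq_pow_of_char_ne_two' c.ringChar_F]
  congr 1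
  rw [c.card_F]
  have h4 := c.q_mod_four
  obtain ⟨n, hn⟩ : ∃ n, Fintype.card k = 4 * n + 1 := ⟨Fintype.card k / 4, by omega⟩
  rw [hn]
  have e1 : (4 * n + 1 + 1) / 2 = 2 * n + 1 := by omega
  rw [e1]
  have e2 : (4 * n + 1) ^ 2 = 2 * ((4 * n + 1 - 1) * (2 * n + 1)) + 1 := by
    have : 4 * n + 1 - 1 = 4 * n := by omega
    rw [this]
    ring
  rw [e2]
  omega

include c in
theorem chi_k {u : k} (hu : u ≠ 0) : quadraticChar F (algebraMap k F u) = 1 := by
  have hu' : algebraMap k F u ≠ 0 := (map_ne_zero _).2 hu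
  have h := c.chi_F (algebraMap k F u)
  rw [pow_mul, ← map_pow, FiniteField.pow_card_sub_one_eq_one u hu, map_one, one_pow] at h
  rcases quadraticChar_dichotomy hu' with h1 | h1
  · exact h1
  · rw [h1] at h
    exfalso
    apply c.two_ne_zero_F
    push_cast at h
    linear_combination -h

theorem chi_δ : quadraticChar F c.δ = -1 := by
  have h := c.chi_F c.δ
  have h1 : c.δ ^ (Fintype.card k - 1) = -1 := by
    have h2 : c.δ ^ (Fintype.card k - 1) * c.δ = (-1) * c.δ := by
      rw [← pow_succ, Nat.sub_add_cancel Fintype.card_pos, c.hδ]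
      ring
    exact mul_right_cancel₀ c.hδ0 h2
  have h4 := c.q_mod_four
  have hodd : Odd ((Fintype.card k + 1) / 2) := by
    rw [Nat.odd_iff]
    omega
  rw [pow_mul, h1, hodd.neg_one_pow] at h
  rcases quadraticChar_dichotomy c.hδ0 with h3 | h3
  · rw [h3] at h
    exfalso
    apply c.two_ne_zero_F
    push_cast at h
    linear_combination h
  · exact h3

include c in
theorem q_odd : Odd (Fintype.card k) := by
  rw [Nat.odd_iff]
  have := c.q_mod_four
  omega

include c in
theorem chi_odd_pow (z : F) {n : ℕ} (hn : Odd n) :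
    quadraticChar F (z ^ n) = quadraticChar F z := by
  rw [map_pow]
  by_cases hz : z = 0
  · rw [hz, quadraticChar_zero]
    exact zero_pow (Nat.pos_of_ne_zero (by rintro rfl; exact absurd hn (by decide))).ne'
  · rcases quadraticChar_dichotomy hz with h | h <;> rw [h]
    · exact one_pow n
    · exact hn.neg_one_pow

include c in
theorem chi_cj (z : F) : quadraticChar F (cj k F z) = quadraticChar F z :=
  c.chi_odd_pow z c.q_odd

/-! ### `phi` -/

/-- `i` in `F`. -/
def iF : F := algebraMap k F c.i

theorem iF_sq : c.iF ^ 2 = -1 := by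
  rw [iF, ← map_pow, c.hi, map_neg, map_one]

theorem cj_iF : cj k F c.iF = c.iF := cj_algebraMap _

/-- `φ(t)`. -/
noncomputable def ph (t : F) : ℤ := phi k F c.i t

theorem ph_def (t : F) : c.ph t = quadraticChar F (t + c.iF * cj k F t) := rfl

theorem ph_zero : c.ph 0 = 0 := by
  rw [ph_def, map_zero, mul_zero, add_zero, quadraticChar_zero]

theorem ph_k {u : k} (hu : u ≠ 0) (t : F) : c.ph (algebraMap k F u * t) = c.ph t := by
  rw [ph_def, ph_def, map_mul, cj_algebraMap]
  have : algebraMap k F u * t + c.iF * (algebraMap k F u * cj k F t) =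
      algebraMap k F u * (t + c.iF * cj k F t) := by ring
  rw [this, map_mul, c.chi_k hu, one_mul]

theorem ph_cj (t : F) : c.ph (cj k F t) = c.ph t := by
  rw [ph_def, ph_def, ← c.chi_cj (t + c.iF * cj k F t), map_add (cj k F), map_mul (cj k F),
    c.cj_cj, c.cj_iF]

theorem chi_sub (t : F) : quadraticChar F (t - c.iF * cj k F t) = c.ph t := by
  have h1 : t - c.iF * cj k F t = algebraMap k F (-c.i) * (cj k F t + c.iF * t) := by
    have h2 : algebraMap k F (-c.i) = - c.iF := by rw [map_neg]; rfl
    rw [h2]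
    linear_combination t * c.iF_sq
  have hi0 : -c.i ≠ 0 := by
    intro h
    have h2 := c.hi
    rw [neg_eq_zero.1 h] at h2
    have : (1 : k) = 0 := by linear_combination h2
    exact one_ne_zero this
  rw [h1, map_mul, c.chi_k hi0, one_mul]
  have h3 := c.ph_cj t
  rw [ph_def, c.cj_cj] at h3
  exact h3

theorem ph_δ (t : F) : c.ph (c.δ * t) = - c.ph t := by
  rw [ph_def, map_mul, c.cj_δ]
  have : c.δ * t + c.iF * (-c.δ * cj k F t) = c.δ * (t - c.iF * cj k F t) := by ring
  rw [this, map_mul, c.chi_δ, c.chi_sub]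
  ring

theorem ph_cube (t : F) : c.ph (t ^ 3) = c.ph t := by
  have h1 : t ^ 3 + c.iF * cj k F (t ^ 3) = (t - c.iF * cj k F t) ^ 3 := by
    rw [map_pow]
    linear_combination (c.iF * (cj k F t) ^ 3 ) * c.iF_sq +
      (t ^ 2 * c.iF * cj k F t - t * c.iF ^ 2 * (cj k F t) ^ 2) * c.three_F
  rw [ph_def, h1, c.chi_odd_pow _ (by decide), c.chi_sub]

theorem lin_inj {t : F} (h : t + c.iF * cj k F t = 0) : t = 0 := by
  have h1 := congrArg (cj k F) h
  rw [map_add, map_mul, c.cj_cj, c.cj_iF, map_zero] at h1
  have h2 : 2 * t = 0 := by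
    linear_combination h - c.iF * h1 + t * c.iF_sq
  exact (mul_eq_zero.1 h2).resolve_left c.two_ne_zero_F

theorem ph_cases {t : F} (ht : t ≠ 0) : c.ph t = 1 ∨ c.ph t = -1 := by
  rw [ph_def]
  exact quadraticChar_dichotomy (fun h => ht (c.lin_inj h))

theorem ph_sq {t : F} (ht : t ≠ 0) : c.ph t ^ 2 = 1 := by
  rcases c.ph_cases ht with h | h <;> rw [h] <;> norm_num

theorem sum_ph : ∑ t : F, c.ph t = 0 := by
  have hbij : Function.Bijective (fun t : F => t + c.iF * cj k F t) := by
    apply Finite.injective_iff_bijective.1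
    intro x y h
    simp only at h
    have h1 : (x - y) + c.iF * cj k F (x - y) = 0 := by
      rw [map_sub]
      linear_combination h
    exact sub_eq_zero.1 (c.lin_inj h1)
  have h := Function.Bijective.sum_comp hbij (fun t => quadraticChar F t)
  rw [quadraticChar_sum_zero c.ringChar_F] at h
  exact h

theorem sum_ph_mul (A : F) : ∑ t : F, c.ph (t * A) = 0 := by
  by_cases hA : A = 0
  · rw [hA]
    simp [c.ph_zero]
  · have h := Function.Bijective.sum_comp (mulRight_bijective₀ A hA) (fun t => c.ph t)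
    rw [c.sum_ph] at h
    exact h

/-- Coordinates of `F` over `k`. -/
theorem sum_F {M : Type} [AddCommMonoid M] (g : F → M) : ∑ t : F, g t =
    ∑ u : k, ∑ v : k, g (algebraMap k F u + algebraMap k F v * c.δ) := by
  rw [← Finset.sum_product']
  symm
  have hinj : Function.Injective (fun p : k × k => algebraMap k F p.1 + algebraMap k F p.2 * c.δ) := by
    rintro ⟨u, v⟩ ⟨u', v'⟩ h
    simp only at h
    have h2 := congrArg (cj k F) h
    simp only [map_add, map_mul, cj_algebraMap, c.cj_δ] at h2
    have h3 : (2 : F) * algebraMap k F u = 2 * algebraMap k F u' := by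
      linear_combination h + h2
    have h4 := (algebraMap k F).injective (mul_left_cancel₀ c.two_ne_zero_F h3)
    rw [h4] at h
    have h5 := (algebraMap k F).injective (mul_right_cancel₀ c.hδ0 (add_left_cancel h))
    rw [h4, h5]
  have hbij : Function.Bijective
      (fun p : k × k => algebraMap k F p.1 + algebraMap k F p.2 * c.δ) := by
    refine ⟨hinj, ?_⟩
    intro x
    obtain ⟨u, v, h⟩ := c.decomp x
    exact ⟨(u, v), h.symm⟩
  exact Function.Bijective.sum_comp hbij g

theorem sum_line (A : F) :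
    ∑ y : k, c.ph ((1 + algebraMap k F y * c.δ) * A) + c.ph (c.δ * A) = 0 := by
  have h1 := c.sum_ph_mul A
  rw [c.sum_F] at h1
  have h2 : ∀ u : k, u ≠ 0 → ∑ v : k, c.ph ((algebraMap k F u + algebraMap k F v * c.δ) * A) =
      ∑ y : k, c.ph ((1 + algebraMap k F y * c.δ) * A) := by
    intro u hu
    rw [← Function.Bijective.sum_comp (mulLeft_bijective₀ u hu)]
    apply Finset.sum_congr rfl
    intro y _
    rw [← c.ph_k hu ((1 + algebraMap k F y * c.δ) * A), map_mul]
    congr 1
    ring
  have h3 : ∑ v : k, c.ph ((algebraMap k F 0 + algebraMap k F v * c.δ) * A) =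
      ∑ y ∈ Finset.univ.erase (0 : k), c.ph (c.δ * A) := by
    rw [← Finset.add_sum_erase Finset.univ _ (Finset.mem_univ (0 : k))]
    rw [map_zero, zero_mul, zero_add, zero_mul, c.ph_zero, zero_add]
    apply Finset.sum_congr rfl
    intro y hy
    rw [zero_add, mul_assoc, c.ph_k (Finset.ne_of_mem_erase hy)]
  rw [← Finset.add_sum_erase Finset.univ _ (Finset.mem_univ (0 : k)), h3,
    Finset.sum_congr rfl (fun u hu => h2 u (Finset.ne_of_mem_erase hu)), ← Finset.sum_add_distrib,
    Finset.sum_const, nsmul_eq_mul] at h1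
  have hc : ((Finset.univ.erase (0 : k)).card : ℤ) ≠ 0 := by
    rw [Finset.card_erase_of_mem (Finset.mem_univ _), Finset.card_univ]
    have : 1 < Fintype.card k := Fintype.one_lt_card
    omega
  have h4 := (mul_eq_zero.1 h1).resolve_left hc
  linarith

end Ctx

end Pool.Agent.Helper52.Hemi
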