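import Mathlib
import Pool.Agent.Helper52.Hemi.Phi

/-!
# The sums `S(x)` and `T(x)`
-/

set_option autoImplicit false
set_option linter.unusedSectionVars false

open Classical

namespace Pool.Agent.Helper52.Hemi

variable {k F K : Type} [Field k] [Fintype k] [Field F] [Fintype F] [Field K] [Fintype K]
  [Algebra k F] [Algebra F K] [Algebra k K] [IsScalarTower k F K]

/-- `x` is special: `x = λ s` with `λ ∈ F^*`, `s ∈ C`. -/
def Spec (k F : Type) {K : Type} [Field k] [Fintype k] [Field F] [Fintype F] [Field K] [Fintype K]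
    [Algebra k F] [Algebra F K] [Algebra k K] (x : K) : Prop :=
  ∃ (l : F) (s : K), l ≠ 0 ∧ s ∈ CC k K ∧ x = algebraMap F K l * s

/-- `T(x)`: the number of `s ∈ C` with `Tr_{K/k}(x s^τ) = 0`. -/
noncomputable def TT (k F : Type) {K : Type} [Field k] [Fintype k] [Field F] [Fintype F] [Field K]
    [Fintype K] [Algebra k F] [Algebra F K] [Algebra k K] (x : K) : ℕ :=
  ((CC k K).filter (fun s => hh k F K x s + cj k F (hh k F K x s) = 0)).card

namespace Ctx

variable (c : Ctx k F K)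

/-- `S(x) = ∑_{s ∈ C} φ(h(x,s))`. -/
noncomputable def SS (x : K) : ℤ := ∑ s ∈ CC k K, c.ph (hh k F K x s)

theorem SS_CC {t : K} (ht : t ∈ CC k K) (x : K) : c.SS (t * x) = c.SS x := by
  rw [SS, SS, ← c.sum_CC_mul ht]
  apply Finset.sum_congr rfl
  intro s _
  rw [c.hh_CC ht]

include c in
theorem TT_CC {t : K} (ht : t ∈ CC k K) (x : K) : TT k F (t * x) = TT k F x := by
  rw [TT, TT, Finset.card_filter, Finset.card_filter, ← c.sum_CC_mul ht]
  apply Finset.sum_congr rfl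
  intro s _
  rw [c.hh_CC ht]

/-- `h(x, s)` for `s = sp b` in coordinates. -/
theorem hh_sp {b : F} (hb : cj k F b = -b) (X0 x1 x2 : F) :
    c.DD b * hh k F K (c.vec X0 x1 x2) (c.sp b) =
      - (X0 * (b ^ 3 - b ^ 2) + x1 * (algebraMap k F c.a * b) +
        x2 * ((algebraMap k F c.a) ^ 2 + b ^ 5 - b ^ 6)) := by
  rw [← c.cj_DD hb, ← c.hh_smul_right, c.sp_explicit, c.hh_vec]
  simp only [map_sub, map_neg, map_add, map_mul, map_pow, cj_algebraMap, hb]
  ring

theorem one_eq_vec : (1 : K) = c.vec 1 0 0 := by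
  rw [vec, map_one, map_zero]
  ring

theorem hh_vec_one (X0 x1 x2 : F) : hh k F K (c.vec X0 x1 x2) 1 = - x2 := by
  have h := c.hh_vec X0 x1 x2 1 0 0
  rw [← c.one_eq_vec, map_zero, map_one] at h
  rw [h]
  ring

include c in
theorem hh_one_one : hh k F K (1 : K) 1 = 0 := by
  have h := c.hh_vec_one 1 0 0
  rw [← c.one_eq_vec] at h
  rw [h, neg_zero]

include c in
theorem exists_k_b2 {b : F} (hb : cj k F b = -b) (hb0 : b ≠ 0) :
    ∃ u : k, u ≠ 0 ∧ algebraMap k F u = b ^ 2 := by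
  obtain ⟨u, hu⟩ := c.exists_k (x := b ^ 2) (by rw [map_pow, hb]; ring)
  refine ⟨u, ?_, hu⟩
  rintro rfl
  rw [map_zero] at hu
  exact hb0 (by simpa using hu.symm)

theorem exists_k_DD {b : F} (hb : cj k F b = -b) :
    ∃ u : k, u ≠ 0 ∧ algebraMap k F u = c.DD b := by
  obtain ⟨u, hu⟩ := c.exists_k (c.cj_DD hb)
  refine ⟨u, ?_, hu⟩
  rintro rfl
  rw [map_zero] at hu
  exact c.DD_ne_zero hb hu.symm

/-- `φ(h(x, sp b))` up to the factor `DD b ∈ k^*`. -/
theorem ph_hh_sp {b : F} (hb : cj k F b = -b) (X0 x1 x2 l : F) :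
    c.ph (l * hh k F K (c.vec X0 x1 x2) (c.sp b)) =
      c.ph (l * (X0 * (b ^ 3 - b ^ 2) + x1 * (algebraMap k F c.a * b) +
        x2 * ((algebraMap k F c.a) ^ 2 + b ^ 5 - b ^ 6))) := by
  obtain ⟨u, hu0, hu⟩ := c.exists_k_DD hb
  have h := c.hh_sp hb X0 x1 x2
  rw [← c.ph_k (neg_ne_zero.2 hu0) (l * hh k F K (c.vec X0 x1 x2) (c.sp b)), map_neg, hu]
  congr 1
  linear_combination (-l) * h

/-- Half line sums. -/
theorem sum_half (A : F) :
    ∑ y ∈ Finset.univ.erase (0 : k), c.ph ((1 + algebraMap k F y * c.δ) * A) = 0 := by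
  have h := c.sum_line A
  rw [← Finset.add_sum_erase Finset.univ _ (Finset.mem_univ (0 : k)), map_zero, zero_mul,
    add_zero, one_mul, c.ph_δ] at h
  linarith

theorem sum_half' (A : F) :
    ∑ y ∈ Finset.univ.erase (0 : k), c.ph ((1 - algebraMap k F y * c.δ) * A) = 0 := by
  rw [← c.sum_half A]
  apply Finset.sum_bij (fun y _ => -y)
  · intro y hy
    rw [Finset.mem_erase] at *
    exact ⟨neg_ne_zero.2 hy.1, Finset.mem_univ _⟩
  · intro y _ y' _ h
    exact neg_injective h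
  · intro y hy
    rw [Finset.mem_erase] at hy
    exact ⟨-y, Finset.mem_erase.2 ⟨neg_ne_zero.2 hy.1, Finset.mem_univ _⟩, neg_neg y⟩
  · intro y _
    rw [map_neg]
    congr 1
    ring

/-- `S` vanishes at `λ · 1`. -/
theorem SS_F (l : F) : c.SS (algebraMap F K l) = 0 := by
  have h0 : ∀ s : K, hh k F K (algebraMap F K l) s = l * hh k F K 1 s := by
    intro s
    rw [← hh_smul_left, mul_one]
  rw [SS]
  simp only [h0]
  rw [c.sum_CC, c.hh_one_one, mul_zero, c.ph_zero, zero_add]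
  apply Finset.sum_eq_zero
  intro σ _
  rw [← c.sum_half' l]
  apply Finset.sum_congr rfl
  intro y hy
  have hb := (c.shift σ).cj_yδ y
  have h1 := (c.shift σ).ph_hh_sp hb 1 0 0 l
  rw [← (c.shift σ).one_eq_vec] at h1
  have hb0 : algebraMap k F y * c.δ ≠ 0 := c.yδ_ne (Finset.ne_of_mem_erase hy)
  obtain ⟨u, hu0, hu⟩ := c.exists_k_b2 (c.cj_yδ y) hb0
  refine (show _ = _ from h1).trans ?_
  rw [c.shift_δ]
  change c.ph _ = c.ph _
  rw [← c.ph_k (neg_ne_zero.2 hu0) ((1 - algebraMap k F y * c.δ) * l), map_neg, hu]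
  congr 1
  ring

/-- `S` vanishes at special points. -/
theorem SS_spec {x : K} (hx : Spec k F x) : c.SS x = 0 := by
  obtain ⟨l, s, _, hs, rfl⟩ := hx
  rw [mul_comm, c.SS_CC hs, c.SS_F]

include c in
/-- Witt index one: an isotropic vector orthogonal to `s ∈ C` is a multiple of `s`. -/
theorem witt {x s : K} (hx : hh k F K x x = 0) (hs : s ∈ CC k K) (h : hh k F K x s = 0) :
    ∃ l : F, x = algebraMap F K l * s := by
  have hs' := c.CC_inv hs
  have h1 : hh k F K (s⁻¹ * x) 1 = 0 := by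
    rw [← c.hh_CC hs, mul_inv_cancel_left₀ (c.CC_ne_zero hs), mul_one, h]
  have h2 : hh k F K (s⁻¹ * x) (s⁻¹ * x) = 0 := by rw [c.hh_CC hs', hx]
  obtain ⟨X0, x1, x2, hX⟩ := c.vec_surjective (s⁻¹ * x)
  rw [hX, c.hh_vec_one, neg_eq_zero] at h1
  rw [hX, c.hh_vec, h1, map_zero, mul_zero, zero_mul, zero_add, add_zero, neg_eq_zero] at h2
  have hx1 : x1 = 0 := by
    rcases mul_eq_zero.1 h2 with h3 | h3
    · exact h3
    · exact (map_eq_zero _).1 h3
  refine ⟨X0, ?_⟩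
  rw [← mul_inv_cancel_left₀ (c.CC_ne_zero hs) x, hX, h1, hx1, vec, map_zero]
  ring

end Ctx

end Pool.Agent.Helper52.Hemi
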