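import Mathlib
import Pool.Agent.Helper52.Hemi.Sums

/-!
# Goals of the geometric packets (MP_7aba51_co, characteristic 3)
-/

set_option autoImplicit false

open Classical

namespace Pool.Agent.Helper52.Hemi

/-- Packet H5: the formula for `T(X)` if `T(X) > 0`. -/
def GoalT : Prop :=
  ∀ (k F K : Type) [Field k] [Fintype k] [Field F] [Fintype F] [Field K] [Fintype K]
    [Algebra k F] [Algebra F K] [Algebra k K] [IsScalarTower k F K] (c : Ctx k F K) (X : K)
    (β : k), hh k F K X X = 0 → β ≠ 0 →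
    fr k K (X * tau k K X) = X * tau k K X + algebraMap k K β → 0 < TT k F X →
    (TT k F X : ℤ) = Fintype.card k + 1 - WW k F c.δ β (Algebra.norm F X) 1

/-- Packet H6: line sums of `S`. -/
def GoalLine : Prop :=
  ∀ (k F K : Type) [Field k] [Fintype k] [Field F] [Fintype F] [Field K] [Fintype K]
    [Algebra k F] [Algebra F K] [Algebra k K] [IsScalarTower k F K] (c : Ctx k F K)
    (L : Finset K), (0 : K) ∈ L → (∀ x ∈ L, ∀ y ∈ L, x + y ∈ L) →
    (∀ u : k, ∀ x ∈ L, algebraMap k K u * x ∈ L) → L.card = Fintype.card k ^ 2 →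
    (∀ x ∈ L, hh k F K x x = 0) →
    ∑ x ∈ L, c.SS x = - (Fintype.card k : ℤ) *
      ∑ x ∈ L.erase 0, if Spec k F x then c.ph (Algebra.norm F x) else 0

/-- Packet H7: the second moment of `S`. -/
def GoalMoment : Prop :=
  ∀ (k F K : Type) [Field k] [Fintype k] [Field F] [Fintype F] [Field K] [Fintype K]
    [Algebra k F] [Algebra F K] [Algebra k K] [IsScalarTower k F K] (c : Ctx k F K),
    ∑ x ∈ Finset.univ.filter (fun x : K => hh k F K x x = 0), (c.SS x) ^ 2 =
      ((Fintype.card k : ℤ) ^ 2 - Fintype.card k + 1) * ((Fintype.card k : ℤ) ^ 2 - 1) *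
        (Fintype.card k : ℤ) ^ 3

/-- Packet H8: existence of the tower, for every field `F` of order `q^2`, `q = 9^m`. -/
def GoalExists : Prop :=
  ∀ (F : Type) [Field F] [Fintype F] (q : ℕ), Fintype.card F = q ^ 2 → q % 4 = 1 → q % 3 = 0 →
    ∃ (k K : Type) (_ : Field k) (_ : Fintype k) (_ : Field K) (_ : Fintype K)
      (_ : Algebra k F) (_ : Algebra F K) (_ : Algebra k K) (_ : IsScalarTower k F K),
      Fintype.card k = q ∧ Nonempty (Ctx k F K)

/-- Packet H9: an orthonormal triple and a generator of `C`. -/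
def GoalOrtho : Prop :=
  ∀ (k F K : Type) [Field k] [Fintype k] [Field F] [Fintype F] [Field K] [Fintype K]
    [Algebra k F] [Algebra F K] [Algebra k K] [IsScalarTower k F K], Ctx k F K →
    (∃ ε : Fin 3 → K, ∀ i j, Algebra.trace F K (ε i * tau k K (ε j)) = if i = j then 1 else 0) ∧
    ∃ ζ : K, ζ ^ (Fintype.card k ^ 2 - Fintype.card k + 1) = 1 ∧
      ∀ n : ℕ, 0 < n → n < Fintype.card k ^ 2 - Fintype.card k + 1 → ζ ^ n ≠ 1

end Pool.Agent.Helper52.Hemi
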