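import Mathlib
import Pool.Agent.Helper52.Hemi.Goals2

/-!
# Assembly: `S(x) = ± q` for nonspecial isotropic `x`
-/

set_option autoImplicit false
set_option linter.unusedSectionVars false

open Classical

namespace Pool.Agent.Helper52.Hemi

variable {k F K : Type} [Field k] [Fintype k] [Field F] [Fintype F] [Field K] [Fintype K]
  [Algebra k F] [Algebra F K] [Algebra k K] [IsScalarTower k F K]

namespace Ctx

variable (c : Ctx k F K)

include c in
/-- Elements of `K` fixed by `fr` lie in `k`. -/
theorem exists_k' {x : K} (hx : fr k K x = x) : ∃ u : k, x = algebraMap k K u := by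
  obtain ⟨X0, x1, x2, hX⟩ := c.vec_surjective x
  have h2 : fr k K (fr k K x) = x := by rw [hx, hx]
  have h4 : fr k K (fr k K (fr k K (fr k K x))) = x := by rw [h2, h2]
  have hx2 : x2 = 0 := by
    have h := c.trace_vec X0 x1 x2
    have h5 : Algebra.trace F K x = 0 := by
      apply (algebraMap F K).injective
      rw [c.trace_formula, h4, h2, map_zero]
      linear_combination x * c.three_K
    rw [← hX, h5] at h
    exact neg_eq_zero.1 h.symm
  have hx1 : x1 = 0 := by
    rw [hX, c.fr2_vec, vec, hx2, map_zero, zero_mul, zero_mul] at h2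
    have h6 : algebraMap F K x1 = 0 := by linear_combination -h2
    exact (map_eq_zero _).1 h6
  have hxF : x = algebraMap F K X0 := by
    rw [hX, vec, hx1, hx2, map_zero]
    ring
  obtain ⟨u, hu⟩ := c.exists_k (x := X0) (by
    apply (algebraMap F K).injective
    rw [← fr_F, ← hxF, hx])
  exact ⟨u, by rw [hxF, ← hu, ← IsScalarTower.algebraMap_apply]⟩

include c in
/-- The invariant `β`. -/
theorem exists_beta {X : K} (hX : hh k F K X X = 0) :
    ∃ β : k, fr k K (X * tau k K X) = X * tau k K X + algebraMap k K β := by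
  set y := X * tau k K X with hy
  have hty : tau k K y = y := by
    rw [hy, map_mul, c.tau_tau, mul_comm]
  have htr : y + fr k K (fr k K y) + fr k K y = 0 := by
    have h1 : algebraMap F K (Algebra.trace F K y) = 0 := by
      have : Algebra.trace F K y = 0 := hX
      rw [this, map_zero]
    rw [c.trace_formula] at h1
    have h2 : fr k K (fr k K (fr k K y)) = y := by
      rw [← tau_eq, hty]
    rw [h2] at h1
    exact h1
  have h3 : fr k K (fr k K y - y) = fr k K y - y := by
    rw [map_sub]
    linear_combination htr - fr k K y * c.three_K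
  obtain ⟨β, hβ⟩ := c.exists_k' h3
  exact ⟨β, by rw [← hβ]; ring⟩

include c in
/-- The norm of `X` in terms of `y = X X^τ`. -/
theorem norm_norm (X : K) : algebraMap k K (Algebra.norm k (Algebra.norm F X)) =
    (X * tau k K X) * fr k K (X * tau k K X) * fr k K (fr k K (X * tau k K X)) := by
  rw [IsScalarTower.algebraMap_apply k F K, c.normF_formula, map_mul, ← fr_F, c.norm_formula]
  simp only [map_mul, tau_eq]
  ring

include c in
theorem norm_ne {X : K} {β : k} (hβ0 : β ≠ 0)
    (hβ : fr k K (X * tau k K X) = X * tau k K X + algebraMap k K β) (v : k) :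
    Algebra.norm k (Algebra.norm F X) ≠ β ^ 3 * (v ^ 3 - v) := by
  intro h
  have h1 := c.norm_norm X
  rw [h] at h1
  set y := X * tau k K X with hy
  have h2 : fr k K (fr k K y) = y - algebraMap k K β := by
    rw [hβ, map_add, hβ, fr_algebraMap]
    linear_combination algebraMap k K β * c.three_K
  rw [h2, hβ] at h1
  simp only [map_mul, map_sub, map_pow] at h1
  set B := algebraMap k K β with hB
  have hB0 : B ≠ 0 := (map_ne_zero _).2 hβ0
  have h3 : (y - B * algebraMap k K v) * (y - B * algebraMap k K v - B) *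
      (y - B * algebraMap k K v + B) = 0 := by
    linear_combination - h1 + (- y ^ 2 * B * algebraMap k K v +
      y * B ^ 2 * (algebraMap k K v) ^ 2) * c.three_K
  have key : ∀ w : k, y ≠ algebraMap k K w := by
    intro w hw
    rw [hw, fr_algebraMap] at hβ
    exact hB0 (by linear_combination -hβ)
  rcases mul_eq_zero.1 h3 with h5 | h5
  · rcases mul_eq_zero.1 h5 with h6 | h6
    · exact key (β * v) (by rw [map_mul]; linear_combination h6)
    · exact key (β * v + β) (by rw [map_add, map_mul]; linear_combination h6)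
  · exact key (β * v - β) (by rw [map_sub, map_mul]; linear_combination h5)

include c in
theorem cube_bij_F : Function.Bijective (fun x : F => x ^ 3) := by
  apply Finite.injective_iff_bijective.1
  intro x y h
  simp only at h
  have h1 : (x - y) ^ 3 = 0 := by
    linear_combination h + (- x ^ 2 * y + x * y ^ 2) * c.three_F
  exact sub_eq_zero.1 (pow_eq_zero_iff (by norm_num) |>.1 h1)

include c in
theorem cube_inj_k {x y : k} (h : x ^ 3 = y ^ 3) : x = y := by
  have h1 : (x - y) ^ 3 = 0 := by
    linear_combination h + (- x ^ 2 * y + x * y ^ 2) * c.char3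
  exact sub_eq_zero.1 (pow_eq_zero_iff (by norm_num) |>.1 h1)

include c in
/-- If `β = 0` then `X` is special. -/
theorem spec_of_beta {X : K} (hX0 : X ≠ 0) (hβ : fr k K (X * tau k K X) = X * tau k K X) :
    Spec k F X := by
  obtain ⟨y, hy⟩ := c.exists_k' hβ
  obtain ⟨l, hl⟩ := c.cube_bij_F.2 (Algebra.norm F X)
  simp only at hl
  have hN0 : Algebra.norm F X ≠ 0 := Algebra.norm_ne_zero_iff.2 hX0
  have hl0 : l ≠ 0 := by
    rintro rfl
    rw [zero_pow (by norm_num)] at hl
    exact hN0 hl.symm
  have hlK : algebraMap F K l ≠ 0 := (map_ne_zero _).2 hl0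
  refine ⟨l, (algebraMap F K l)⁻¹ * X, hl0, ?_, by rw [mul_inv_cancel_left₀ hlK]⟩
  have hnn := c.norm_norm X
  rw [hβ, hβ, hy] at hnn
  have h1 : algebraMap k K (Algebra.norm k l) = algebraMap k K y := by
    have h2 : (Algebra.norm k l) ^ 3 = y ^ 3 := by
      rw [← map_pow, hl]
      apply (algebraMap k K).injective
      rw [hnn, map_pow]
      ring
    rw [c.cube_inj_k h2]
  rw [c.mem_CC_iff]
  constructor
  · rw [map_mul, map_inv₀, c.tau_F]
    have h3 : algebraMap F K l * algebraMap F K (cj k F l) = algebraMap k K y := by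
      rw [← map_mul, ← c.normF_formula, ← IsScalarTower.algebraMap_apply, h1]
    have h4 : algebraMap F K (cj k F l) ≠ 0 := (map_ne_zero _).2 ((map_ne_zero _).2 hl0)
    rw [mul_mul_mul_comm, hy, ← mul_inv, h3, inv_mul_cancel₀]
    rw [← h3]
    exact mul_ne_zero hlK h4
  · have h5 : Algebra.norm F ((algebraMap F K l)⁻¹ * X) = 1 := by
      rw [map_mul, ← map_inv₀, Algebra.norm_algebraMap, c.finK, ← hl, inv_pow,
        inv_mul_cancel₀ (pow_ne_zero 3 hl0)]
    rw [← c.norm_formula, h5, map_one]

include c in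
/-- For `t ≠ 0`, the `λ ∈ F^*` with `λ t ∈ δ k`. -/
theorem ker_image {t : F} (ht : t ≠ 0) :
    (Finset.univ.erase (0 : F)).filter (fun l => l * t + cj k F (l * t) = 0) =
      (Finset.univ.erase (0 : k)).image (fun u => algebraMap k F u * (c.δ / t)) := by
  ext l
  rw [Finset.mem_filter, Finset.mem_image, Finset.mem_erase]
  constructor
  · rintro ⟨⟨hl, _⟩, h⟩
    obtain ⟨u, hu⟩ := c.exists_δ (x := l * t) (by linear_combination h)
    refine ⟨u, ?_, ?_⟩
    · rw [Finset.mem_erase]
      refine ⟨?_, Finset.mem_univ _⟩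
      rintro rfl
      rw [map_zero, zero_mul] at hu
      exact mul_ne_zero hl ht hu
    · rw [← mul_div_assoc, ← hu, mul_div_cancel_right₀ _ ht]
  · rintro ⟨u, hu, rfl⟩
    rw [Finset.mem_erase] at hu
    refine ⟨⟨mul_ne_zero ((map_ne_zero _).2 hu.1) (div_ne_zero c.hδ0 ht), Finset.mem_univ _⟩, ?_⟩
    rw [mul_assoc, div_mul_cancel₀ _ ht, map_mul, cj_algebraMap, c.cj_δ]
    ring

theorem ker_inj {t : F} (ht : t ≠ 0) :
    Function.Injective (fun u : k => algebraMap k F u * (c.δ / t)) := by
  intro u v h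
  exact (algebraMap k F).injective (mul_right_cancel₀ (div_ne_zero c.hδ0 ht) h)

include c in
theorem card_ker {t : F} (ht : t ≠ 0) :
    ((Finset.univ.erase (0 : F)).filter (fun l => l * t + cj k F (l * t) = 0)).card =
      Fintype.card k - 1 := by
  rw [c.ker_image ht, Finset.card_image_of_injective _ (c.ker_inj ht),
    Finset.card_erase_of_mem (Finset.mem_univ _), Finset.card_univ]

theorem ph_inv {t : F} (ht : t ≠ 0) : c.ph (1 / t) = c.ph t := by
  have hn : Algebra.norm k t ≠ 0 := Algebra.norm_ne_zero_iff.2 ht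
  have h1 : algebraMap k F (Algebra.norm k t) * (1 / t) = cj k F t := by
    rw [c.normF_formula]
    field_simp
  rw [← c.ph_k hn, h1, c.ph_cj]

theorem sum_ker {t : F} (ht : t ≠ 0) :
    ∑ l ∈ (Finset.univ.erase (0 : F)).filter (fun l => l * t + cj k F (l * t) = 0), c.ph l =
      - ((Fintype.card k : ℤ) - 1) * c.ph t := by
  rw [c.ker_image ht, Finset.sum_image (fun u _ v _ h => c.ker_inj ht h)]
  have h1 : ∀ u ∈ Finset.univ.erase (0 : k), c.ph (algebraMap k F u * (c.δ / t)) = - c.ph t := by
    intro u hu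
    rw [c.ph_k (Finset.ne_of_mem_erase hu), div_eq_mul_one_div, c.ph_δ, c.ph_inv ht]
  rw [Finset.sum_congr rfl h1, Finset.sum_const, Finset.card_erase_of_mem (Finset.mem_univ _),
    Finset.card_univ, nsmul_eq_mul, Nat.cast_sub Fintype.card_pos]
  push_cast
  ring

include c in
/-- `h(X,s) ≠ 0` for nonspecial isotropic `X`. -/
theorem hh_ne {X : K} (hX0 : X ≠ 0) (hX : hh k F K X X = 0) (hns : ¬ Spec k F X) {s : K}
    (hs : s ∈ CC k K) : hh k F K X s ≠ 0 := by
  intro h
  obtain ⟨l, hl⟩ := c.witt hX hs h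
  apply hns
  refine ⟨l, s, ?_, hs, hl⟩
  rintro rfl
  rw [map_zero, zero_mul] at hl
  exact hX0 hl

include c in
theorem sum_TT {X : K} (hX0 : X ≠ 0) (hX : hh k F K X X = 0) (hns : ¬ Spec k F X) :
    ∑ l ∈ Finset.univ.erase (0 : F), (TT k F (algebraMap F K l * X) : ℤ) =
      ((Fintype.card k : ℤ) - 1) * ((Fintype.card k : ℤ) ^ 2 - Fintype.card k + 1) := by
  have h1 : ∀ l : F, (TT k F (algebraMap F K l * X) : ℤ) = ∑ s ∈ CC k K,
      if l * hh k F K X s + cj k F (l * hh k F K X s) = 0 then (1 : ℤ) else 0 := by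
    intro l
    rw [TT, Finset.card_filter]
    push_cast
    apply Finset.sum_congr rfl
    intro s _
    rw [hh_smul_left]
  simp only [h1]
  rw [Finset.sum_comm]
  have h2 : ∀ s ∈ CC k K, ∑ l ∈ Finset.univ.erase (0 : F),
      (if l * hh k F K X s + cj k F (l * hh k F K X s) = 0 then (1 : ℤ) else 0) =
      (Fintype.card k : ℤ) - 1 := by
    intro s hs
    rw [Finset.sum_boole, c.card_ker (c.hh_ne hX0 hX hns hs), Nat.cast_sub Fintype.card_pos]
    push_cast
    ring
  rw [Finset.sum_congr rfl h2, Finset.sum_const, c.card_CC, nsmul_eq_mul]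
  have hle : Fintype.card k ≤ Fintype.card k ^ 2 := Nat.le_self_pow (by norm_num) _
  push_cast [Nat.cast_sub hle]
  ring

theorem sum_ph_TT {X : K} (hX0 : X ≠ 0) (hX : hh k F K X X = 0) (hns : ¬ Spec k F X) :
    ∑ l ∈ Finset.univ.erase (0 : F), c.ph l * (TT k F (algebraMap F K l * X) : ℤ) =
      - (((Fintype.card k : ℤ) - 1) * c.SS X) := by
  have h1 : ∀ l : F, c.ph l * (TT k F (algebraMap F K l * X) : ℤ) = ∑ s ∈ CC k K,
      if l * hh k F K X s + cj k F (l * hh k F K X s) = 0 then c.ph l else 0 := by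
    intro l
    rw [TT, Finset.card_filter]
    push_cast
    rw [Finset.mul_sum]
    apply Finset.sum_congr rfl
    intro s _
    rw [hh_smul_left]
    split_ifs <;> simp
  simp only [h1]
  rw [Finset.sum_comm]
  have h2 : ∀ s ∈ CC k K, ∑ l ∈ Finset.univ.erase (0 : F),
      (if l * hh k F K X s + cj k F (l * hh k F K X s) = 0 then c.ph l else 0) =
      - ((Fintype.card k : ℤ) - 1) * c.ph (hh k F K X s) := by
    intro s hs
    rw [← Finset.sum_filter, c.sum_ker (c.hh_ne hX0 hX hns hs)]
  rw [Finset.sum_congr rfl h2, ← Finset.mul_sum, SS]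
  ring

/-- `WW ≤ q`. -/
theorem WW_le (β : k) (ν l : F) : WW k F c.δ β ν l ≤ Fintype.card k := by
  rw [WW]
  calc _ ≤ ∑ _v : k, (1 : ℤ) := by
        apply Finset.sum_le_sum
        intro v _
        rcases eq_or_ne (v ^ 3 - (Algebra.norm k l * β / Algebra.norm k c.δ) ^ 2 * v +
          (Algebra.trace k F (l ^ 3 * ν / c.δ ^ 3)) ^ 2) 0 with h | h
        · rw [h, quadraticChar_zero]
          norm_num
        · rcases quadraticChar_dichotomy h with h1 | h1
          · rw [h1]
          · rw [h1]
            norm_num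
    _ = _ := by simp

theorem TT_eq (HT : GoalT) (HW : GoalW) {X : K} (hX0 : X ≠ 0) (hX : hh k F K X X = 0)
    (hns : ¬ Spec k F X) {β : k} (hβ0 : β ≠ 0)
    (hβ : fr k K (X * tau k K X) = X * tau k K X + algebraMap k K β) :
    ∀ l ∈ Finset.univ.erase (0 : F), (TT k F (algebraMap F K l * X) : ℤ) =
      Fintype.card k + 1 - WW k F c.δ β (Algebra.norm F X) l := by
  have hle : ∀ l ∈ Finset.univ.erase (0 : F), (TT k F (algebraMap F K l * X) : ℤ) ≤
      Fintype.card k + 1 - WW k F c.δ β (Algebra.norm F X) l := by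
    intro l hl
    rw [Finset.mem_erase] at hl
    rcases Nat.eq_zero_or_pos (TT k F (algebraMap F K l * X)) with h0 | h0
    · rw [h0]
      have := c.WW_le β (Algebra.norm F X) l
      push_cast
      linarith
    · have hn : Algebra.norm k l ≠ 0 := Algebra.norm_ne_zero_iff.2 hl.1
      have h1 : hh k F K (algebraMap F K l * X) (algebraMap F K l * X) = 0 := by
        rw [hh_smul_left, c.hh_smul_right, hX, mul_zero, mul_zero]
      have h2 : (algebraMap F K l * X) * tau k K (algebraMap F K l * X) =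
          algebraMap k K (Algebra.norm k l) * (X * tau k K X) := by
        rw [map_mul, c.tau_F, IsScalarTower.algebraMap_apply k F K, c.normF_formula, map_mul]
        ring
      have h3 : fr k K ((algebraMap F K l * X) * tau k K (algebraMap F K l * X)) =
          (algebraMap F K l * X) * tau k K (algebraMap F K l * X) +
            algebraMap k K (Algebra.norm k l * β) := by
        rw [h2, map_mul (fr k K), fr_algebraMap, hβ, map_mul]
        ring
      have h4 := HT k F K c (algebraMap F K l * X) (Algebra.norm k l * β) h1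
        (mul_ne_zero hn hβ0) h3 h0
      rw [h4]
      apply le_of_eq
      congr 1
      rw [WW, WW]
      apply Finset.sum_congr rfl
      intro v _
      rw [map_mul, Algebra.norm_algebraMap, c.finK, map_one, one_mul, one_pow, one_mul]
  have hsum : ∑ l ∈ Finset.univ.erase (0 : F), (TT k F (algebraMap F K l * X) : ℤ) =
      ∑ l ∈ Finset.univ.erase (0 : F),
        (Fintype.card k + 1 - WW k F c.δ β (Algebra.norm F X) l) := by
    rw [c.sum_TT hX0 hX hns, Finset.sum_sub_distrib,
      (HW k F c.char3 c.finF c.i c.hi c.δ c.hδ0 c.hδ β hβ0 (Algebra.norm F X)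
        (c.norm_ne hβ0 hβ)).1, Finset.sum_const, Finset.card_erase_of_mem (Finset.mem_univ _),
      Finset.card_univ, c.card_F, nsmul_eq_mul,
      Nat.cast_sub (Nat.one_le_pow _ _ Fintype.card_pos)]
    push_cast
    ring
  exact (Finset.sum_eq_sum_iff_of_le hle).1 hsum

/-- `q ∣ S(X)`. -/
theorem SS_dvd (HT : GoalT) (HW : GoalW) {X : K} (hX0 : X ≠ 0) (hX : hh k F K X X = 0)
    (hns : ¬ Spec k F X) : ∃ m : ℤ, c.SS X = Fintype.card k * m := by
  obtain ⟨β, hβ⟩ := c.exists_beta hX
  have hβ0 : β ≠ 0 := by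
    rintro rfl
    rw [map_zero, add_zero] at hβ
    exact hns (c.spec_of_beta hX0 hβ)
  have h1 := c.TT_eq HT HW hX0 hX hns hβ0 hβ
  have h2 := c.sum_ph_TT hX0 hX hns
  obtain ⟨m, hm⟩ := (HW k F c.char3 c.finF c.i c.hi c.δ c.hδ0 c.hδ β hβ0 (Algebra.norm F X)
        (c.norm_ne hβ0 hβ)).2
  have h3 : ∑ l ∈ Finset.univ.erase (0 : F), c.ph l = 0 := by
    have := c.sum_ph
    rw [← Finset.add_sum_erase Finset.univ _ (Finset.mem_univ (0 : F)), c.ph_zero,
      zero_add] at this
    exact this
  have h4 : ∑ l ∈ Finset.univ.erase (0 : F), c.ph l * (TT k F (algebraMap F K l * X) : ℤ) =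
      - ((Fintype.card k - 1) * (Fintype.card k * m)) := by
    rw [← hm, ← Finset.sum_neg_distrib]
    have h5 : ∑ l ∈ Finset.univ.erase (0 : F), c.ph l * ((Fintype.card k : ℤ) + 1) = 0 := by
      rw [← Finset.sum_mul, h3, zero_mul]
    rw [← add_zero (∑ l ∈ Finset.univ.erase (0 : F),
      -(phi k F c.i l * WW k F c.δ β ((Algebra.norm F) X) l)), ← h5, ← Finset.sum_add_distrib]
    apply Finset.sum_congr rfl
    intro l hl
    rw [h1 l hl]
    change c.ph l * _ = -(c.ph l * _) + _
    ring
  rw [h2] at h4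
  refine ⟨m, ?_⟩
  have hq1 : (Fintype.card k : ℤ) - 1 ≠ 0 := by
    have : 1 < Fintype.card k := Fintype.one_lt_card
    omega
  exact mul_left_cancel₀ hq1 (neg_injective h4)

/-- `S(X)` is odd. -/
theorem SS_odd {X : K} (hX0 : X ≠ 0) (hX : hh k F K X X = 0)
    (hns : ¬ Spec k F X) : Odd (c.SS X) := by
  have h1 : ∀ s ∈ CC k K, ((c.ph (hh k F K X s) : ℤ) : ZMod 2) = 1 := by
    intro s hs
    rcases c.ph_cases (c.hh_ne hX0 hX hns hs) with h | h <;> rw [h] <;> decide
  have h2 : ((c.SS X : ℤ) : ZMod 2) = 1 := by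
    rw [SS, Int.cast_sum, Finset.sum_congr rfl h1, Finset.sum_const, c.card_CC, nsmul_eq_mul,
      mul_one]
    have h3 : Odd (Fintype.card k ^ 2 - Fintype.card k + 1) := by
      have hle : Fintype.card k ≤ Fintype.card k ^ 2 := Nat.le_self_pow (by norm_num) _
      have hodd := c.q_odd
      have h4 : Even (Fintype.card k ^ 2 - Fintype.card k) := by
        rw [Nat.even_sub hle]
        constructor
        · intro h
          exact absurd h (Nat.not_even_iff_odd.2 hodd.pow)
        · intro h
          exact absurd h (Nat.not_even_iff_odd.2 hodd)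
      exact h4.add_one
    exact (ZMod.natCast_eq_one_iff_odd).2 h3
  exact (ZMod.intCast_eq_one_iff_odd).1 h2

/-- `S(X)^2 ≥ q^2`. -/
theorem SS_sq_ge (HT : GoalT) (HW : GoalW) {X : K} (hX0 : X ≠ 0) (hX : hh k F K X X = 0)
    (hns : ¬ Spec k F X) : (Fintype.card k : ℤ) ^ 2 ≤ (c.SS X) ^ 2 := by
  obtain ⟨m, hm⟩ := c.SS_dvd HT HW hX0 hX hns
  have hodd := c.SS_odd hX0 hX hns
  have hm0 : m ≠ 0 := by
    rintro rfl
    rw [hm, mul_zero] at hodd
    exact absurd hodd (by decide)
  have h1 : 1 ≤ m ^ 2 := by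
    have : 0 < m ^ 2 := by positivity
    omega
  rw [hm, mul_pow]
  nlinarith [sq_nonneg (Fintype.card k : ℤ)]

/-- Sum over `K` in coordinates. -/
theorem sum_K {M : Type} [AddCommMonoid M] (g : K → M) : ∑ x : K, g x =
    ∑ x2 : F, ∑ x1 : F, ∑ X0 : F, g (c.vec X0 x1 x2) := by
  rw [← Finset.sum_product', ← Finset.sum_product']
  symm
  have hbij : Function.Bijective (fun p : (F × F) × F => c.vec p.2 p.1.2 p.1.1) := by
    constructor
    · rintro ⟨⟨a, b⟩, d⟩ ⟨⟨a', b'⟩, d'⟩ h
      obtain ⟨h1, h2, h3⟩ := c.vec_injective h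
      simp only at h1 h2 h3
      rw [h1, h2, h3]
    · intro x
      obtain ⟨X0, x1, x2, h⟩ := c.vec_surjective x
      exact ⟨((x2, x1), X0), h.symm⟩
  exact Function.Bijective.sum_comp hbij g

include c in
/-- The number of `w ∈ F` with given trace. -/
theorem card_trace (u : k) :
    (Finset.univ.filter (fun w : F => w + cj k F w = algebraMap k F u)).card =
      Fintype.card k := by
  have h : Finset.univ.filter (fun w : F => w + cj k F w = algebraMap k F u) =
      Finset.univ.image (fun v : k => algebraMap k F (-u) + algebraMap k F v * c.δ) := by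
    ext w
    rw [Finset.mem_filter, Finset.mem_image]
    constructor
    · rintro ⟨_, h⟩
      obtain ⟨a, b, hab⟩ := c.decomp w
      refine ⟨b, Finset.mem_univ _, ?_⟩
      rw [hab] at h
      rw [map_add, map_mul, cj_algebraMap, cj_algebraMap, c.cj_δ] at h
      rw [hab, map_neg]
      linear_combination h - algebraMap k F a * c.three_F
    · rintro ⟨v, _, rfl⟩
      refine ⟨Finset.mem_univ _, ?_⟩
      rw [map_add, map_mul, cj_algebraMap, cj_algebraMap, c.cj_δ, map_neg]
      linear_combination (-algebraMap k F u) * c.three_F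
  rw [h, Finset.card_image_of_injective, Finset.card_univ]
  intro v v' h
  exact (algebraMap k F).injective (mul_right_cancel₀ c.hδ0 (add_left_cancel h))

include c in
theorem card_iso : ((Finset.univ.filter (fun x : K => hh k F K x x = 0)).card : ℤ) =
    ((Fintype.card k : ℤ) ^ 2 - 1) * (Fintype.card k : ℤ) ^ 3 + (Fintype.card k : ℤ) ^ 2 := by
  rw [Finset.card_filter]
  push_cast
  rw [c.sum_K, ← Finset.add_sum_erase Finset.univ _ (Finset.mem_univ (0 : F))]
  have h0 : ∑ x1 : F, ∑ X0 : F, (if hh k F K (c.vec X0 x1 0) (c.vec X0 x1 0) = 0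
      then (1 : ℤ) else 0) = (Fintype.card k : ℤ) ^ 2 := by
    rw [← Finset.add_sum_erase Finset.univ _ (Finset.mem_univ (0 : F))]
    have h1 : ∀ x1 ∈ Finset.univ.erase (0 : F), ∑ X0 : F,
        (if hh k F K (c.vec X0 x1 0) (c.vec X0 x1 0) = 0 then (1 : ℤ) else 0) = 0 := by
      intro x1 hx1
      apply Finset.sum_eq_zero
      intro X0 _
      rw [if_neg]
      rw [c.hh_vec, map_zero, mul_zero, zero_mul, zero_add, add_zero, neg_eq_zero]
      have := Finset.ne_of_mem_erase hx1
      exact mul_ne_zero this ((map_ne_zero _).2 this)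
    rw [Finset.sum_eq_zero h1, add_zero]
    have h2 : ∀ X0 : F, (if hh k F K (c.vec X0 0 0) (c.vec X0 0 0) = 0
        then (1 : ℤ) else 0) = 1 := by
      intro X0
      rw [if_pos]
      rw [c.hh_vec, map_zero]
      ring
    simp only [h2, Finset.sum_const, Finset.card_univ, c.card_F, nsmul_eq_mul, mul_one]
    push_cast
    ring
  rw [h0]
  have h1 : ∀ x2 ∈ Finset.univ.erase (0 : F), ∑ x1 : F, ∑ X0 : F,
      (if hh k F K (c.vec X0 x1 x2) (c.vec X0 x1 x2) = 0 then (1 : ℤ) else 0) =
      (Fintype.card k : ℤ) ^ 3 := by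
    intro x2 hx2
    have hx20 : x2 ≠ 0 := Finset.ne_of_mem_erase hx2
    have hcx : cj k F x2 ≠ 0 := (map_ne_zero _).2 hx20
    have h2 : ∀ x1 : F, ∑ X0 : F,
      (if hh k F K (c.vec X0 x1 x2) (c.vec X0 x1 x2) = 0 then (1 : ℤ) else 0) =
      Fintype.card k := by
      intro x1
      rw [← Function.Bijective.sum_comp (mulRight_bijective₀ x2 hx20)]
      obtain ⟨u, hu⟩ := c.exists_k (x := -((x1 / x2) * cj k F (x1 / x2)))
        (by rw [map_neg, map_mul, c.cj_cj, mul_comm])
      rw [← c.card_trace u, Finset.card_filter]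
      push_cast
      apply Finset.sum_congr rfl
      intro w _
      congr 1
      rw [c.hh_vec, hu, map_mul, map_div₀, eq_iff_iff]
      have e : -(w * x2 * cj k F x2 + x1 * cj k F x1 + x2 * (cj k F w * cj k F x2)) =
          - (x2 * cj k F x2) * ((w + cj k F w) - (-(x1 / x2 * (cj k F x1 / cj k F x2)))) := by
        field_simp
        ring
      rw [e, mul_eq_zero, sub_eq_zero]
      constructor
      · rintro (h | h)
        · exact absurd h (neg_ne_zero.2 (mul_ne_zero hx20 hcx))
        · exact h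
      · intro h
        exact Or.inr h
    simp only [h2, Finset.sum_const, Finset.card_univ, c.card_F, nsmul_eq_mul]
    push_cast
    ring
  rw [Finset.sum_congr rfl h1, Finset.sum_const, Finset.card_erase_of_mem (Finset.mem_univ _),
    Finset.card_univ, c.card_F, nsmul_eq_mul, Nat.cast_sub (Nat.one_le_pow _ _ Fintype.card_pos)]
  push_cast
  ring

end Ctx

end Pool.Agent.Helper52.Hemi
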