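import Mathlib
import Pool.Agent.Helper52.Hemi.Goals2

/-!
# An orthonormal triple and a generator of `C`
-/

set_option autoImplicit false
set_option linter.unusedSectionVars false

open Classical

namespace Pool.Agent.Helper52.Hemi

theorem goalOrtho : GoalOrtho := by
  intro k F K _ _ _ _ _ _ _ _ _ _ c
  constructor
  · have h3 := c.three_F
    refine ⟨![c.vec 2 0 (-1), c.vec 1 (-1) (-1), c.vec 1 1 (-1)], ?_⟩
    have key : ∀ X0 x1 x2 Y0 y1 y2 : F, Algebra.trace F K (c.vec X0 x1 x2 *
        tau k K (c.vec Y0 y1 y2)) = - (X0 * cj k F y2 + x1 * cj k F y1 + x2 * cj k F Y0) :=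
      fun X0 x1 x2 Y0 y1 y2 => c.hh_vec X0 x1 x2 Y0 y1 y2
    intro i j
    fin_cases i <;> fin_cases j <;>
      simp only [Fin.zero_eta, Fin.mk_one, Fin.reduceFinMk, Matrix.cons_val, key, map_neg, map_one,
        map_zero, map_ofNat]
    · rw [if_pos trivial]
      linear_combination h3
    · rw [if_neg (by decide)]
      linear_combination h3
    · rw [if_neg (by decide)]
      linear_combination h3
    · rw [if_neg (by decide)]
      linear_combination h3
    · rw [if_pos trivial]
      ring
    · rw [if_neg (by decide)]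
      linear_combination h3
    · rw [if_neg (by decide)]
      linear_combination h3
    · rw [if_neg (by decide)]
      linear_combination h3
    · rw [if_pos trivial]
      ring
  · have hdvd : Fintype.card k ^ 2 - Fintype.card k + 1 ∣ Nat.card Kˣ := by
      rw [Nat.card_eq_fintype_card, Fintype.card_units, c.card_K]
      have hle : Fintype.card k ≤ Fintype.card k ^ 2 := Nat.le_self_pow (by norm_num) _
      have h1 : 1 ≤ Fintype.card k ^ 6 := Nat.one_le_pow _ _ Fintype.card_pos
      have hl1 : 1 ≤ Fintype.card k := Fintype.card_pos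
      refine ⟨(Fintype.card k + 1) * (Fintype.card k - 1) *
        (Fintype.card k ^ 2 + Fintype.card k + 1), ?_⟩
      zify [hle, h1, hl1]
      ring
    obtain ⟨g, hg⟩ := IsCyclic.exists_ofOrder_eq_natCard (α := Kˣ)
    obtain ⟨m, hm⟩ := hdvd
    have hm0 : m ≠ 0 := by
      rintro rfl
      rw [mul_zero] at hm
      exact absurd hm (Nat.card_pos).ne'
    have hord : orderOf (g ^ m) = Fintype.card k ^ 2 - Fintype.card k + 1 := by
      rw [orderOf_pow' g hm0, hg, hm, Nat.gcd_eq_right (Dvd.intro_left _ rfl),
        Nat.mul_div_cancel _ (Nat.pos_of_ne_zero hm0)]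
    refine ⟨((g ^ m : Kˣ) : K), ?_, ?_⟩
    · rw [← Units.val_pow_eq_pow_val, ← hord, pow_orderOf_eq_one, Units.val_one]
    · intro n hn0 hn h
      rw [← Units.val_pow_eq_pow_val, Units.val_eq_one] at h
      have := orderOf_le_of_pow_eq_one hn0 h
      omega

end Pool.Agent.Helper52.Hemi
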