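import Mathlib

/-!
# Hemisystems of `H(3,q^2)` from functions on the isotropic vectors of a three-dimensional
Hermitian space

Let `F` be a field of order `q^2` (`q` odd).  A function `f` on `F^3` which is `±1` on the nonzero
isotropic vectors, constant on `F_q`-lines, and whose sum over every totally isotropic `F_q`-plane
vanishes gives a hemisystem of `H(3,q^2)`.
-/

set_option autoImplicit false

open Matrix

namespace Pool.Agent.Helper52.Hemi

/-- The conclusion of the frozen statement S09649 for one field `F` and one `q`. -/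
def HasHemi (F : Type) [Field F] (q : ℕ) : Prop :=
  ∃ (S : Set (Submodule F (Fin 4 → F))) (g : (Fin 4 → F) ≃+ (Fin 4 → F)) (τ : F ≃+* F),
      (∀ L ∈ S, Module.finrank F L = 2 ∧ ∀ x ∈ L, ∀ y ∈ L, ∑ i, x i * y i ^ q = 0) ∧
      (∀ P : Submodule F (Fin 4 → F), Module.finrank F P = 1 →
          (∀ x ∈ P, ∑ i, x i ^ (q + 1) = 0) →
          Set.ncard {L | L ∈ S ∧ P ≤ L} = (q + 1) / 2) ∧
      (∀ (c : F) (x : Fin 4 → F), g (c • x) = τ c • g x) ∧
      (∀ x : Fin 4 → F, (∑ i, g x i ^ (q + 1) = 0 ↔ ∑ i, x i ^ (q + 1) = 0)) ∧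
      (∀ L ∈ S, ∃ L' ∈ S, (L' : Set (Fin 4 → F)) = ⇑g '' (L : Set (Fin 4 → F))) ∧
      (∀ v : Fin 4 → F, ∃ c : F, (⇑g)^[q ^ 2 - q + 1] v = c • v) ∧
      (∀ k : ℕ, 0 < k → k < q ^ 2 - q + 1 → ∃ v : Fin 4 → F, ∀ c : F, (⇑g)^[k] v ≠ c • v)

section lines

variable {F : Type} [Field F] (s : F →+* F)

/-- The generator of `H(3,q^2)` attached to an isotropic vector `X`. -/
def gen (X : Fin 3 → F) : Submodule F (Fin 4 → F) where
  carrier := {P | P 1 * X 2 - P 2 * X 1 = P 3 * s (X 0) ∧
    P 2 * X 0 - P 0 * X 2 = P 3 * s (X 1) ∧ P 0 * X 1 - P 1 * X 0 = P 3 * s (X 2)}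
  zero_mem' := by simp
  add_mem' := by
    rintro a b ⟨h1, h2, h3⟩ ⟨h4, h5, h6⟩
    refine ⟨?_, ?_, ?_⟩ <;> simp only [Pi.add_apply]
    · linear_combination h1 + h4
    · linear_combination h2 + h5
    · linear_combination h3 + h6
  smul_mem' := by
    rintro c a ⟨h1, h2, h3⟩
    refine ⟨?_, ?_, ?_⟩ <;> simp only [Pi.smul_apply, smul_eq_mul]
    · linear_combination c * h1
    · linear_combination c * h2
    · linear_combination c * h3

theorem mem_gen {X : Fin 3 → F} {P : Fin 4 → F} : P ∈ gen s X ↔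
    P 1 * X 2 - P 2 * X 1 = P 3 * s (X 0) ∧
    P 2 * X 0 - P 0 * X 2 = P 3 * s (X 1) ∧ P 0 * X 1 - P 1 * X 0 = P 3 * s (X 2) := Iff.rfl

variable {s}

theorem ne_zero_cases {X : Fin 3 → F} (hX : X ≠ 0) : X 0 ≠ 0 ∨ X 1 ≠ 0 ∨ X 2 ≠ 0 := by
  by_contra h
  push Not at h
  apply hX
  ext i
  fin_cases i
  · exact h.1
  · exact h.2.1
  · exact h.2.2

theorem gen_isotropic (hss : ∀ x, s (s x) = x) {X : Fin 3 → F} (hX : X ≠ 0)
    (hiso : X 0 * s (X 0) + X 1 * s (X 1) + X 2 * s (X 2) = 0) {P R : Fin 4 → F}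
    (hP : P ∈ gen s X) (hR : R ∈ gen s X) :
    P 0 * s (R 0) + P 1 * s (R 1) + P 2 * s (R 2) + P 3 * s (R 3) = 0 := by
  obtain ⟨a1, a2, a3⟩ := (mem_gen s).1 hP
  obtain ⟨b1, b2, b3⟩ := (mem_gen s).1 hR
  replace b1 := congrArg s b1
  replace b2 := congrArg s b2
  replace b3 := congrArg s b3
  simp only [map_sub, map_mul, hss] at b1 b2 b3
  have hs0 : ∀ x, x ≠ 0 → s x ≠ 0 := fun x hx => by simpa using hx
  rcases ne_zero_cases hX with h | h | h
  · have h2 := hs0 _ h
    have key : (X 0 * s (X 0)) *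
      (P 0 * s (R 0) + P 1 * s (R 1) + P 2 * s (R 2) + P 3 * s (R 3)) = 0 := by
      linear_combination (P 0 * s (R 0) + P 3 * s (R 3)) * hiso
        - (s (R 1) * s (X 0)) * a3 + (s (R 2) * s (X 0)) * a2
        - (P 0 * X 1 - P 3 * s (X 2)) * b3 + (P 3 * s (X 1) + P 0 * X 2) * b2
    rcases mul_eq_zero.1 key with h3 | h3
    · exact absurd h3 (mul_ne_zero h h2)
    · exact h3
  · have h2 := hs0 _ h
    have key : (X 1 * s (X 1)) *
      (P 0 * s (R 0) + P 1 * s (R 1) + P 2 * s (R 2) + P 3 * s (R 3)) = 0 := by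
      linear_combination (P 1 * s (R 1) + P 3 * s (R 3)) * hiso
        - (s (R 2) * s (X 1)) * a1 + (s (R 0) * s (X 1)) * a3
        - (P 1 * X 2 - P 3 * s (X 0)) * b1 + (P 3 * s (X 2) + P 1 * X 0) * b3
    rcases mul_eq_zero.1 key with h3 | h3
    · exact absurd h3 (mul_ne_zero h h2)
    · exact h3
  · have h2 := hs0 _ h
    have key : (X 2 * s (X 2)) *
      (P 0 * s (R 0) + P 1 * s (R 1) + P 2 * s (R 2) + P 3 * s (R 3)) = 0 := by
      linear_combination (P 2 * s (R 2) + P 3 * s (R 3)) * hiso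
        - (s (R 0) * s (X 2)) * a2 + (s (R 1) * s (X 2)) * a1
        - (P 2 * X 0 - P 3 * s (X 1)) * b2 + (P 3 * s (X 0) + P 2 * X 1) * b1
    rcases mul_eq_zero.1 key with h3 | h3
    · exact absurd h3 (mul_ne_zero h h2)
    · exact h3

/-- A vector of `gen s X` with prescribed last coordinate. -/
theorem exists_gen {X : Fin 3 → F} (hX : X ≠ 0)
    (hiso : X 0 * s (X 0) + X 1 * s (X 1) + X 2 * s (X 2) = 0) :
    ∃ P ∈ gen s X, P 3 = 1 := by
  rcases ne_zero_cases hX with h | h | h
  · refine ⟨![0, - s (X 2) / X 0, s (X 1) / X 0, 1], ?_, rfl⟩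
    rw [mem_gen]
    simp only [cons_val]
    refine ⟨?_, ?_, ?_⟩ <;> field_simp
    · linear_combination - hiso
    · ring
    · ring
  · refine ⟨![s (X 2) / X 1, 0, - s (X 0) / X 1, 1], ?_, rfl⟩
    rw [mem_gen]
    simp only [cons_val]
    refine ⟨?_, ?_, ?_⟩ <;> field_simp
    · ring
    · linear_combination - hiso
    · ring
  · refine ⟨![- s (X 1) / X 2, s (X 0) / X 2, 0, 1], ?_, rfl⟩
    rw [mem_gen]
    simp only [cons_val]
    refine ⟨?_, ?_, ?_⟩ <;> field_simp
    · ring
    · ring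
    · linear_combination - hiso

/-- The vector `(X, 0)`. -/
def ext0 (X : Fin 3 → F) : Fin 4 → F := ![X 0, X 1, X 2, 0]

theorem ext0_mem (X : Fin 3 → F) : ext0 X ∈ gen s X := by
  rw [mem_gen]
  simp only [ext0, cons_val]
  refine ⟨?_, ?_, ?_⟩ <;> ring

/-- If `P'×X = 0` then `P'` is a multiple of `X ≠ 0`. -/
theorem exists_smul_of_cross {X : Fin 3 → F} (hX : X ≠ 0) {a b c : F}
    (h1 : b * X 2 - c * X 1 = 0) (h2 : c * X 0 - a * X 2 = 0) (h3 : a * X 1 - b * X 0 = 0) :
    ∃ t : F, a = t * X 0 ∧ b = t * X 1 ∧ c = t * X 2 := by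
  rcases ne_zero_cases hX with h | h | h
  · refine ⟨a / X 0, ?_, ?_, ?_⟩ <;> field_simp
    · linear_combination -h3
    · linear_combination h2
  · refine ⟨b / X 1, ?_, ?_, ?_⟩ <;> field_simp
    · linear_combination h3
    · linear_combination -h1
  · refine ⟨c / X 2, ?_, ?_, ?_⟩ <;> field_simp
    · linear_combination -h2
    · linear_combination h1

theorem finrank_gen {X : Fin 3 → F} (hX : X ≠ 0)
    (hiso : X 0 * s (X 0) + X 1 * s (X 1) + X 2 * s (X 2) = 0) :
    Module.finrank F (gen s X) = 2 := by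
  obtain ⟨P, hP, hP3⟩ := exists_gen hX hiso
  let φ : (F × F) →ₗ[F] gen s X :=
    { toFun := fun ab => ⟨ab.1 • ext0 X + ab.2 • P,
        (gen s X).add_mem ((gen s X).smul_mem _ (ext0_mem X)) ((gen s X).smul_mem _ hP)⟩
      map_add' := by
        intro x y
        apply Subtype.ext
        simp only [Prod.fst_add, Prod.snd_add, Submodule.coe_add]
        module
      map_smul' := by
        intro c x
        apply Subtype.ext
        simp only [Prod.smul_fst, Prod.smul_snd, RingHom.id_apply, Submodule.coe_smul, smul_eq_mul]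
        module }
  have hbij : Function.Bijective φ := by
    constructor
    · rw [injective_iff_map_eq_zero]
      rintro ⟨a, b⟩ h
      have h' : a • ext0 X + b • P = 0 := congrArg Subtype.val h
      have h3 := congrFun h' 3
      simp only [Pi.add_apply, Pi.smul_apply, smul_eq_mul, ext0, cons_val, Pi.zero_apply,
        hP3, mul_zero, zero_add, mul_one] at h3
      subst h3
      have ha : a = 0 := by
        rcases ne_zero_cases hX with h | h | h
        · have h0 := congrFun h' 0
          simp only [Pi.add_apply, Pi.smul_apply, smul_eq_mul, ext0, cons_val, Pi.zero_apply,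
            zero_mul, add_zero] at h0
          exact (mul_eq_zero.1 h0).resolve_right h
        · have h0 := congrFun h' 1
          simp only [Pi.add_apply, Pi.smul_apply, smul_eq_mul, ext0, cons_val, Pi.zero_apply,
            zero_mul, add_zero] at h0
          exact (mul_eq_zero.1 h0).resolve_right h
        · have h0 := congrFun h' 2
          simp only [Pi.add_apply, Pi.smul_apply, smul_eq_mul, ext0, cons_val, Pi.zero_apply,
            zero_mul, add_zero] at h0
          exact (mul_eq_zero.1 h0).resolve_right h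
      rw [ha]
      rfl
    · rintro ⟨R, hR⟩
      have hd := (gen s X).sub_mem hR ((gen s X).smul_mem (R 3) hP)
      obtain ⟨h1, h2, h3⟩ := (mem_gen s).1 hd
      have h33 : (R - R 3 • P) 3 = 0 := by
        simp only [Pi.sub_apply, Pi.smul_apply, smul_eq_mul, hP3]
        ring
      rw [h33, zero_mul] at h1 h2 h3
      obtain ⟨t, e0, e1, e2⟩ := exists_smul_of_cross hX h1 h2 h3
      refine ⟨(t, R 3), ?_⟩
      apply Subtype.ext
      change t • ext0 X + R 3 • P = R
      have : R - R 3 • P = t • ext0 X := by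
        ext i
        fin_cases i
        · simpa [ext0] using e0
        · simpa [ext0] using e1
        · simpa [ext0] using e2
        · simpa [ext0] using h33
      rw [← this]
      abel
  rw [← (LinearEquiv.ofBijective φ hbij).finrank_eq, Module.finrank_prod, Module.finrank_self]

theorem gen_smul {X : Fin 3 → F} {c : F} (hc : c ≠ 0) (hsc : s c = c) :
    gen s (c • X) = gen s X := by
  ext P
  rw [mem_gen, mem_gen]
  simp only [Pi.smul_apply, smul_eq_mul, map_mul, hsc]
  constructor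
  · rintro ⟨h1, h2, h3⟩
    refine ⟨?_, ?_, ?_⟩ <;> apply mul_left_cancel₀ hc
    · linear_combination h1
    · linear_combination h2
    · linear_combination h3
  · rintro ⟨h1, h2, h3⟩
    refine ⟨?_, ?_, ?_⟩
    · linear_combination c * h1
    · linear_combination c * h2
    · linear_combination c * h3

theorem exists_smul_of_gen_eq {X Y : Fin 3 → F} (hX : X ≠ 0) (hY : Y ≠ 0)
    (hiso : X 0 * s (X 0) + X 1 * s (X 1) + X 2 * s (X 2) = 0) (h : gen s X = gen s Y) :
    ∃ c : F, c ≠ 0 ∧ s c = c ∧ Y = c • X := by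
  have h1 : ext0 Y ∈ gen s X := h ▸ ext0_mem Y
  obtain ⟨a1, a2, a3⟩ := (mem_gen s).1 h1
  simp only [ext0, cons_val, zero_mul] at a1 a2 a3
  obtain ⟨c, e0, e1, e2⟩ := exists_smul_of_cross hX a1 a2 a3
  have hYX : Y = c • X := by
    ext i
    fin_cases i
    · simpa using e0
    · simpa using e1
    · simpa using e2
  have hc : c ≠ 0 := by
    rintro rfl
    exact hY (by rw [hYX, zero_smul])
  refine ⟨c, hc, ?_, hYX⟩
  obtain ⟨P, hP, hP3⟩ := exists_gen hX hiso
  have hP' : P ∈ gen s Y := h ▸ hP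
  obtain ⟨p1, p2, p3⟩ := (mem_gen s).1 hP
  obtain ⟨r1, r2, r3⟩ := (mem_gen s).1 hP'
  rw [hYX] at r1 r2 r3
  simp only [Pi.smul_apply, smul_eq_mul, map_mul, hP3, one_mul] at r1 r2 r3 p1 p2 p3
  have hs0 : ∀ x, x ≠ 0 → s x ≠ 0 := fun x hx => by simpa using hx
  rcases ne_zero_cases hX with h | h | h
  · apply mul_right_cancel₀ (hs0 _ h)
    linear_combination - r1 + c * p1
  · apply mul_right_cancel₀ (hs0 _ h)
    linear_combination - r2 + c * p2
  · apply mul_right_cancel₀ (hs0 _ h)
    linear_combination - r3 + c * p3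

end lines

section fixed

/-- A conjugate-linear involution on a finite space has `√|V|` fixed points. -/
theorem card_fixed_sq {F V : Type} [Field F] [AddCommGroup V] [Module F V] [Fintype V]
    [DecidableEq V]
    (s : F →+* F) (d : F) (hd0 : d ≠ 0) (hd : s d = -d) (h2 : (2 : F) ≠ 0) (T : V → V)
    (hadd : ∀ x y, T (x + y) = T x + T y) (hsm : ∀ (c : F) x, T (c • x) = s c • T x)
    (hT : ∀ x, T (T x) = x) :
    (Finset.univ.filter (fun x => T x = x)).card ^ 2 = Fintype.card V := by
  have hneg : ∀ x, T (-x) = - T x := by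
    intro x
    have := hsm (-1) x
    simpa using this
  have hs2 : s 2 = 2 := map_ofNat s 2
  let A := Finset.univ.filter (fun x : V => T x = x)
  have : (A ×ˢ A).card = (Finset.univ : Finset V).card := by
    apply Finset.card_bij (fun ab _ => ab.1 + d • ab.2)
    · intros; exact Finset.mem_univ _
    · rintro ⟨a, b⟩ hab ⟨a', b'⟩ hab' h
      simp only [A, Finset.mem_product, Finset.mem_filter, Finset.mem_univ, true_and] at hab hab'
      simp only at h
      have h' := congrArg T h
      rw [hadd, hadd, hsm, hsm, hd, hab.1, hab.2, hab'.1, hab'.2] at h'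
      have e1 : (2 : F) • a = (2 : F) • a' := by
        calc (2 : F) • a = (a + d • b) + (a + -d • b) := by module
          _ = (a' + d • b') + (a' + -d • b') := by rw [h, h']
          _ = (2 : F) • a' := by module
      have e1' : a = a' := by
        have := congrArg (fun x => (2 : F)⁻¹ • x) e1
        simpa [smul_smul, inv_mul_cancel₀ h2] using this
      subst e1'
      have e2 : d • b = d • b' := add_left_cancel h
      have e2' : b = b' := by
        have := congrArg (fun x => (d : F)⁻¹ • x) e2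
        simpa [smul_smul, inv_mul_cancel₀ hd0] using this
      rw [e2']
    · intro x _
      refine ⟨((2 : F)⁻¹ • (x + T x), ((2 : F) * d)⁻¹ • (x - T x)), ?_, ?_⟩
      · simp only [A, Finset.mem_product, Finset.mem_filter, Finset.mem_univ, true_and]
        constructor
        · rw [hsm, hadd, hT, map_inv₀, hs2, add_comm]
        · rw [hsm, sub_eq_add_neg, hadd, hneg, hT, map_inv₀, map_mul, hs2, hd]
          have : (2 * -d : F)⁻¹ = - (2 * d)⁻¹ := by
            rw [mul_neg, inv_neg]
          rw [this]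
          module
      · have e : d * (2 * d)⁻¹ = (2 : F)⁻¹ := by
          field_simp
        change (2 : F)⁻¹ • (x + T x) + d • (((2 : F) * d)⁻¹ • (x - T x)) = x
        rw [smul_smul, e]
        have : (2 : F)⁻¹ • (x + T x) + (2 : F)⁻¹ • (x - T x) = ((2 : F)⁻¹ * 2) • x := by
          module
        rw [this, inv_mul_cancel₀ h2, one_smul]
  rw [Finset.card_product] at this
  rw [sq]
  exact this

end fixed

section main

open Classical

variable {F : Type} [Field F] [Fintype F]

/-- The set of vectors `X` of `F^3` with `v ∈ gen s X` (together with `0`). -/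
noncomputable def tsp (s : F →+* F) (v : Fin 4 → F) : Finset (Fin 3 → F) :=
  Finset.univ.filter (fun X => v ∈ gen s X)

theorem mem_tsp {s : F →+* F} {v : Fin 4 → F} {X : Fin 3 → F} :
    X ∈ tsp s v ↔ (v 1 * X 2 - v 2 * X 1 = v 3 * s (X 0) ∧
    v 2 * X 0 - v 0 * X 2 = v 3 * s (X 1) ∧ v 0 * X 1 - v 1 * X 0 = v 3 * s (X 2)) := by
  simp [tsp, mem_gen]

theorem tsp_zero {s : F →+* F} {v : Fin 4 → F} : (0 : Fin 3 → F) ∈ tsp s v := by
  rw [mem_tsp]; simp

theorem tsp_add {s : F →+* F} {v : Fin 4 → F} {X Y : Fin 3 → F} (hX : X ∈ tsp s v)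
    (hY : Y ∈ tsp s v) : X + Y ∈ tsp s v := by
  rw [mem_tsp] at *
  obtain ⟨a1, a2, a3⟩ := hX
  obtain ⟨b1, b2, b3⟩ := hY
  simp only [Pi.add_apply, map_add]
  refine ⟨?_, ?_, ?_⟩
  · linear_combination a1 + b1
  · linear_combination a2 + b2
  · linear_combination a3 + b3

theorem tsp_smul {s : F →+* F} {v : Fin 4 → F} {X : Fin 3 → F} (hX : X ∈ tsp s v)
    {c : F} (hc : s c = c) : c • X ∈ tsp s v := by
  rw [mem_tsp] at *
  obtain ⟨a1, a2, a3⟩ := hX
  simp only [Pi.smul_apply, smul_eq_mul, map_mul, hc]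
  refine ⟨?_, ?_, ?_⟩
  · linear_combination c * a1
  · linear_combination c * a2
  · linear_combination c * a3

theorem tsp_iso {s : F →+* F} {v : Fin 4 → F} (hv : v ≠ 0)
    (hiso : v 0 * s (v 0) + v 1 * s (v 1) + v 2 * s (v 2) + v 3 * s (v 3) = 0)
    {X : Fin 3 → F} (hX : X ∈ tsp s v) :
    X 0 * s (X 0) + X 1 * s (X 1) + X 2 * s (X 2) = 0 := by
  rw [mem_tsp] at hX
  obtain ⟨a1, a2, a3⟩ := hX
  by_cases h3 : v 3 = 0
  · have hw : (![v 0, v 1, v 2] : Fin 3 → F) ≠ 0 := by
      intro h
      apply hv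
      have e0 := congrFun h 0
      have e1 := congrFun h 1
      have e2 := congrFun h 2
      simp only [cons_val, Pi.zero_apply] at e0 e1 e2
      ext i
      fin_cases i
      · exact e0
      · exact e1
      · exact e2
      · exact h3
    rw [h3, zero_mul] at a1 a2 a3
    obtain ⟨t, e0, e1, e2⟩ := exists_smul_of_cross hw (a := X 0) (b := X 1) (c := X 2)
      (by simp only [cons_val]; linear_combination -a1)
      (by simp only [cons_val]; linear_combination -a2)
      (by simp only [cons_val]; linear_combination -a3)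
    simp only [cons_val] at e0 e1 e2
    rw [e0, e1, e2]
    simp only [map_mul]
    rw [h3, zero_mul, add_zero] at hiso
    linear_combination (t * s t) * hiso
  · apply (mul_eq_zero.1 (show v 3 * (X 0 * s (X 0) + X 1 * s (X 1) + X 2 * s (X 2)) = 0 from ?_)
      ).resolve_left h3
    linear_combination - X 0 * a1 - X 1 * a2 - X 2 * a3

theorem card_fixed {q : ℕ} (hq : Fintype.card F = q ^ 2) (h2 : (2 : F) ≠ 0)
    {s : F →+* F} (hss : ∀ x, s (s x) = x) {d : F} (hd0 : d ≠ 0) (hd : s d = -d) :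
    (Finset.univ.filter (fun x : F => s x = x)).card = q := by
  have h := card_fixed_sq s d hd0 hd h2 (fun x : F => s x) (fun x y => map_add s x y)
    (fun c x => by simp) hss
  rw [hq] at h
  exact Nat.pow_left_injective (n := 2) (by norm_num) h

theorem card_tsp {q : ℕ} (hq : Fintype.card F = q ^ 2) (h2 : (2 : F) ≠ 0)
    {s : F →+* F} (hss : ∀ x, s (s x) = x) {d : F} (hd0 : d ≠ 0) (hd : s d = -d)
    {v : Fin 4 → F} (hv : v ≠ 0)
    (hiso : v 0 * s (v 0) + v 1 * s (v 1) + v 2 * s (v 2) + v 3 * s (v 3) = 0) :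
    (tsp s v).card = q ^ 2 := by
  by_cases h3 : v 3 = 0
  · have hw : (![v 0, v 1, v 2] : Fin 3 → F) ≠ 0 := by
      intro h
      apply hv
      have e0 := congrFun h 0
      have e1 := congrFun h 1
      have e2 := congrFun h 2
      simp only [cons_val, Pi.zero_apply] at e0 e1 e2
      ext i
      fin_cases i
      · exact e0
      · exact e1
      · exact e2
      · exact h3
    have himg : tsp s v = Finset.univ.image (fun t : F => t • (![v 0, v 1, v 2] : Fin 3 → F)) := by
      ext X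
      rw [mem_tsp, Finset.mem_image]
      constructor
      · rintro ⟨a1, a2, a3⟩
        rw [h3, zero_mul] at a1 a2 a3
        obtain ⟨t, e0, e1, e2⟩ := exists_smul_of_cross hw (a := X 0) (b := X 1) (c := X 2)
          (by simp only [cons_val]; linear_combination -a1)
          (by simp only [cons_val]; linear_combination -a2)
          (by simp only [cons_val]; linear_combination -a3)
        refine ⟨t, Finset.mem_univ _, ?_⟩
        ext i
        fin_cases i
        · simpa using e0.symm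
        · simpa using e1.symm
        · simpa using e2.symm
      · rintro ⟨t, _, rfl⟩
        rw [h3]
        simp only [Pi.smul_apply, cons_val, smul_eq_mul, zero_mul]
        refine ⟨?_, ?_, ?_⟩ <;> ring
    rw [himg, Finset.card_image_of_injective _ (smul_left_injective F hw), Finset.card_univ, hq]
  · -- the orthogonal complement
    have hsv3 : s (v 3) ≠ 0 := by simpa using h3
    let ℓ : (Fin 3 → F) →ₗ[F] F :=
      s (v 0) • LinearMap.proj 0 + s (v 1) • LinearMap.proj 1 + s (v 2) • LinearMap.proj 2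
    have hℓ : ∀ X : Fin 3 → F, ℓ X = s (v 0) * X 0 + s (v 1) * X 1 + s (v 2) * X 2 := by
      intro X
      simp [ℓ]
    have hℓ0 : ℓ ≠ 0 := by
      intro h
      have : ℓ ![v 0, v 1, v 2] = 0 := by rw [h]; rfl
      rw [hℓ] at this
      simp only [cons_val] at this
      apply mul_ne_zero h3 hsv3
      linear_combination hiso - this
    have hsurj : Function.Surjective ℓ := LinearMap.surjective_of_ne_zero hℓ0
    have hfr : Module.finrank F (LinearMap.ker ℓ) = 2 := by
      have h := LinearMap.finrank_range_add_finrank_ker ℓ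
      rw [LinearMap.range_eq_top.2 hsurj, finrank_top, Module.finrank_self,
        Module.finrank_fin_fun] at h
      omega
    have hcardV : Fintype.card (LinearMap.ker ℓ) = q ^ 4 := by
      rw [Module.card_eq_pow_finrank (K := F), hfr, hq]
      ring
    let T0 : (Fin 3 → F) → (Fin 3 → F) := fun X =>
      ![s ((v 1 * X 2 - v 2 * X 1) / v 3), s ((v 2 * X 0 - v 0 * X 2) / v 3),
        s ((v 0 * X 1 - v 1 * X 0) / v 3)]
    have hT0mem : ∀ X, T0 X ∈ LinearMap.ker ℓ := by
      intro X
      rw [LinearMap.mem_ker, hℓ]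
      simp only [T0, cons_val]
      rw [← map_mul, ← map_mul, ← map_mul, ← map_add, ← map_add]
      convert map_zero s
      field_simp
      ring
    let T : LinearMap.ker ℓ → LinearMap.ker ℓ := fun X => ⟨T0 X, hT0mem X⟩
    have hfix := card_fixed_sq s d hd0 hd h2 T
      (by
        intro x y
        apply Subtype.ext
        change T0 (x + y : Fin 3 → F) = T0 x + T0 y
        ext i
        fin_cases i <;> simp only [T0, Fin.zero_eta, Fin.mk_one, Fin.reduceFinMk, cons_val,
          Pi.add_apply] <;> rw [← map_add] <;> congr 1 <;> field_simp <;> ring)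
      (by
        intro c x
        apply Subtype.ext
        change T0 (c • x : Fin 3 → F) = s c • T0 x
        ext i
        fin_cases i <;> simp only [T0, Fin.zero_eta, Fin.mk_one, Fin.reduceFinMk, cons_val,
          Pi.smul_apply, smul_eq_mul] <;> rw [← map_mul] <;> congr 1 <;> field_simp)
      (by
        rintro ⟨x, hx⟩
        apply Subtype.ext
        change T0 (T0 x) = x
        rw [LinearMap.mem_ker, hℓ] at hx
        ext i
        fin_cases i <;> simp only [T0, Fin.zero_eta, Fin.mk_one, Fin.reduceFinMk, cons_val,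
          map_div₀, map_sub, map_mul, hss] <;> field_simp
        · linear_combination (v 0) * hx - (x 0) * hiso
        · linear_combination (v 1) * hx - (x 1) * hiso
        · linear_combination (v 2) * hx - (x 2) * hiso)
    have himg : tsp s v = Finset.image (Subtype.val : LinearMap.ker ℓ → (Fin 3 → F))
        (Finset.univ.filter (fun x : LinearMap.ker ℓ => T x = x)) := by
      ext X
      rw [mem_tsp, Finset.mem_image]
      have hTX : (T0 X = X) ↔ (v 1 * X 2 - v 2 * X 1 = v 3 * s (X 0) ∧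
          v 2 * X 0 - v 0 * X 2 = v 3 * s (X 1) ∧ v 0 * X 1 - v 1 * X 0 = v 3 * s (X 2)) := by
        constructor
        · intro h
          have e0 := congrArg s (congrFun h 0)
          have e1 := congrArg s (congrFun h 1)
          have e2 := congrArg s (congrFun h 2)
          simp only [T0, cons_val, hss] at e0 e1 e2
          rw [div_eq_iff h3] at e0 e1 e2
          exact ⟨by linear_combination e0, by linear_combination e1, by linear_combination e2⟩
        · rintro ⟨a1, a2, a3⟩
          ext i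
          fin_cases i <;> simp only [T0, Fin.zero_eta, Fin.mk_one, Fin.reduceFinMk, cons_val]
          · rw [a1, mul_div_cancel_left₀ _ h3, hss]
          · rw [a2, mul_div_cancel_left₀ _ h3, hss]
          · rw [a3, mul_div_cancel_left₀ _ h3, hss]
      rw [← hTX]
      constructor
      · intro h
        refine ⟨⟨X, h ▸ hT0mem X⟩, ?_, rfl⟩
        rw [Finset.mem_filter]
        exact ⟨Finset.mem_univ _, Subtype.ext h⟩
      · rintro ⟨x, hx, rfl⟩
        rw [Finset.mem_filter] at hx
        exact congrArg Subtype.val hx.2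
    rw [himg, Finset.card_image_of_injective _ Subtype.val_injective]
    rw [hcardV] at hfix
    have : (q ^ 2) ^ 2 = q ^ 4 := by ring
    rw [← this] at hfix
    exact Nat.pow_left_injective (n := 2) (by norm_num) hfix

/-- The isotropy condition on `F^3`. -/
def Iso3 (s : F →+* F) (X : Fin 3 → F) : Prop :=
  X 0 * s (X 0) + X 1 * s (X 1) + X 2 * s (X 2) = 0

theorem card_gen_through {q : ℕ} (hq : Fintype.card F = q ^ 2) (hodd : q % 2 = 1)
    (h2 : (2 : F) ≠ 0)
    {s : F →+* F} (hss : ∀ x, s (s x) = x) {d : F} (hd0 : d ≠ 0) (hd : s d = -d)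
    (f : (Fin 3 → F) → ℤ)
    (hf1 : ∀ X, X ≠ 0 → Iso3 s X → f X = 1 ∨ f X = -1)
    (hf2 : ∀ (c : F) (X : Fin 3 → F), c ≠ 0 → s c = c → X ≠ 0 → Iso3 s X → f (c • X) = f X)
    (hf3 : ∀ L : Finset (Fin 3 → F), 0 ∈ L → (∀ x ∈ L, ∀ y ∈ L, x + y ∈ L) →
      (∀ c, s c = c → ∀ x ∈ L, c • x ∈ L) → L.card = q ^ 2 → (∀ x ∈ L, Iso3 s x) →
      ∑ x ∈ L.erase 0, f x = 0)
    {v : Fin 4 → F} (hv : v ≠ 0)
    (hiso : v 0 * s (v 0) + v 1 * s (v 1) + v 2 * s (v 2) + v 3 * s (v 3) = 0) :
    (((tsp s v).filter (fun X => X ≠ 0 ∧ f X = 1)).image (gen s)).card = (q + 1) / 2 := by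
  have hcard := card_tsp hq h2 hss hd0 hd hv hiso
  have hsum := hf3 (tsp s v) tsp_zero (fun x hx y hy => tsp_add hx hy)
    (fun c hc x hx => tsp_smul hx hc) hcard (fun x hx => tsp_iso hv hiso hx)
  have hqpos : 0 < q := by omega
  set A := (tsp s v).filter (fun X => X ≠ 0 ∧ f X = 1) with hA
  have hAe : A = ((tsp s v).erase 0).filter (fun X => f X = 1) := by
    ext X
    simp only [hA, Finset.mem_filter, Finset.mem_erase]
    tauto
  have hcardE : ((tsp s v).erase 0).card = q ^ 2 - 1 := by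
    rw [Finset.card_erase_of_mem tsp_zero, hcard]
  have h2A : 2 * A.card = q ^ 2 - 1 := by
    have e1 : ∑ x ∈ (tsp s v).erase 0, f x =
        ∑ x ∈ (tsp s v).erase 0, (2 * (if f x = 1 then (1 : ℤ) else 0) - 1) := by
      apply Finset.sum_congr rfl
      intro x hx
      rw [Finset.mem_erase] at hx
      rcases hf1 x hx.1 (tsp_iso hv hiso hx.2) with h | h <;> rw [h] <;> norm_num
    rw [hsum, Finset.sum_sub_distrib, ← Finset.mul_sum, Finset.sum_boole, Finset.sum_const,
      ← hAe, hcardE] at e1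
    simp only [nsmul_eq_mul, mul_one] at e1
    have : ((2 * A.card : ℕ) : ℤ) = ((q ^ 2 - 1 : ℕ) : ℤ) := by
      push_cast at e1 ⊢
      linarith
    exact_mod_cast this
  have hfib : ∀ L ∈ A.image (gen s), (A.filter (fun X => gen s X = L)).card = q - 1 := by
    intro L hL
    obtain ⟨X, hXA, rfl⟩ := Finset.mem_image.1 hL
    rw [hA, Finset.mem_filter] at hXA
    obtain ⟨hXt, hX0, hfX⟩ := hXA
    have hXi : Iso3 s X := tsp_iso hv hiso hXt
    have himg : A.filter (fun Y => gen s Y = gen s X) =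
        ((Finset.univ.filter (fun x : F => s x = x)).erase 0).image (fun c => c • X) := by
      ext Y
      rw [Finset.mem_filter, hA, Finset.mem_filter, Finset.mem_image]
      constructor
      · rintro ⟨⟨hYt, hY0, hfY⟩, hYX⟩
        obtain ⟨c, hc0, hsc, hc⟩ := exists_smul_of_gen_eq hX0 hY0 hXi hYX.symm
        refine ⟨c, ?_, hc.symm⟩
        rw [Finset.mem_erase, Finset.mem_filter]
        exact ⟨hc0, Finset.mem_univ _, hsc⟩
      · rintro ⟨c, hc, rfl⟩
        rw [Finset.mem_erase, Finset.mem_filter] at hc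
        obtain ⟨hc0, _, hsc⟩ := hc
        refine ⟨⟨tsp_smul hXt hsc, smul_ne_zero hc0 hX0, ?_⟩, gen_smul hc0 hsc⟩
        rw [hf2 c X hc0 hsc hX0 hXi, hfX]
    rw [himg, Finset.card_image_of_injective _ (smul_left_injective F hX0),
      Finset.card_erase_of_mem, card_fixed hq h2 hss hd0 hd]
    rw [Finset.mem_filter]
    exact ⟨Finset.mem_univ _, map_zero s⟩
  have hAc := Finset.card_eq_sum_card_image (gen s) A
  rw [Finset.sum_congr rfl hfib, Finset.sum_const, smul_eq_mul] at hAc
  rw [hAc] at h2A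
  have hq1 : 0 < q - 1 := by
    rcases Nat.lt_or_ge q 2 with h | h
    · exfalso
      have : q = 1 := by omega
      rw [this] at hq
      have h1 : 1 < Fintype.card F := Fintype.one_lt_card
      omega
    · omega
  have hfac : q ^ 2 - 1 = (q + 1) * (q - 1) := by
    have := Nat.sq_sub_sq q 1
    simpa using this
  rw [hfac, ← mul_assoc] at h2A
  have := Nat.eq_of_mul_eq_mul_right hq1 h2A
  omega

omit [Fintype F] in
theorem cross_unitary {s : F →+* F} (hss : ∀ x, s (s x) = x)
    (G : (Fin 3 → F) ≃ₗ[F] (Fin 3 → F))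
    (hGu : ∀ X Y, ∑ i, G X i * s (G Y i) = ∑ i, X i * s (Y i))
    (hGdet : LinearMap.det (G : (Fin 3 → F) →ₗ[F] (Fin 3 → F)) = 1) (u v : Fin 3 → F) :
    G u ⨯₃ G v = fun i => s (G (fun j => s ((u ⨯₃ v) j)) i) := by
  apply dotProduct_eq
  intro w0
  obtain ⟨w, rfl⟩ := G.surjective w0
  have hdet : ∀ a b c : Fin 3 → F,
      Matrix.det ![G a, G b, G c] = Matrix.det ![a, b, c] := by
    intro a b c
    have h1 : (Matrix.of ![G a, G b, G c] : Matrix (Fin 3) (Fin 3) F) =
        (Matrix.of ![a, b, c] : Matrix (Fin 3) (Fin 3) F) *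
          (LinearMap.toMatrix' (G : (Fin 3 → F) →ₗ[F] (Fin 3 → F)))ᵀ := by
      have h2 : ∀ x : Fin 3 → F, G x =
          (LinearMap.toMatrix' (G : (Fin 3 → F) →ₗ[F] (Fin 3 → F))) *ᵥ x := by
        intro x
        rw [LinearMap.toMatrix'_mulVec]
        rfl
      ext i j
      rw [Matrix.mul_apply]
      simp only [Matrix.transpose_apply]
      fin_cases i
      · change G a j = ∑ k, a k * _
        rw [h2 a]
        simp only [Matrix.mulVec, dotProduct]
        apply Finset.sum_congr rfl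
        intro k _
        ring
      · change G b j = ∑ k, b k * _
        rw [h2 b]
        simp only [Matrix.mulVec, dotProduct]
        apply Finset.sum_congr rfl
        intro k _
        ring
      · change G c j = ∑ k, c k * _
        rw [h2 c]
        simp only [Matrix.mulVec, dotProduct]
        apply Finset.sum_congr rfl
        intro k _
        ring
    change Matrix.det (Matrix.of ![G a, G b, G c]) = Matrix.det (Matrix.of ![a, b, c])
    rw [h1, Matrix.det_mul, Matrix.det_transpose, LinearMap.det_toMatrix', hGdet, mul_one]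
  rw [dotProduct_comm, triple_product_eq_det, hdet, ← triple_product_eq_det]
  have h3 := hGu w (fun j => s ((u ⨯₃ v) j))
  simp only [hss] at h3
  simp only [dotProduct]
  rw [← h3]
  apply Finset.sum_congr rfl
  intro i _
  ring

/-- First three coordinates. -/
def hd3 (P : Fin 4 → F) : Fin 3 → F := ![P 0, P 1, P 2]

/-- The extension of `G` to `F^4`. -/
def extG (G : (Fin 3 → F) ≃ₗ[F] (Fin 3 → F)) : (Fin 4 → F) ≃+ (Fin 4 → F) where
  toFun P := ![G (hd3 P) 0, G (hd3 P) 1, G (hd3 P) 2, P 3]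
  invFun P := ![G.symm (hd3 P) 0, G.symm (hd3 P) 1, G.symm (hd3 P) 2, P 3]
  left_inv := by
    intro P
    have h1 : hd3 ![G (hd3 P) 0, G (hd3 P) 1, G (hd3 P) 2, P 3] = G (hd3 P) := by
      ext i; fin_cases i <;> rfl
    beta_reduce
    rw [h1, LinearEquiv.symm_apply_apply]
    ext i; fin_cases i <;> rfl
  right_inv := by
    intro P
    have h1 : hd3 ![G.symm (hd3 P) 0, G.symm (hd3 P) 1, G.symm (hd3 P) 2, P 3] =
        G.symm (hd3 P) := by
      ext i; fin_cases i <;> rfl
    beta_reduce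
    rw [h1, LinearEquiv.apply_symm_apply]
    ext i; fin_cases i <;> rfl
  map_add' := by
    intro P R
    have h1 : hd3 (P + R) = hd3 P + hd3 R := by
      ext i; fin_cases i <;> rfl
    rw [h1, map_add]
    ext i; fin_cases i <;> rfl

omit [Fintype F] in
theorem hd3_extG (G : (Fin 3 → F) ≃ₗ[F] (Fin 3 → F)) (P : Fin 4 → F) :
    hd3 (extG G P) = G (hd3 P) := by
  ext i; fin_cases i <;> rfl

omit [Fintype F] in
theorem extG_three (G : (Fin 3 → F) ≃ₗ[F] (Fin 3 → F)) (P : Fin 4 → F) :
    extG G P 3 = P 3 := rfl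

omit [Field F] [Fintype F] in
theorem ext_hd3 {P R : Fin 4 → F} (h : hd3 P = hd3 R) (h3 : P 3 = R 3) : P = R := by
  ext i
  fin_cases i
  · exact congrFun h 0
  · exact congrFun h 1
  · exact congrFun h 2
  · exact h3

omit [Fintype F] in
theorem hd3_extG_iter (G : (Fin 3 → F) ≃ₗ[F] (Fin 3 → F)) (k : ℕ) (P : Fin 4 → F) :
    hd3 ((⇑(extG G))^[k] P) = (⇑G)^[k] (hd3 P) ∧ ((⇑(extG G))^[k] P) 3 = P 3 := by
  induction k with
  | zero => exact ⟨rfl, rfl⟩
  | succ k ih =>
    rw [Function.iterate_succ_apply', Function.iterate_succ_apply', hd3_extG, extG_three, ih.1]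
    exact ⟨rfl, ih.2⟩

omit [Fintype F] in
theorem mem_gen_cross {s : F →+* F} {X : Fin 3 → F} {P : Fin 4 → F} :
    P ∈ gen s X ↔ hd3 P ⨯₃ X = fun i => P 3 * s (X i) := by
  rw [mem_gen, cross_apply]
  constructor
  · rintro ⟨h1, h2, h3⟩
    ext i
    fin_cases i
    · exact h1
    · exact h2
    · exact h3
  · intro h
    exact ⟨congrFun h 0, congrFun h 1, congrFun h 2⟩

/-- **Transfer theorem.** -/
theorem transfer {q : ℕ} (hq : Fintype.card F = q ^ 2) (hodd : q % 2 = 1)
    (s : F →+* F) (hs : ∀ x, s x = x ^ q)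
    (f : (Fin 3 → F) → ℤ)
    (hf1 : ∀ X, X ≠ 0 → Iso3 s X → f X = 1 ∨ f X = -1)
    (hf2 : ∀ (c : F) (X : Fin 3 → F), c ≠ 0 → s c = c → X ≠ 0 → Iso3 s X → f (c • X) = f X)
    (hf3 : ∀ L : Finset (Fin 3 → F), 0 ∈ L → (∀ x ∈ L, ∀ y ∈ L, x + y ∈ L) →
      (∀ c, s c = c → ∀ x ∈ L, c • x ∈ L) → L.card = q ^ 2 → (∀ x ∈ L, Iso3 s x) →
      ∑ x ∈ L.erase 0, f x = 0)
    (G : (Fin 3 → F) ≃ₗ[F] (Fin 3 → F))
    (hGu : ∀ X Y, ∑ i, G X i * s (G Y i) = ∑ i, X i * s (Y i))
    (hGdet : LinearMap.det (G : (Fin 3 → F) →ₗ[F] (Fin 3 → F)) = 1)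
    (hGf : ∀ X, X ≠ 0 → Iso3 s X → f (G X) = f X)
    (hG1 : ∀ X, (⇑G)^[q ^ 2 - q + 1] X = X)
    (hG2 : ∀ k : ℕ, 0 < k → k < q ^ 2 - q + 1 → ∃ X, (⇑G)^[k] X ≠ X) : HasHemi F q := by
  have hqpos : 0 < q := by omega
  have hq1 : 1 < q := by
    rcases Nat.lt_or_ge q 2 with h | h
    · exfalso
      have : q = 1 := by omega
      rw [this] at hq
      have h1 : 1 < Fintype.card F := Fintype.one_lt_card
      omega
    · omega
  have hss : ∀ x, s (s x) = x := by
    intro x
    rw [hs, hs, ← pow_mul, ← sq, ← hq, FiniteField.pow_card]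
  have h2 : (2 : F) ≠ 0 := by
    intro h
    have h3 : ringChar F = 2 := by
      have h4 : ((2 : ℕ) : F) = 0 := by exact_mod_cast h
      have h5 := (ringChar.spec F 2).1 h4
      have h6 := (Nat.dvd_prime Nat.prime_two).1 h5
      rcases h6 with h6 | h6
      · exact absurd h6 (CharP.ringChar_ne_one)
      · exact h6
    have h4 := FiniteField.even_card_iff_char_two.1 h3
    rw [hq, Nat.pow_mod, hodd] at h4
    norm_num at h4
  obtain ⟨d, hd0, hd⟩ : ∃ d : F, d ≠ 0 ∧ s d = -d := by
    by_contra hcon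
    push Not at hcon
    have hall : ∀ x, s x = x := by
      intro x
      by_contra hx
      apply hcon (x - s x) (sub_ne_zero.2 (Ne.symm hx))
      rw [map_sub, hss]
      ring
    have hid : ∀ x : F, x ^ q - x = 0 := by
      intro x
      rw [← hs, hall, sub_self]
    have hdeg := FiniteField.X_pow_card_sub_X_natDegree_eq F hq1
    have hne := FiniteField.X_pow_card_sub_X_ne_zero F hq1
    have hr := Polynomial.card_roots' (Polynomial.X ^ q - Polynomial.X : Polynomial F)
    rw [hdeg] at hr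
    have hle : Fintype.card F ≤ (Polynomial.X ^ q - Polynomial.X : Polynomial F).roots.card := by
      have h1 : (Finset.univ : Finset F) ⊆
          (Polynomial.X ^ q - Polynomial.X : Polynomial F).roots.toFinset := by
        intro x _
        rw [Multiset.mem_toFinset, Polynomial.mem_roots hne]
        simp [Polynomial.IsRoot, hid x]
      have h2 := Finset.card_le_card h1
      rw [Finset.card_univ] at h2
      exact h2.trans (Multiset.toFinset_card_le _)
    rw [hq] at hle
    nlinarith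
  have hpow : ∀ x : F, x ^ (q + 1) = x * s x := by
    intro x
    rw [hs, pow_succ]
    ring
  have hGiso : ∀ X, Iso3 s X → Iso3 s (G X) := by
    intro X hX
    have := hGu X X
    rw [Fin.sum_univ_three, Fin.sum_univ_three] at this
    unfold Iso3 at *
    rw [this, hX]
  have hsinj : Function.Injective s := s.injective
  -- invariance of lines
  have hgl : ∀ (X : Fin 3 → F) (P : Fin 4 → F), extG G P ∈ gen s (G X) ↔ P ∈ gen s X := by
    intro X P
    rw [mem_gen_cross, mem_gen_cross, hd3_extG, cross_unitary hss G hGu hGdet, extG_three]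
    have e1 : (fun i => P 3 * s (G X i)) =
        fun i => s (G (fun j => s (P 3 * s (X j))) i) := by
      ext i
      have : (fun j => s (P 3 * s (X j))) = s (P 3) • X := by
        ext j
        simp [hss]
      rw [this, map_smul]
      simp [hss]
    rw [e1]
    constructor
    · intro h
      have h1 : G (fun j => s ((hd3 P ⨯₃ X) j)) = G (fun j => s (P 3 * s (X j))) := by
        ext i
        exact hsinj (congrFun h i)
      have h2 := G.injective h1
      ext j
      exact hsinj (congrFun h2 j)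
    · intro h
      rw [h]
  refine ⟨{L | ∃ X, X ≠ 0 ∧ Iso3 s X ∧ f X = 1 ∧ L = gen s X}, extG G, RingEquiv.refl F,
    ?_, ?_, ?_, ?_, ?_, ?_, ?_⟩
  · rintro L ⟨X, hX0, hXi, hfX, rfl⟩
    refine ⟨finrank_gen hX0 hXi, ?_⟩
    intro x hx y hy
    rw [Fin.sum_univ_four, ← hs, ← hs, ← hs, ← hs]
    exact gen_isotropic hss hX0 hXi hx hy
  · intro P hP1 hPi
    obtain ⟨⟨v, hvP⟩, hv0, hvs⟩ := finrank_eq_one_iff'.1 hP1
    have hv0' : v ≠ 0 := by
      rintro rfl
      exact hv0 rfl
    have hvi : v 0 * s (v 0) + v 1 * s (v 1) + v 2 * s (v 2) + v 3 * s (v 3) = 0 := by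
      have := hPi v hvP
      rw [Fin.sum_univ_four, hpow, hpow, hpow, hpow] at this
      exact this
    have hle : ∀ L : Submodule F (Fin 4 → F), P ≤ L ↔ v ∈ L := by
      intro L
      constructor
      · intro h
        exact h hvP
      · intro h x hx
        obtain ⟨c, hc⟩ := hvs ⟨x, hx⟩
        have : x = c • v := (congrArg Subtype.val hc).symm
        rw [this]
        exact L.smul_mem _ h
    have hset : {L | L ∈ {L | ∃ X, X ≠ 0 ∧ Iso3 s X ∧ f X = 1 ∧ L = gen s X} ∧ P ≤ L} =
        ((((tsp s v).filter (fun X => X ≠ 0 ∧ f X = 1)).image (gen s) :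
          Finset (Submodule F (Fin 4 → F))) : Set (Submodule F (Fin 4 → F))) := by
      ext L
      simp only [Set.mem_ofPred_eq, Finset.coe_image, Set.mem_image, Finset.coe_filter]
      rw [hle]
      constructor
      · rintro ⟨⟨X, hX0, hXi, hfX, rfl⟩, hvL⟩
        refine ⟨X, ⟨?_, hX0, hfX⟩, rfl⟩
        rw [tsp, Finset.mem_filter]
        exact ⟨Finset.mem_univ _, hvL⟩
      · rintro ⟨X, ⟨hXt, hX0, hfX⟩, rfl⟩
        refine ⟨⟨X, hX0, tsp_iso hv0' hvi hXt, hfX, rfl⟩, ?_⟩
        rw [tsp, Finset.mem_filter] at hXt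
        exact hXt.2
    rw [hset, Set.ncard_coe_finset]
    exact card_gen_through hq hodd h2 hss hd0 hd f hf1 hf2 hf3 hv0' hvi
  · intro c x
    apply ext_hd3
    · rw [hd3_extG]
      have h1 : hd3 (c • x) = c • hd3 x := by
        ext i; fin_cases i <;> rfl
      have h2 : hd3 (RingEquiv.refl F c • extG G x) = c • hd3 (extG G x) := by
        ext i; fin_cases i <;> rfl
      rw [h1, h2, hd3_extG, map_smul]
    · rfl
  · intro x
    have e : ∑ i, extG G x i ^ (q + 1) = ∑ i, x i ^ (q + 1) := by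
      rw [Fin.sum_univ_four, Fin.sum_univ_four]
      simp only [hpow]
      have h1 := hGu (hd3 x) (hd3 x)
      rw [Fin.sum_univ_three, Fin.sum_univ_three] at h1
      have e0 : extG G x 0 = G (hd3 x) 0 := rfl
      have e1 : extG G x 1 = G (hd3 x) 1 := rfl
      have e2 : extG G x 2 = G (hd3 x) 2 := rfl
      have e3 : extG G x 3 = x 3 := rfl
      rw [e0, e1, e2, e3, h1]
      rfl
    rw [e]
  · rintro L ⟨X, hX0, hXi, hfX, rfl⟩
    refine ⟨gen s (G X), ⟨G X, ?_, hGiso X hXi, ?_, rfl⟩, ?_⟩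
    · intro h
      exact hX0 ((map_eq_zero_iff G G.injective).1 h)
    · rw [hGf X hX0 hXi, hfX]
    · ext R
      rw [Set.mem_image]
      constructor
      · intro hR
        refine ⟨(extG G).symm R, ?_, (extG G).apply_symm_apply R⟩
        rw [SetLike.mem_coe, ← hgl X, AddEquiv.apply_symm_apply]
        exact hR
      · rintro ⟨P, hP, rfl⟩
        rw [SetLike.mem_coe, hgl X]
        exact hP
  · intro v
    refine ⟨1, ?_⟩
    rw [one_smul]
    obtain ⟨h1, h3⟩ := hd3_extG_iter G (q ^ 2 - q + 1) v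
    apply ext_hd3 _ h3
    rw [h1, hG1]
  · intro k hk0 hk
    obtain ⟨X, hX⟩ := hG2 k hk0 hk
    refine ⟨![X 0, X 1, X 2, 1], ?_⟩
    intro c hc
    obtain ⟨h1, h3⟩ := hd3_extG_iter G k ![X 0, X 1, X 2, 1]
    rw [hc] at h1 h3
    have hX3 : hd3 ![X 0, X 1, X 2, 1] = X := by
      ext i; fin_cases i <;> rfl
    have hc1 : c = 1 := by
      simpa using h3
    rw [hX3, hc1, one_smul, hX3] at h1
    exact hX h1.symm

end main

section cubic

open Classical

variable {F K : Type} [Field F] [Fintype F] [Field K] [Fintype K] [Algebra F K]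

/-- The isotropy condition on `K = F_{q^6}` for the Hermitian form `Tr_{K/F}(x y^{q^3})`. -/
def IsoK (F : Type) {K : Type} [Field F] [Field K] [Algebra F K] (τ : K →+* K) (x : K) : Prop :=
  Algebra.trace F K (x * τ x) = 0

/-- **Transfer theorem**, version for the Hermitian form `Tr_{K/F}(x y^{q^3})` on the cubic
extension `K` of `F`. -/
theorem transferK {q : ℕ} (hq : Fintype.card F = q ^ 2) (hodd : q % 2 = 1)
    (hfr : Module.finrank F K = 3)
    (s : F →+* F) (hs : ∀ x, s x = x ^ q) (τ : K →+* K) (hτ : ∀ x, τ x = x ^ (q ^ 3))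
    (f : K → ℤ)
    (hf1 : ∀ x, x ≠ 0 → IsoK F τ x → f x = 1 ∨ f x = -1)
    (hf2 : ∀ (c : F) (x : K), c ≠ 0 → s c = c → x ≠ 0 → IsoK F τ x → f (c • x) = f x)
    (hf3 : ∀ L : Finset K, 0 ∈ L → (∀ x ∈ L, ∀ y ∈ L, x + y ∈ L) →
      (∀ c : F, s c = c → ∀ x ∈ L, c • x ∈ L) → L.card = q ^ 2 → (∀ x ∈ L, IsoK F τ x) →
      ∑ x ∈ L.erase 0, f x = 0)
    (ζ : K) (hζ1 : ζ ^ (q ^ 2 - q + 1) = 1)
    (hζ2 : ∀ k : ℕ, 0 < k → k < q ^ 2 - q + 1 → ζ ^ k ≠ 1)
    (hζf : ∀ x, x ≠ 0 → IsoK F τ x → f (ζ * x) = f x)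
    (ε : Fin 3 → K)
    (hε : ∀ i j, Algebra.trace F K (ε i * τ (ε j)) = if i = j then 1 else 0) :
    HasHemi F q := by
  have hζ0 : ζ ≠ 0 := by
    rintro rfl
    rw [zero_pow (by omega)] at hζ1
    exact zero_ne_one hζ1
  have hτa : ∀ c : F, τ (algebraMap F K c) = algebraMap F K (s c) := by
    intro c
    rw [hτ, hs, ← map_pow]
    congr 1
    have h1 : c ^ (q ^ 2) = c := by rw [← hq, FiniteField.pow_card]
    calc c ^ q ^ 3 = (c ^ (q ^ 2)) ^ q := by rw [← pow_mul]; congr 1
      _ = c ^ q := by rw [h1]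
  -- the linear map
  let φ : (Fin 3 → F) →ₗ[F] K := Fintype.linearCombination F ε
  have hφ : ∀ X : Fin 3 → F, φ X = ∑ i, X i • ε i := fun X => rfl
  have hform : ∀ X Y : Fin 3 → F,
      Algebra.trace F K (φ X * τ (φ Y)) = ∑ i, X i * s (Y i) := by
    intro X Y
    rw [hφ, hφ, map_sum, Finset.sum_mul_sum, map_sum]
    apply Finset.sum_congr rfl
    intro i _
    rw [map_sum]
    have : ∀ j, Algebra.trace F K (X i • ε i * τ (Y j • ε j)) =
        X i * s (Y j) * (if i = j then 1 else 0) := by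
      intro j
      rw [← hε i j, Algebra.smul_def, Algebra.smul_def, map_mul τ, hτa]
      have : algebraMap F K (X i) * ε i * (algebraMap F K (s (Y j)) * τ (ε j)) =
          (X i * s (Y j)) • (ε i * τ (ε j)) := by
        rw [Algebra.smul_def, map_mul]
        ring
      rw [this, map_smul, smul_eq_mul]
    simp only [this]
    simp
  have hinj : Function.Injective φ := by
    rw [injective_iff_map_eq_zero]
    intro X hX
    ext j
    have h1 := hform X (Pi.single j 1)
    rw [hX, zero_mul, map_zero] at h1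
    have h2 : ∑ i, X i * s ((Pi.single j 1 : Fin 3 → F) i) = X j := by
      rw [Finset.sum_eq_single j]
      · simp
      · intro i _ hij
        simp [hij]
      · intro h
        exact absurd (Finset.mem_univ j) h
    rw [h2] at h1
    exact h1.symm
  let Φ : (Fin 3 → F) ≃ₗ[F] K := LinearEquiv.ofInjectiveOfFinrankEq φ hinj
    (by rw [hfr, Module.finrank_fin_fun])
  have hΦ : ∀ X, Φ X = φ X := fun X => rfl
  have hmulinj : Function.Bijective (LinearMap.mulLeft F ζ) := by
    constructor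
    · intro x y h
      exact mul_left_cancel₀ hζ0 h
    · intro y
      exact ⟨ζ⁻¹ * y, by rw [LinearMap.mulLeft_apply, mul_inv_cancel_left₀ hζ0]⟩
  let μ : K ≃ₗ[F] K := LinearEquiv.ofBijective (LinearMap.mulLeft F ζ) hmulinj
  have hμ : ∀ x, μ x = ζ * x := fun x => rfl
  let G : (Fin 3 → F) ≃ₗ[F] (Fin 3 → F) := (Φ.trans μ).trans Φ.symm
  have hG : ∀ X, Φ (G X) = ζ * Φ X := by
    intro X
    simp only [G, LinearEquiv.trans_apply, LinearEquiv.apply_symm_apply, hμ]
  have hGk : ∀ k X, Φ ((⇑G)^[k] X) = ζ ^ k * Φ X := by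
    intro k X
    induction k with
    | zero => simp
    | succ k ih =>
      rw [Function.iterate_succ_apply', hG, ih]
      ring
  have hζτ : ζ * τ ζ = 1 := by
    rw [hτ, ← pow_succ']
    have : q ^ 3 + 1 = (q ^ 2 - q + 1) * (q + 1) := by
      have hle : q ≤ q ^ 2 := Nat.le_self_pow (by norm_num) q
      zify [hle]
      ring
    rw [this, pow_mul, hζ1, one_pow]
  have hiso : ∀ X : Fin 3 → F, Iso3 s X ↔ IsoK F τ (Φ X) := by
    intro X
    unfold Iso3 IsoK
    rw [hΦ, hform, Fin.sum_univ_three]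
  have hΦ0 : ∀ X, X ≠ 0 → Φ X ≠ 0 := by
    intro X hX h
    exact hX ((map_eq_zero_iff Φ Φ.injective).1 h)
  refine transfer hq hodd s hs (fun X => f (Φ X)) ?_ ?_ ?_ G ?_ ?_ ?_ ?_ ?_
  · intro X hX hXi
    exact hf1 _ (hΦ0 X hX) ((hiso X).1 hXi)
  · intro c X hc hsc hX hXi
    rw [map_smul]
    exact hf2 c _ hc hsc (hΦ0 X hX) ((hiso X).1 hXi)
  · intro L h0 hadd hsm hcard hLi
    have h1 := hf3 (L.image Φ) (Finset.mem_image.2 ⟨0, h0, map_zero Φ⟩)
      (by
        intro x hx y hy
        obtain ⟨x', hx', rfl⟩ := Finset.mem_image.1 hx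
        obtain ⟨y', hy', rfl⟩ := Finset.mem_image.1 hy
        exact Finset.mem_image.2 ⟨x' + y', hadd x' hx' y' hy', map_add Φ x' y'⟩)
      (by
        intro c hc x hx
        obtain ⟨x', hx', rfl⟩ := Finset.mem_image.1 hx
        exact Finset.mem_image.2 ⟨c • x', hsm c hc x' hx', map_smul Φ c x'⟩)
      (by rw [Finset.card_image_of_injective _ Φ.injective, hcard])
      (by
        intro x hx
        obtain ⟨x', hx', rfl⟩ := Finset.mem_image.1 hx
        exact (hiso x').1 (hLi x' hx'))
    have h2 : (L.image Φ).erase 0 = (L.erase 0).image Φ := by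
      ext x
      simp only [Finset.mem_erase, Finset.mem_image]
      constructor
      · rintro ⟨hx0, y, hy, rfl⟩
        exact ⟨y, ⟨fun h => hx0 (by rw [h, map_zero]), hy⟩, rfl⟩
      · rintro ⟨y, ⟨hy0, hy⟩, rfl⟩
        exact ⟨hΦ0 y hy0, y, hy, rfl⟩
    rw [h2, Finset.sum_image (fun x _ y _ h => Φ.injective h)] at h1
    exact h1
  · intro X Y
    rw [← hform, ← hform, ← hΦ, ← hΦ, hG, hG, map_mul τ, ← hΦ, ← hΦ]
    congr 1
    calc ζ * Φ X * (τ ζ * τ (Φ Y)) = (ζ * τ ζ) * (Φ X * τ (Φ Y)) := by ring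
      _ = Φ X * τ (Φ Y) := by rw [hζτ, one_mul]
  · have h1 : (G : (Fin 3 → F) →ₗ[F] (Fin 3 → F)) =
        (Φ.symm : K →ₗ[F] (Fin 3 → F)) ∘ₗ (Algebra.lmul F K ζ) ∘ₗ
          ((Φ.symm.symm : (Fin 3 → F) →ₗ[F] K)) := by
      ext X i
      rfl
    rw [h1, LinearMap.det_conj, ← Algebra.norm_apply]
    apply (algebraMap F K).injective
    rw [FiniteField.algebraMap_norm_eq_pow_sum, map_one, hfr, Nat.card_eq_fintype_card, hq]
    have h2 : ∑ i ∈ Finset.range 3, (q ^ 2) ^ i = (q ^ 2 - q + 1) * (q ^ 2 + q + 1) := by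
      rw [Finset.sum_range_succ, Finset.sum_range_succ, Finset.sum_range_one]
      have hle : q ≤ q ^ 2 := Nat.le_self_pow (by norm_num) q
      zify [hle]
      ring
    rw [h2, pow_mul, hζ1, one_pow]
  · intro X hX hXi
    rw [hG]
    exact hζf _ (hΦ0 X hX) ((hiso X).1 hXi)
  · intro X
    apply Φ.injective
    rw [hGk, hζ1, one_mul]
  · intro k hk0 hk
    refine ⟨Φ.symm 1, ?_⟩
    intro h
    have h1 := hGk k (Φ.symm 1)
    rw [h, LinearEquiv.apply_symm_apply, mul_one] at h1
    exact hζ2 k hk0 hk h1.symm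

end cubic

end Pool.Agent.Helper52.Hemi
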