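import Mathlib
import Pool.Agent.Helper52.Hemi.Asm
import Pool.Agent.Helper52.Hemi.Ortho
import Pool.Agent.Helper52.Hemi.Transfer

/-!
# Characteristic 3: the hemisystem
-/

set_option autoImplicit false
set_option linter.unusedSectionVars false

open Classical

namespace Pool.Agent.Helper52.Hemi

variable {k F K : Type} [Field k] [Fintype k] [Field F] [Fintype F] [Field K] [Fintype K]
  [Algebra k F] [Algebra F K] [Algebra k K] [IsScalarTower k F K]

namespace Ctx

variable (c : Ctx k F K)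

include c in
theorem spec_unique {l l' : F} {s s' : K} (hl' : l' ≠ 0) (hs : s ∈ CC k K)
    (hs' : s' ∈ CC k K) (h : algebraMap F K l * s = algebraMap F K l' * s') :
    l = l' ∧ s = s' := by
  have hlK : algebraMap F K l' ≠ 0 := (map_ne_zero _).2 hl'
  have h1 : algebraMap F K (l / l') = s' * s⁻¹ := by
    rw [map_div₀, div_eq_iff hlK, mul_comm (s' * s⁻¹), ← mul_assoc, ← h,
      mul_assoc, mul_inv_cancel₀ (c.CC_ne_zero hs), mul_one]
  have h2 : s' * s⁻¹ ∈ CC k K := c.CC_mul hs' (c.CC_inv hs)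
  have h3 := c.CC_norm h2
  rw [← h1, Algebra.norm_algebraMap, c.finK] at h3
  have h4 : l / l' = 1 := by
    apply c.cube_bij_F.1
    simp only
    rw [h3, one_pow]
  have h5 : l = l' := by rwa [div_eq_one_iff_eq hl'] at h4
  refine ⟨h5, ?_⟩
  rw [h5] at h
  exact mul_left_cancel₀ hlK h

include c in
theorem card_spec : ((Finset.univ.filter (fun x : K => Spec k F x)).card : ℤ) =
    ((Fintype.card k : ℤ) ^ 2 - 1) * ((Fintype.card k : ℤ) ^ 2 - Fintype.card k + 1) := by
  have h : Finset.univ.filter (fun x : K => Spec k F x) =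
      ((Finset.univ.erase (0 : F)) ×ˢ (CC k K)).image (fun p => algebraMap F K p.1 * p.2) := by
    ext x
    rw [Finset.mem_filter, Finset.mem_image]
    constructor
    · rintro ⟨_, l, s, hl, hs, rfl⟩
      exact ⟨(l, s), Finset.mem_product.2 ⟨Finset.mem_erase.2 ⟨hl, Finset.mem_univ _⟩, hs⟩, rfl⟩
    · rintro ⟨⟨l, s⟩, hp, rfl⟩
      rw [Finset.mem_product, Finset.mem_erase] at hp
      exact ⟨Finset.mem_univ _, l, s, hp.1.1, hp.2, rfl⟩
  rw [h, Finset.card_image_of_injOn, Finset.card_product, c.card_CC,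
    Finset.card_erase_of_mem (Finset.mem_univ _), Finset.card_univ, c.card_F]
  · have hle : Fintype.card k ≤ Fintype.card k ^ 2 := Nat.le_self_pow (by norm_num) _
    push_cast [Nat.cast_sub hle, Nat.cast_sub (Nat.one_le_pow 2 _ (Fintype.card_pos (α := k)))]
    ring
  · rintro ⟨l, s⟩ hp ⟨l', s'⟩ hp' h
    rw [Finset.mem_coe, Finset.mem_product, Finset.mem_erase] at hp hp'
    obtain ⟨h1, h2⟩ := c.spec_unique hp'.1.1 hp.2 hp'.2 h
    simp only at h1 h2
    rw [h1, h2]

include c in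
theorem spec_iso {x : K} (hx : Spec k F x) : hh k F K x x = 0 := by
  obtain ⟨l, s, _, hs, rfl⟩ := hx
  rw [hh_smul_left, c.hh_smul_right]
  have h := c.hh_CC hs 1 1
  rw [mul_one, c.hh_one_one] at h
  rw [h, mul_zero, mul_zero]

include c in
theorem spec_ne_zero {x : K} (hx : Spec k F x) : x ≠ 0 := by
  obtain ⟨l, s, hl, hs, rfl⟩ := hx
  exact mul_ne_zero ((map_ne_zero _).2 hl) (c.CC_ne_zero hs)

theorem SS_zero : c.SS 0 = 0 := by
  rw [SS]
  apply Finset.sum_eq_zero
  intro s _
  rw [hh_zero_left, c.ph_zero]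

/-- `S(X)^2 = q^2` for nonspecial isotropic `X ≠ 0`. -/
theorem SS_sq (HT : GoalT) (HW : GoalW) (HM : GoalMoment) {X : K} (hX0 : X ≠ 0)
    (hX : hh k F K X X = 0) (hns : ¬ Spec k F X) : (c.SS X) ^ 2 = (Fintype.card k : ℤ) ^ 2 := by
  set A := Finset.univ.filter (fun x : K => hh k F K x x = 0) with hA
  set B := Finset.univ.filter (fun x : K => Spec k F x) with hB
  set D := (A.erase 0) \ B with hD
  have h0A : (0 : K) ∈ A := by
    rw [hA, Finset.mem_filter]
    exact ⟨Finset.mem_univ _, hh_zero_left 0⟩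
  have hBA : B ⊆ A.erase 0 := by
    intro x hx
    rw [hB, Finset.mem_filter] at hx
    rw [Finset.mem_erase, hA, Finset.mem_filter]
    exact ⟨c.spec_ne_zero hx.2, Finset.mem_univ _, c.spec_iso hx.2⟩
  have hcardD : (D.card : ℤ) = ((Fintype.card k : ℤ) ^ 2 - 1) *
      (Fintype.card k : ℤ) * ((Fintype.card k : ℤ) ^ 2 - Fintype.card k + 1) := by
    rw [hD, Finset.card_sdiff_of_subset hBA, Nat.cast_sub (Finset.card_le_card hBA), c.card_spec,
      Finset.card_erase_of_mem h0A, Nat.cast_sub (Finset.card_pos.2 ⟨0, h0A⟩), c.card_iso]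
    push_cast
    ring
  have hge : ∀ x ∈ D, (Fintype.card k : ℤ) ^ 2 ≤ (c.SS x) ^ 2 := by
    intro x hx
    rw [hD, Finset.mem_sdiff, Finset.mem_erase, hA, Finset.mem_filter, hB,
      Finset.mem_filter] at hx
    exact c.SS_sq_ge HT HW hx.1.1 hx.1.2.2 (fun h => hx.2 ⟨Finset.mem_univ _, h⟩)
  have hsum : ∑ x ∈ D, (Fintype.card k : ℤ) ^ 2 = ∑ x ∈ D, (c.SS x) ^ 2 := by
    have h1 := HM k F K c
    rw [← hA, ← Finset.add_sum_erase A _ h0A, c.SS_zero,
      ← Finset.sum_sdiff hBA] at h1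
    have h2 : ∑ x ∈ B, (c.SS x) ^ 2 = 0 := by
      apply Finset.sum_eq_zero
      intro x hx
      rw [hB, Finset.mem_filter] at hx
      rw [c.SS_spec hx.2]
      norm_num
    rw [h2, add_zero] at h1
    rw [Finset.sum_const, nsmul_eq_mul, hcardD]
    have h3 : ∑ x ∈ D, (c.SS x) ^ 2 = (0 : ℤ) ^ 2 + ∑ x ∈ A.erase 0 \ B, c.SS x ^ 2 := by
      rw [← hD]
      ring
    rw [h3, h1]
    ring
  have hXD : X ∈ D := by
    rw [hD, Finset.mem_sdiff, Finset.mem_erase, hA, Finset.mem_filter, hB, Finset.mem_filter]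
    exact ⟨⟨hX0, Finset.mem_univ _, hX⟩, fun h => hns h.2⟩
  exact ((Finset.sum_eq_sum_iff_of_le hge).1 hsum X hXD).symm

/-- The function defining the hemisystem. -/
noncomputable def ff (x : K) : ℤ :=
  if Spec k F x then c.ph (Algebra.norm F x) else c.SS x / Fintype.card k

include c in
theorem spec_smul {x : K} {u : F} (hu : u ≠ 0) (hx : Spec k F x) :
    Spec k F (algebraMap F K u * x) := by
  obtain ⟨l, s, hl, hs, rfl⟩ := hx
  exact ⟨u * l, s, mul_ne_zero hu hl, hs, by rw [map_mul, mul_assoc]⟩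

include c in
theorem spec_smul_iff {x : K} {u : F} (hu : u ≠ 0) :
    Spec k F (algebraMap F K u * x) ↔ Spec k F x := by
  constructor
  · intro h
    have h1 := c.spec_smul (inv_ne_zero hu) h
    rwa [← mul_assoc, ← map_mul, inv_mul_cancel₀ hu, map_one, one_mul] at h1
  · exact c.spec_smul hu

include c in
theorem spec_CC {x t : K} (ht : t ∈ CC k K) (hx : Spec k F x) : Spec k F (t * x) := by
  obtain ⟨l, s, hl, hs, rfl⟩ := hx
  exact ⟨l, t * s, hl, c.CC_mul ht hs, by ring⟩

include c in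
theorem spec_CC_iff {x t : K} (ht : t ∈ CC k K) : Spec k F (t * x) ↔ Spec k F x := by
  constructor
  · intro h
    have h1 := c.spec_CC (c.CC_inv ht) h
    rwa [inv_mul_cancel_left₀ (c.CC_ne_zero ht)] at h1
  · exact c.spec_CC ht

include c in
/-- The main theorem in characteristic 3, relative to the packets. -/
theorem hasHemi (HT : GoalT) (HW : GoalW) (HL : GoalLine) (HM : GoalMoment) :
    HasHemi F (Fintype.card k) := by
  obtain ⟨⟨ε, hε⟩, ζ, hζ1, hζ2⟩ := goalOrtho k F K c
  have hζC : ζ ∈ CC k K := by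
    rw [CC, Finset.mem_filter]
    exact ⟨Finset.mem_univ _, hζ1⟩
  have hq0 : (Fintype.card k : ℤ) ≠ 0 := by
    have : 0 < Fintype.card k := Fintype.card_pos
    omega
  have hfix : ∀ a : F, cj k F a = a → a ≠ 0 → ∃ u : k, u ≠ 0 ∧ algebraMap k F u = a := by
    intro a ha ha0
    obtain ⟨u, hu⟩ := c.exists_k ha
    refine ⟨u, ?_, hu⟩
    rintro rfl
    rw [map_zero] at hu
    exact ha0 hu.symm
  refine transferK c.card_F (by have := c.q_mod_four; omega) c.finK
    ((cj k F : F →ₐ[k] F) : F →+* F) (fun x => rfl) ((tau k K : K →ₐ[k] K) : K →+* K)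
    (fun x => tau_apply x) c.ff ?_ ?_ ?_ ζ hζ1 hζ2 ?_ ε hε
  · intro x hx0 hx
    have hx' : hh k F K x x = 0 := hx
    rw [ff]
    split_ifs with h
    · exact c.ph_cases (Algebra.norm_ne_zero_iff.2 hx0)
    · have h1 := c.SS_sq HT HW HM hx0 hx' h
      rcases sq_eq_sq_iff_eq_or_eq_neg.1 h1 with h2 | h2
      · left
        rw [h2, Int.ediv_self hq0]
      · right
        rw [h2, Int.neg_ediv_of_dvd (dvd_refl _), Int.ediv_self hq0]
  · intro a x ha0 ha hx0 hx
    obtain ⟨u, hu0, hu⟩ := hfix a ha ha0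
    rw [Algebra.smul_def, ff, ff]
    have h1 := c.spec_smul_iff (x := x) ha0
    by_cases h : Spec k F x
    · rw [if_pos h, if_pos (h1.2 h), map_mul, Algebra.norm_algebraMap, c.finK, ← hu, ← map_pow,
        c.ph_k (pow_ne_zero 3 hu0)]
    · rw [if_neg h, if_neg (fun h2 => h (h1.1 h2))]
      congr 1
      rw [SS, SS]
      apply Finset.sum_congr rfl
      intro s _
      rw [hh_smul_left, ← hu, c.ph_k hu0]
  · intro L h0 hadd hsm hcard hiso
    have hl := HL k F K c L h0 hadd
      (by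
        intro u x hx
        have := hsm (algebraMap k F u) (cj_algebraMap u) x hx
        rwa [Algebra.smul_def, ← IsScalarTower.algebraMap_apply] at this)
      hcard (fun x hx => hiso x hx)
    have h2 : (Fintype.card k : ℤ) * ∑ x ∈ L.erase 0, c.ff x =
        ∑ x ∈ L.erase 0, (c.SS x + Fintype.card k *
          (if Spec k F x then c.ph (Algebra.norm F x) else 0)) := by
      rw [Finset.mul_sum]
      apply Finset.sum_congr rfl
      intro x hx
      rw [Finset.mem_erase] at hx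
      rw [ff]
      split_ifs with h
      · rw [c.SS_spec h, zero_add]
      · obtain ⟨m, hm⟩ := c.SS_dvd HT HW hx.1 (hiso x hx.2) h
        rw [hm, Int.mul_ediv_cancel_left _ hq0]
        ring
    rw [Finset.sum_add_distrib, ← Finset.mul_sum] at h2
    rw [← Finset.add_sum_erase L _ h0, c.SS_zero, zero_add] at hl
    rw [hl] at h2
    have h3 : (Fintype.card k : ℤ) * ∑ x ∈ L.erase 0, c.ff x = 0 := by
      rw [h2]
      ring
    exact (mul_eq_zero.1 h3).resolve_left hq0
  · intro x hx0 hx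
    rw [ff, ff]
    have h1 := c.spec_CC_iff (x := x) hζC
    by_cases h : Spec k F x
    · rw [if_pos h, if_pos (h1.2 h), map_mul, c.CC_norm hζC, one_mul]
    · rw [if_neg h, if_neg (fun h2 => h (h1.1 h2)), c.SS_CC hζC]

end Ctx

/-- The characteristic 3 case of S09649, relative to the packets. -/
theorem char3_of_goals (HT : GoalT) (HW : GoalW) (HL : GoalLine) (HM : GoalMoment)
    (HE : GoalExists) : ∀ (F : Type) [Field F] [Fintype F] (q : ℕ), Fintype.card F = q ^ 2 →
      q % 4 = 1 → q % 3 = 0 → HasHemi F q := by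
  intro F _ _ q hF hq4 hq3
  obtain ⟨k, K, _, _, _, _, _, _, _, _, hk, ⟨c⟩⟩ := HE F q hF hq4 hq3
  rw [← hk]
  exact c.hasHemi HT HW HL HM

end Pool.Agent.Helper52.Hemi
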