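import Mathlib
import Pool.Agent.Helper52.Hemi.C3Final
import Pool.Agent.Helper88.Hemi.GoalT
import Pool.Agent.Helper40.Hemi.Line
import Pool.Agent.Helper96.Hemi.H8
import Pool.Agent.Helper27.Hemi.H7
import Pool.Agent.Helper50.Hemi.GoalWP
import Pool.Agent.Helper91.Hemi.AS
import Pool.Agent.Helper91.Hemi.Div

/-!
# The characteristic 3 case of MP_7aba51_co: all `q = 9^m`
-/

set_option autoImplicit false

namespace Pool.Agent.Helper52.Hemi

/-- For every field `F` of order `q^2`, `q ≡ 1 mod 4`, `3 ∣ q`, the Hermitian surface `H(3,q^2)` has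
a hemisystem invariant under a collineation of projective order `q^2-q+1`. -/
theorem char3 : ∀ (F : Type) [Field F] [Fintype F] (q : ℕ), Fintype.card F = q ^ 2 →
      q % 4 = 1 → q % 3 = 0 → HasHemi F q :=
  char3_of_goals Pool.Agent.Helper88.Hemi.goalT
    (Pool.Agent.Helper50.Hemi.goalW Pool.Agent.Helper91.Hemi.goalAS
      Pool.Agent.Helper91.Hemi.goalDiv)
    Pool.Agent.Helper40.Hemi.goalLine goalMoment Pool.Agent.Helper96.Hemi.goalExists

end Pool.Agent.Helper52.Hemi

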