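import Mathlib
import Pool.Agent.Helper52.Hemi.Base
import Pool.Agent.Helper52.Hemi.Transfer

/-!
# The tower `k ⊂ F ⊂ K`, `|k| = q`, `|F| = q^2`, `|K| = q^6`, in any characteristic
-/

set_option autoImplicit false
set_option linter.unusedSectionVars false

open Classical

namespace Pool.Agent.Helper52.Hemi

/-- The degrees of the tower `k ⊂ F ⊂ K`. -/
structure Tow (k F K : Type) [Field k] [Fintype k] [Field F] [Fintype F] [Field K] [Fintype K]
    [Algebra k F] [Algebra F K] [Algebra k K] [IsScalarTower k F K] : Prop where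
  finF : Module.finrank k F = 2
  finK : Module.finrank F K = 3

variable {k F K : Type} [Field k] [Fintype k] [Field F] [Fintype F] [Field K] [Fintype K]
  [Algebra k F] [Algebra F K] [Algebra k K] [IsScalarTower k F K]

theorem gen_hh_add_left (x y z : K) :
    hh k F K (x + y) z = hh k F K x z + hh k F K y z := by
  rw [hh, hh, hh, add_mul, map_add]

theorem gen_hh_add_right (x y z : K) :
    hh k F K x (y + z) = hh k F K x y + hh k F K x z := by
  rw [hh, hh, hh, map_add, mul_add, map_add]

theorem gen_hh_zero_left (z : K) : hh k F K 0 z = 0 := by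
  rw [hh, zero_mul, map_zero]

theorem gen_hh_zero_right (z : K) : hh k F K z 0 = 0 := by
  rw [hh, map_zero, mul_zero, map_zero]

theorem gen_hh_smul_left (a : F) (x y : K) : hh k F K (algebraMap F K a * x) y =
    a * hh k F K x y := by
  rw [hh, hh, mul_assoc, ← Algebra.smul_def, map_smul, smul_eq_mul]

namespace Tow

variable (c : Tow k F K)

include c

theorem card_F : Fintype.card F = Fintype.card k ^ 2 := by
  rw [Module.card_eq_pow_finrank (K := k) (V := F), c.finF]

theorem card_K : Fintype.card K = Fintype.card k ^ 6 := by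
  rw [Module.card_eq_pow_finrank (K := F) (V := K), c.finK, c.card_F]
  ring

theorem cj_cj (x : F) : cj k F (cj k F x) = x := by
  rw [cj_apply, cj_apply, ← pow_mul, ← sq, ← c.card_F, FiniteField.pow_card]

theorem tau_F (x : F) : tau k K (algebraMap F K x) = algebraMap F K (cj k F x) := by
  rw [tau_eq, fr_F, fr_F, fr_F, c.cj_cj]

theorem fr_six (x : K) : fr k K (fr k K (fr k K (fr k K (fr k K (fr k K x))))) = x := by
  change ((((((x ^ Fintype.card k) ^ Fintype.card k) ^ Fintype.card k) ^ Fintype.card k) ^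
    Fintype.card k) ^ Fintype.card k) = x
  rw [← pow_mul, ← pow_mul, ← pow_mul, ← pow_mul, ← pow_mul]
  have h6 : ∀ m n : ℕ, m = n → x ^ m = x ^ n := fun m n h => by rw [h]
  rw [h6 _ (Fintype.card K) (by rw [c.card_K]; ring), FiniteField.pow_card]

theorem tau_tau (x : K) : tau k K (tau k K x) = x := by
  rw [tau_eq, tau_eq, c.fr_six]

theorem trace_formula (z : K) : algebraMap F K (Algebra.trace F K z) =
    z + fr k K (fr k K z) + fr k K (fr k K (fr k K (fr k K z))) := by
  rw [FiniteField.algebraMap_trace_eq_sum_pow, c.finK, Finset.sum_range_succ,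
    Finset.sum_range_succ, Finset.sum_range_one, Nat.card_eq_fintype_card, c.card_F]
  simp only [fr_apply, ← pow_mul]
  ring_nf

theorem norm_formula (z : K) : algebraMap F K (Algebra.norm F z) =
    z * fr k K (fr k K z) * fr k K (fr k K (fr k K (fr k K z))) := by
  rw [FiniteField.algebraMap_norm_eq_prod_pow, c.finK, Finset.prod_range_succ,
    Finset.prod_range_succ, Finset.prod_range_one, Nat.card_eq_fintype_card, c.card_F]
  simp only [fr_apply, ← pow_mul]
  ring_nf

theorem trF_formula (z : F) : algebraMap k F (Algebra.trace k F z) = z + cj k F z := by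
  rw [FiniteField.algebraMap_trace_eq_sum_pow, c.finF, Finset.sum_range_succ,
    Finset.sum_range_one, Nat.card_eq_fintype_card, cj_apply]
  simp

theorem normF_formula (z : F) : algebraMap k F (Algebra.norm k z) = z * cj k F z := by
  rw [FiniteField.algebraMap_norm_eq_prod_pow, c.finF, Finset.prod_range_succ,
    Finset.prod_range_one, Nat.card_eq_fintype_card, cj_apply]
  simp

omit c in
/-- Elements fixed by the `q`-power map lie in `k`. -/
theorem exists_k_of_pow {R : Type} [Field R] [Algebra k R] {x : R}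
    (hx : x ^ Fintype.card k = x) : ∃ u : k, algebraMap k R u = x := by
  have hq1 : 1 < Fintype.card k := Fintype.one_lt_card
  have hne := FiniteField.X_pow_card_sub_X_ne_zero R hq1
  have hdeg := FiniteField.X_pow_card_sub_X_natDegree_eq R hq1
  set p := (Polynomial.X ^ Fintype.card k - Polynomial.X : Polynomial R) with hp
  have hsub : Finset.univ.image (algebraMap k R) ⊆ p.roots.toFinset := by
    intro y hy
    obtain ⟨u, _, rfl⟩ := Finset.mem_image.1 hy
    rw [Multiset.mem_toFinset, Polynomial.mem_roots hne]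
    simp only [hp, Polynomial.IsRoot, Polynomial.eval_sub, Polynomial.eval_pow,
      Polynomial.eval_X]
    rw [← map_pow, FiniteField.pow_card, sub_self]
  have hcard : p.roots.toFinset.card ≤ (Finset.univ.image (algebraMap k R)).card := by
    rw [Finset.card_image_of_injective _ (algebraMap k R).injective, Finset.card_univ, ← hdeg]
    exact (Multiset.toFinset_card_le _).trans (Polynomial.card_roots' _)
  have heq := Finset.eq_of_subset_of_card_le hsub hcard
  have hxr : x ∈ p.roots.toFinset := by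
    rw [Multiset.mem_toFinset, Polynomial.mem_roots hne]
    simp only [hp, Polynomial.IsRoot, Polynomial.eval_sub, Polynomial.eval_pow,
      Polynomial.eval_X]
    rw [hx, sub_self]
  rw [← heq] at hxr
  obtain ⟨u, _, hu⟩ := Finset.mem_image.1 hxr
  exact ⟨u, hu⟩

omit c in
theorem exists_k {x : F} (hx : cj k F x = x) : ∃ u : k, algebraMap k F u = x :=
  exists_k_of_pow hx

omit c in
theorem exists_k' {x : K} (hx : fr k K x = x) : ∃ u : k, algebraMap k K u = x :=
  exists_k_of_pow hx

/-- Elements of `K` fixed by `x ↦ x^(q^2)` lie in `F`. -/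
theorem exists_F {x : K} (hx : fr k K (fr k K x) = x) : ∃ u : F, algebraMap F K u = x := by
  apply exists_k_of_pow
  rw [c.card_F, sq, pow_mul]
  exact hx

theorem hh_smul_right (a : F) (x y : K) : hh k F K x (algebraMap F K a * y) =
    cj k F a * hh k F K x y := by
  rw [hh, hh, map_mul (tau k K), c.tau_F, mul_left_comm, ← Algebra.smul_def, map_smul,
    smul_eq_mul]

theorem hh_symm (x y : K) : cj k F (hh k F K x y) = hh k F K y x := by
  apply (algebraMap F K).injective
  rw [← fr_F, hh, hh, c.trace_formula, c.trace_formula]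
  simp only [map_add, map_mul, tau_eq, c.fr_six]
  ring

theorem mem_CC_iff {s : K} : s ∈ CC k K ↔
    s * tau k K s = 1 ∧ s * fr k K (fr k K s) * fr k K (fr k K (fr k K (fr k K s))) = 1 := by
  have hle : Fintype.card k ≤ Fintype.card k ^ 2 := Nat.le_self_pow (by norm_num) _
  have e1 : s * tau k K s = (s ^ (Fintype.card k ^ 2 - Fintype.card k + 1)) ^
      (Fintype.card k + 1) := by
    rw [tau_apply, ← pow_succ', ← pow_mul]
    congr 1
    zify [hle]
    ring
  have e2 : s * fr k K (fr k K s) * fr k K (fr k K (fr k K (fr k K s))) =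
      (s ^ (Fintype.card k ^ 2 - Fintype.card k + 1)) ^
        (Fintype.card k ^ 2 + Fintype.card k + 1) := by
    simp only [fr_apply, ← pow_mul, ← pow_succ', ← pow_add]
    congr 1
    zify [hle]
    ring
  rw [CC, Finset.mem_filter, e1, e2]
  constructor
  · rintro ⟨_, h⟩
    rw [h, one_pow, one_pow]
    exact ⟨rfl, rfl⟩
  · rintro ⟨h1, h2⟩
    refine ⟨Finset.mem_univ _, ?_⟩
    have h3 : ∀ u : K, u ^ (Fintype.card k ^ 2 + Fintype.card k + 1) =
        (u ^ (Fintype.card k + 1)) ^ Fintype.card k * u := by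
      intro u
      rw [← pow_mul, ← pow_succ]
      congr 1
      ring
    have h4 := h3 (s ^ (Fintype.card k ^ 2 - Fintype.card k + 1))
    rw [h2, h1, one_pow, one_mul] at h4
    exact h4.symm

omit c in
theorem CC_mul {s t : K} (hs : s ∈ CC k K) (ht : t ∈ CC k K) : s * t ∈ CC k K := by
  rw [CC, Finset.mem_filter] at *
  refine ⟨Finset.mem_univ _, ?_⟩
  rw [mul_pow, hs.2, ht.2, one_mul]

omit c in
theorem CC_ne_zero {s : K} (hs : s ∈ CC k K) : s ≠ 0 := by
  rintro rfl
  rw [CC, Finset.mem_filter, zero_pow (by omega)] at hs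
  exact zero_ne_one hs.2

omit c in
theorem CC_inv {s : K} (hs : s ∈ CC k K) : s⁻¹ ∈ CC k K := by
  rw [CC, Finset.mem_filter] at *
  refine ⟨Finset.mem_univ _, ?_⟩
  rw [inv_pow, hs.2, inv_one]

theorem CC_tau {s : K} (hs : s ∈ CC k K) : s * tau k K s = 1 := (c.mem_CC_iff.1 hs).1

theorem CC_norm {s : K} (hs : s ∈ CC k K) : Algebra.norm F s = 1 := by
  apply (algebraMap F K).injective
  rw [c.norm_formula, map_one]
  exact (c.mem_CC_iff.1 hs).2

theorem hh_CC {s : K} (hs : s ∈ CC k K) (x y : K) :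
    hh k F K (s * x) (s * y) = hh k F K x y := by
  rw [hh, hh, map_mul (tau k K)]
  congr 1
  calc s * x * (tau k K s * tau k K y) = (s * tau k K s) * (x * tau k K y) := by ring
    _ = x * tau k K y := by rw [c.CC_tau hs, one_mul]

/-- The norm of the norm. -/
theorem norm_norm (X : K) : algebraMap k K (Algebra.norm k (Algebra.norm F X)) =
    (X * tau k K X) * fr k K (X * tau k K X) * fr k K (fr k K (X * tau k K X)) := by
  rw [IsScalarTower.algebraMap_apply k F K, c.normF_formula, map_mul, ← fr_F, c.norm_formula]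
  simp only [map_mul, tau_eq]
  ring

/-- A generator of `C`. -/
theorem exists_gen_CC : ∃ ζ : K, ζ ^ (Fintype.card k ^ 2 - Fintype.card k + 1) = 1 ∧
      ∀ n : ℕ, 0 < n → n < Fintype.card k ^ 2 - Fintype.card k + 1 → ζ ^ n ≠ 1 := by
  have hdvd : Fintype.card k ^ 2 - Fintype.card k + 1 ∣ Nat.card Kˣ := by
    rw [Nat.card_eq_fintype_card, Fintype.card_units, c.card_K]
    have hle : Fintype.card k ≤ Fintype.card k ^ 2 := Nat.le_self_pow (by norm_num) _
    have h1 : 1 ≤ Fintype.card k ^ 6 := Nat.one_le_pow _ _ Fintype.card_pos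
    have hl1 : 1 ≤ Fintype.card k := Fintype.card_pos
    refine ⟨(Fintype.card k + 1) * (Fintype.card k - 1) *
      (Fintype.card k ^ 2 + Fintype.card k + 1), ?_⟩
    zify [hle, h1, hl1]
    ring
  obtain ⟨g, hg⟩ := IsCyclic.exists_ofOrder_eq_natCard (α := Kˣ)
  obtain ⟨m, hm⟩ := hdvd
  have hm0 : m ≠ 0 := by
    rintro rfl
    rw [mul_zero] at hm
    exact absurd hm (Nat.card_pos).ne'
  have hord : orderOf (g ^ m) = Fintype.card k ^ 2 - Fintype.card k + 1 := by
    rw [orderOf_pow' g hm0, hg, hm, Nat.gcd_eq_right (Dvd.intro_left _ rfl),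
      Nat.mul_div_cancel _ (Nat.pos_of_ne_zero hm0)]
  refine ⟨((g ^ m : Kˣ) : K), ?_, ?_⟩
  · rw [← Units.val_pow_eq_pow_val, ← hord, pow_orderOf_eq_one, Units.val_one]
  · intro n hn0 hn h
    rw [← Units.val_pow_eq_pow_val, Units.val_eq_one] at h
    have := orderOf_le_of_pow_eq_one hn0 h
    omega

/-- The hypotheses on the function `f : K → ℤ`. -/
theorem hasHemi_of_fun (hodd : Fintype.card k % 2 = 1) (f : K → ℤ)
    (hf1 : ∀ x, x ≠ 0 → hh k F K x x = 0 → f x = 1 ∨ f x = -1)
    (hf2 : ∀ (u : k) (x : K), u ≠ 0 → x ≠ 0 → hh k F K x x = 0 →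
      f (algebraMap k K u * x) = f x)
    (hf3 : ∀ s ∈ CC k K, ∀ x, x ≠ 0 → hh k F K x x = 0 → f (s * x) = f x)
    (hf4 : ∀ L : Finset K, (0 : K) ∈ L → (∀ x ∈ L, ∀ y ∈ L, x + y ∈ L) →
      (∀ u : k, ∀ x ∈ L, algebraMap k K u * x ∈ L) → L.card = Fintype.card k ^ 2 →
      (∀ x ∈ L, hh k F K x x = 0) → ∑ x ∈ L.erase 0, f x = 0)
    (ε : Fin 3 → K) (hε : ∀ i j, hh k F K (ε i) (ε j) = if i = j then 1 else 0) :
    HasHemi F (Fintype.card k) := by
  obtain ⟨ζ, hζ1, hζ2⟩ := c.exists_gen_CC
  have hζC : ζ ∈ CC k K := by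
    rw [CC, Finset.mem_filter]
    exact ⟨Finset.mem_univ _, hζ1⟩
  refine transferK c.card_F hodd c.finK
    ((cj k F : F →ₐ[k] F) : F →+* F) (fun x => rfl) ((tau k K : K →ₐ[k] K) : K →+* K)
    (fun x => tau_apply x) f hf1 ?_ ?_ ζ hζ1 hζ2 (fun x hx hxi => hf3 ζ hζC x hx hxi) ε hε
  · intro a x ha0 ha hx0 hx
    obtain ⟨u, hu⟩ := exists_k ha
    have hu0 : u ≠ 0 := by
      rintro rfl
      rw [map_zero] at hu
      exact ha0 hu.symm
    rw [Algebra.smul_def, ← hu, ← IsScalarTower.algebraMap_apply]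
    exact hf2 u x hu0 hx0 hx
  · intro L h0 hadd hsm hcard hiso
    refine hf4 L h0 hadd ?_ hcard (fun x hx => hiso x hx)
    intro u x hx
    have := hsm (algebraMap k F u) (cj_algebraMap u) x hx
    rwa [Algebra.smul_def, ← IsScalarTower.algebraMap_apply] at this

end Tow

end Pool.Agent.Helper52.Hemi
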