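import Mathlib
import Pool.Agent.Helper52.Hemi.Gen

/-!
# Existence of the tower, and an orthonormal triple for `q ≡ 2 mod 3`
-/

set_option autoImplicit false
set_option linter.unusedSectionVars false

open Classical

namespace Pool.Agent.Helper52.Hemi

/-- Existence of the tower `k ⊂ F ⊂ K` for any finite field `F` of square order. -/
theorem exists_tower (F : Type) [Field F] [Fintype F] (q : ℕ) (hF : Fintype.card F = q ^ 2) :
    ∃ (k K : Type) (_ : Field k) (_ : Fintype k) (_ : Field K) (_ : Fintype K)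
      (_ : Algebra k F) (_ : Algebra F K) (_ : Algebra k K) (_ : IsScalarTower k F K),
      Fintype.card k = q ∧ Tow k F K := by
  obtain ⟨p, hpF, n, hpr, hn⟩ := FiniteField.card' F
  have hpn : p ^ (n : ℕ) = q ^ 2 := by rw [← hn, hF]
  have : Fact (Nat.Prime p) := ⟨hpr⟩
  obtain ⟨m, -, hm⟩ := (Nat.dvd_prime_pow hpr).1
    (show q ∣ p ^ (n : ℕ) by rw [hpn]; exact dvd_pow_self q (by norm_num))
  have hq1 : 1 < q := by
    have h1 : 1 < Fintype.card F := Fintype.one_lt_card
    rw [hF] at h1
    by_contra h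
    have : q ≤ 1 := by omega
    have : q ^ 2 ≤ 1 := by nlinarith
    omega
  have hm0 : m ≠ 0 := by
    rintro rfl
    rw [pow_zero] at hm
    omega
  have hnm : (n : ℕ) = 2 * m := by
    have : p ^ (n : ℕ) = p ^ (2 * m) := by
      rw [hpn, hm, ← pow_mul, mul_comm]
    exact Nat.pow_right_injective hpr.two_le this
  let : Algebra (ZMod p) F := ZMod.algebra F p
  let k := GaloisField p m
  have : Finite k := inferInstance
  let : Fintype k := Fintype.ofFinite k
  have hcardk : Fintype.card k = q := by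
    rw [← Nat.card_eq_fintype_card, GaloisField.card p m hm0, hm]
  have hfF : Module.finrank (ZMod p) F = 2 * m := by
    have := FiniteField.pow_finrank_eq_card p F
    rw [hF, ← hpn, hnm] at this
    exact Nat.pow_right_injective hpr.two_le this
  have hfk : Module.finrank (ZMod p) k = m := GaloisField.finrank p hm0
  obtain ⟨ι⟩ := FiniteField.nonempty_algHom_of_finrank_dvd (F := ZMod p) (K := k) (L := F)
    (by rw [hfF, hfk]; exact dvd_mul_left _ _)
  let algkF : Algebra k F := ι.toRingHom.toAlgebra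
  let K := FiniteField.Extension F p 3
  let : Fintype K := Fintype.ofFinite K
  let algkK : Algebra k K := ((algebraMap F K).comp (algebraMap k F)).toAlgebra
  have : IsScalarTower k F K := IsScalarTower.of_algebraMap_eq (fun x => rfl)
  have hfinK : Module.finrank F K = 3 := FiniteField.finrank_extension F p 3
  have hfinF : Module.finrank k F = 2 := by
    have := Module.card_eq_pow_finrank (K := k) (V := F)
    rw [hF, hcardk] at this
    exact (Nat.pow_right_injective (by omega) this).symm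
  exact ⟨k, K, inferInstance, inferInstance, inferInstance, inferInstance, algkF, inferInstance,
    algkK, inferInstance, hcardk, ⟨hfinF, hfinK⟩⟩

variable {k F K : Type} [Field k] [Fintype k] [Field F] [Fintype F] [Field K] [Fintype K]
  [Algebra k F] [Algebra F K] [Algebra k K] [IsScalarTower k F K]

theorem three_ne_zero_of_mod (h : Fintype.card k % 3 = 2) : (3 : k) ≠ 0 := by
  intro h0
  have h1 : ((3 : ℕ) : k) = 0 := by exact_mod_cast h0
  obtain ⟨p, hp, n, hpr, hn⟩ := FiniteField.card' k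
  have h2 : p ∣ 3 := (CharP.cast_eq_zero_iff k p 3).1 h1
  have h3 : p = 3 := (Nat.prime_dvd_prime_iff_eq hpr Nat.prime_three).1 h2
  rw [hn, h3] at h
  have : 3 ∣ 3 ^ (n : ℕ) := dvd_pow_self 3 n.pos.ne'
  omega

namespace Tow

variable (c : Tow k F K)

include c

/-- A primitive cube root of unity in `F`. -/
theorem exists_omega (h : Fintype.card k % 3 = 2) : ∃ w : F, w ^ 2 + w + 1 = 0 ∧
    cj k F w = w ^ 2 := by
  obtain ⟨n, hn⟩ : ∃ n, Fintype.card k = 3 * n + 2 := ⟨Fintype.card k / 3, by omega⟩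
  have hcard : Nat.card Fˣ = 3 * ((n + 1) * (3 * n + 1)) := by
    rw [Nat.card_eq_fintype_card, Fintype.card_units, c.card_F, hn]
    have : (3 * n + 2) ^ 2 = 3 * ((n + 1) * (3 * n + 1)) + 1 := by ring
    rw [this]
    rfl
  obtain ⟨g, hg⟩ := IsCyclic.exists_ofOrder_eq_natCard (α := Fˣ)
  have hord : orderOf (g ^ ((n + 1) * (3 * n + 1))) = 3 := by
    have hm0 : (n + 1) * (3 * n + 1) ≠ 0 := by positivity
    rw [orderOf_pow' g hm0, hg, hcard, Nat.gcd_eq_right (Dvd.intro_left _ rfl),
      Nat.mul_div_cancel _ (Nat.pos_of_ne_zero hm0)]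
  set u := g ^ ((n + 1) * (3 * n + 1)) with hu
  have h3 : (u : F) ^ 3 = 1 := by
    rw [← Units.val_pow_eq_pow_val, ← hord, pow_orderOf_eq_one, Units.val_one]
  have h1 : (u : F) ≠ 1 := by
    intro h1
    rw [Units.val_eq_one] at h1
    rw [h1, orderOf_one] at hord
    omega
  have hw : (u : F) ^ 2 + u + 1 = 0 := by
    have : ((u : F) - 1) * ((u : F) ^ 2 + u + 1) = 0 := by linear_combination h3
    exact (mul_eq_zero.1 this).resolve_left (sub_ne_zero.2 h1)
  refine ⟨u, hw, ?_⟩
  rw [cj_apply, hn, pow_add, pow_mul, h3, one_pow, one_mul]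

/-- An element `V` with `V^(q^2) = ω V` and `V V^τ = 1`. -/
theorem exists_V {w : F} (hw : w ^ 2 + w + 1 = 0) (hwc : cj k F w = w ^ 2) :
    ∃ V : K, V ≠ 0 ∧ fr k K (fr k K V) = algebraMap F K w * V ∧ V * tau k K V = 1 := by
  have hW : (algebraMap F K w) ^ 2 + algebraMap F K w + 1 = 0 := by
    rw [← map_pow, ← map_add, ← map_one (algebraMap F K), ← map_add, hw, map_zero]
  set W := algebraMap F K w with hWdef
  have hW3 : W ^ 3 = 1 := by linear_combination (W - 1) * hW
  have hfW : fr k K (fr k K W) = W := by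
    rw [hWdef, fr_F, fr_F, c.cj_cj]
  -- a nonzero resolvent
  have hex : ∃ x : K, x + W ^ 2 * fr k K (fr k K x) +
      W * fr k K (fr k K (fr k K (fr k K x))) ≠ 0 := by
    by_contra hcon
    push Not at hcon
    set q := Fintype.card k with hq
    have hq1 : 1 < q := Fintype.one_lt_card
    let P : Polynomial K := Polynomial.C W * Polynomial.X ^ (q ^ 4) +
      (Polynomial.C (W ^ 2) * Polynomial.X ^ (q ^ 2) + Polynomial.X)
    have hW0 : W ≠ 0 := by
      intro h0
      rw [h0] at hW
      exact one_ne_zero (α := K) (by linear_combination hW)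
    have h24 : q ^ 2 < q ^ 4 := Nat.pow_lt_pow_right hq1 (by norm_num)
    have h12 : 1 < q ^ 2 := Nat.one_lt_pow (by norm_num) hq1
    have hdeg2 : (Polynomial.C (W ^ 2) * Polynomial.X ^ (q ^ 2) +
        (Polynomial.X : Polynomial K)).natDegree ≤ q ^ 2 := by
      refine (Polynomial.natDegree_add_le _ _).trans (max_le ?_ ?_)
      · exact Polynomial.natDegree_C_mul_X_pow_le _ _
      · rw [Polynomial.natDegree_X]
        omega
    have hcoeff : P.coeff (q ^ 4) = W := by
      simp only [P]
      rw [Polynomial.coeff_add, Polynomial.coeff_C_mul, Polynomial.coeff_X_pow_self, mul_one,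
        Polynomial.coeff_eq_zero_of_natDegree_lt (lt_of_le_of_lt hdeg2 h24), add_zero]
    have hP0 : P ≠ 0 := by
      intro h0
      rw [h0, Polynomial.coeff_zero] at hcoeff
      exact hW0 hcoeff.symm
    have hPdeg : P.natDegree ≤ q ^ 4 := by
      refine (Polynomial.natDegree_add_le _ _).trans (max_le ?_ (hdeg2.trans h24.le))
      exact Polynomial.natDegree_C_mul_X_pow_le _ _
    have hroots : (Finset.univ : Finset K) ⊆ P.roots.toFinset := by
      intro x _
      rw [Multiset.mem_toFinset, Polynomial.mem_roots hP0, Polynomial.IsRoot.def]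
      have hx := hcon x
      simp only [fr_apply, ← pow_mul] at hx
      simp only [P, Polynomial.eval_add, Polynomial.eval_mul, Polynomial.eval_C,
        Polynomial.eval_pow, Polynomial.eval_X]
      have e1 : x ^ q ^ 2 = x ^ (q * q) := by rw [sq q]
      have e2 : x ^ q ^ 4 = x ^ (q * q * q * q) := by
        congr 1
        ring
      rw [e1, e2]
      linear_combination hx
    have hc := (Finset.card_le_card hroots).trans ((Multiset.toFinset_card_le _).trans
      ((Polynomial.card_roots' P).trans hPdeg))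
    rw [Finset.card_univ, c.card_K, ← hq] at hc
    exact absurd hc (not_le.2 (Nat.pow_lt_pow_right hq1 (by norm_num)))
  obtain ⟨x, hx⟩ := hex
  set V0 := x + W ^ 2 * fr k K (fr k K x) + W * fr k K (fr k K (fr k K (fr k K x))) with hV0
  have hfV : fr k K (fr k K V0) = W * V0 := by
    rw [hV0]
    simp only [map_add, map_mul, map_pow, hfW, c.fr_six]
    linear_combination (- fr k K (fr k K x)) * hW3
  -- scaling
  have htauW : tau k K W = W ^ 2 := by
    rw [hWdef, c.tau_F, hwc, map_pow]
  have hfix : fr k K (V0 * tau k K V0) = V0 * tau k K V0 := by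
    have h2 : fr k K (fr k K (V0 * tau k K V0)) = V0 * tau k K V0 := by
      have h5 : fr k K (fr k K (tau k K V0)) = tau k K (fr k K (fr k K V0)) := rfl
      rw [map_mul, map_mul, h5, hfV, map_mul, htauW]
      linear_combination (V0 * tau k K V0) * hW3
    have h3 : fr k K (fr k K (fr k K (V0 * tau k K V0))) = V0 * tau k K V0 := by
      rw [← tau_eq, map_mul, c.tau_tau, mul_comm]
    rw [h2] at h3
    exact h3
  obtain ⟨u, hu⟩ := exists_k' hfix
  have htV0 : tau k K V0 ≠ 0 := (map_ne_zero _).2 hx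
  have hu0 : u ≠ 0 := by
    rintro rfl
    rw [map_zero] at hu
    exact mul_ne_zero hx htV0 hu.symm
  obtain ⟨l, hl⟩ := FiniteField.norm_surjective (K := k) (K' := F) u⁻¹
  have hl2 : algebraMap F K l * algebraMap F K (cj k F l) = algebraMap k K u⁻¹ := by
    rw [← map_mul, ← c.normF_formula, hl, ← IsScalarTower.algebraMap_apply]
  have hl0 : algebraMap F K l ≠ 0 := by
    intro h0
    rw [h0, zero_mul, eq_comm, map_eq_zero] at hl2
    exact inv_ne_zero hu0 hl2
  refine ⟨algebraMap F K l * V0, mul_ne_zero hl0 hx, ?_, ?_⟩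
  · rw [map_mul, map_mul, fr_F, fr_F, c.cj_cj, hfV]
    ring
  · rw [map_mul, c.tau_F, mul_mul_mul_comm, hl2, ← hu, ← map_mul, inv_mul_cancel₀ hu0, map_one]

/-- An orthonormal triple for `q ≡ 2 mod 3`. -/
theorem exists_ortho2 (h : Fintype.card k % 3 = 2) :
    ∃ ε : Fin 3 → K, ∀ i j, hh k F K (ε i) (ε j) = if i = j then 1 else 0 := by
  obtain ⟨w, hw, hwc⟩ := c.exists_omega h
  obtain ⟨V, hV0, hfV, hVV⟩ := c.exists_V hw hwc
  have h3 := three_ne_zero_of_mod h
  obtain ⟨a, ha⟩ := FiniteField.norm_surjective (K := k) (K' := F) (3 : k)⁻¹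
  have ha2 : a * cj k F a = (3 : F)⁻¹ := by
    rw [← c.normF_formula, ha, map_inv₀, map_ofNat]
  have h3F : (3 : F) ≠ 0 := by
    intro h0
    apply h3
    apply (algebraMap k F).injective
    rw [map_ofNat, h0, map_zero]
  have hW : (algebraMap F K w) ^ 2 + algebraMap F K w + 1 = 0 := by
    rw [← map_pow, ← map_add, ← map_one (algebraMap F K), ← map_add, hw, map_zero]
  set W := algebraMap F K w with hWdef
  have hW3 : W ^ 3 = 1 := by linear_combination (W - 1) * hW
  have hfW : fr k K (fr k K W) = W := by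
    rw [hWdef, fr_F, fr_F, c.cj_cj]
  have htV : tau k K V = V⁻¹ := eq_inv_of_mul_eq_one_right hVV
  -- traces of powers
  have htr : ∀ x : K, ∀ m : ℕ, (m = 1 ∨ m = 2) → fr k K (fr k K x) = W ^ m * x →
      Algebra.trace F K x = 0 := by
    intro x m hm hx
    apply (algebraMap F K).injective
    rw [c.trace_formula, hx, map_mul, map_pow, map_mul, map_pow, hfW, hx, map_zero]
    rcases hm with rfl | rfl
    · linear_combination x * hW
    · linear_combination (x * (W ^ 2 - W + 1)) * hW
  have hone : hh k F K (1 : K) 1 = 3 := by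
    rw [hh, map_one, mul_one]
    have := Algebra.trace_algebraMap (R := F) (S := K) (1 : F)
    rw [map_one, c.finK] at this
    rw [this]
    simp
  have hVi : fr k K (fr k K V⁻¹) = W ^ 2 * V⁻¹ := by
    rw [map_inv₀, map_inv₀, hfV, mul_inv]
    congr 1
    exact (eq_inv_of_mul_eq_one_right (by linear_combination hW3)).symm
  have e01 : Algebra.trace F K (V⁻¹) = 0 := htr _ 2 (Or.inr rfl) hVi
  have e10 : Algebra.trace F K V = 0 := htr _ 1 (Or.inl rfl) (by rw [hfV, pow_one])
  have e20 : Algebra.trace F K (V ^ 2) = 0 := htr _ 2 (Or.inr rfl) (by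
    rw [map_pow, map_pow, hfV]; ring)
  have e02 : Algebra.trace F K (V⁻¹ ^ 2) = 0 := htr _ 1 (Or.inl rfl) (by
    rw [map_pow, map_pow, hVi]
    linear_combination (V⁻¹ ^ 2 * W) * hW3)
  have key : ∀ x y : K, hh k F K (algebraMap F K a * x) (algebraMap F K a * y) =
      (3 : F)⁻¹ * hh k F K x y := by
    intro x y
    rw [gen_hh_smul_left, c.hh_smul_right, ← mul_assoc, ha2]
  refine ⟨![algebraMap F K a * 1, algebraMap F K a * V, algebraMap F K a * V ^ 2], ?_⟩
  have hVV' : V * V⁻¹ = 1 := mul_inv_cancel₀ hV0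
  intro i j
  fin_cases i <;> fin_cases j <;>
    simp only [Fin.zero_eta, Fin.mk_one, Fin.reduceFinMk, Matrix.cons_val, key]
  · rw [if_pos trivial, hone, inv_mul_cancel₀ h3F]
  · rw [if_neg (by decide), hh, htV, one_mul, e01, mul_zero]
  · rw [if_neg (by decide), hh, map_pow (tau k K), htV, one_mul, e02, mul_zero]
  · rw [if_neg (by decide), hh, map_one, mul_one, e10, mul_zero]
  · rw [if_pos trivial]
    have : hh k F K V V = 3 := by
      rw [← hone, hh, hh, htV, hVV', map_one (tau k K), mul_one]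
    rw [this, inv_mul_cancel₀ h3F]
  · rw [if_neg (by decide), hh, map_pow, htV]
    have : V * V⁻¹ ^ 2 = V⁻¹ := by
      rw [sq, ← mul_assoc, hVV', one_mul]
    rw [this, e01, mul_zero]
  · rw [if_neg (by decide), hh, map_one, mul_one, e20, mul_zero]
  · rw [if_neg (by decide), hh, htV]
    have : V ^ 2 * V⁻¹ = V := by
      rw [sq, mul_assoc, hVV', mul_one]
    rw [this, e10, mul_zero]
  · rw [if_pos trivial]
    have : hh k F K (V ^ 2) (V ^ 2) = 3 := by
      rw [← hone, hh, hh, map_pow (tau k K), htV, ← mul_pow, hVV', map_one (tau k K), mul_one, one_pow]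
    rw [this, inv_mul_cancel₀ h3F]

end Tow

/-- The remaining goal for `q ≡ 2 mod 3`: the function `f`. -/
def GoalFun2 : Prop :=
  ∀ (k F K : Type) [Field k] [Fintype k] [Field F] [Fintype F] [Field K] [Fintype K]
    [Algebra k F] [Algebra F K] [Algebra k K] [IsScalarTower k F K], Tow k F K →
    Fintype.card k % 4 = 1 → Fintype.card k % 3 = 2 →
    ∃ f : K → ℤ,
      (∀ x, x ≠ 0 → hh k F K x x = 0 → f x = 1 ∨ f x = -1) ∧
      (∀ (u : k) (x : K), u ≠ 0 → x ≠ 0 → hh k F K x x = 0 →
        f (algebraMap k K u * x) = f x) ∧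
      (∀ s ∈ CC k K, ∀ x, x ≠ 0 → hh k F K x x = 0 → f (s * x) = f x) ∧
      (∀ L : Finset K, (0 : K) ∈ L → (∀ x ∈ L, ∀ y ∈ L, x + y ∈ L) →
        (∀ u : k, ∀ x ∈ L, algebraMap k K u * x ∈ L) → L.card = Fintype.card k ^ 2 →
        (∀ x ∈ L, hh k F K x x = 0) → ∑ x ∈ L.erase 0, f x = 0)

/-- The case `q ≡ 2 mod 3` from the goal. -/
theorem case2_of_goal (H : GoalFun2) : ∀ (F : Type) [Field F] [Fintype F] (q : ℕ),
    Fintype.card F = q ^ 2 → q % 4 = 1 → q % 3 = 2 → HasHemi F q := by
  intro F _ _ q hF hq4 hq3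
  obtain ⟨k, K, _, _, _, _, _, _, _, _, hk, c⟩ := exists_tower F q hF
  rw [← hk] at hq4 hq3 ⊢
  obtain ⟨f, hf1, hf2, hf3, hf4⟩ := H k F K c hq4 hq3
  obtain ⟨ε, hε⟩ := c.exists_ortho2 hq3
  exact c.hasHemi_of_fun (by omega) f hf1 hf2 hf3 hf4 ε hε

end Pool.Agent.Helper52.Hemi
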