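import Mathlib
import Pool.Agent.Helper52.Hemi.Tower2

/-!
# Coordinates of `K` over `F` for `q ≡ 2 mod 3`
-/

set_option autoImplicit false
set_option linter.unusedSectionVars false

open Classical

namespace Pool.Agent.Helper52.Hemi

/-- The data for `q ≡ 2 mod 3`: `w` a primitive cube root of unity in `F`, `g ∈ K` with
`g^(q^2) = w g`, `g g^(q^3) = 1`. -/
structure Ctx2 (k F K : Type) [Field k] [Fintype k] [Field F] [Fintype F] [Field K] [Fintype K]
    [Algebra k F] [Algebra F K] [Algebra k K] [IsScalarTower k F K] where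
  tow : Tow k F K
  hq3 : Fintype.card k % 3 = 2
  w : F
  hw : w ^ 2 + w + 1 = 0
  hwc : cj k F w = w ^ 2
  g : K
  hg0 : g ≠ 0
  hgf : fr k K (fr k K g) = algebraMap F K w * g
  hgt : g * tau k K g = 1

variable {k F K : Type} [Field k] [Fintype k] [Field F] [Fintype F] [Field K] [Fintype K]
  [Algebra k F] [Algebra F K] [Algebra k K] [IsScalarTower k F K]

theorem Tow.exists_ctx2 (c : Tow k F K) (h : Fintype.card k % 3 = 2) :
    Nonempty (Ctx2 k F K) := by
  obtain ⟨w, hw, hwc⟩ := c.exists_omega h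
  obtain ⟨g, hg0, hgf, hgt⟩ := c.exists_V hw hwc
  exact ⟨⟨c, h, w, hw, hwc, g, hg0, hgf, hgt⟩⟩

namespace Ctx2

variable (c : Ctx2 k F K)

include c in
theorem three : (3 : k) ≠ 0 := three_ne_zero_of_mod c.hq3

include c in
theorem three_F : (3 : F) ≠ 0 := by
  intro h
  apply c.three
  apply (algebraMap k F).injective
  rw [map_ofNat, h, map_zero]

include c in
theorem three_K : (3 : K) ≠ 0 := by
  intro h
  apply c.three_F
  apply (algebraMap F K).injective
  rw [map_ofNat, h, map_zero]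

theorem w3 : c.w ^ 3 = 1 := by linear_combination (c.w - 1) * c.hw

theorem w_ne_one : c.w ≠ 1 := by
  intro h
  have h1 := c.hw
  rw [h] at h1
  exact c.three_F (by linear_combination h1)

/-- `w` in `K`. -/
def W : K := algebraMap F K c.w

theorem hW : c.W ^ 2 + c.W + 1 = 0 := by
  rw [W, ← map_pow, ← map_add, ← map_one (algebraMap F K), ← map_add, c.hw, map_zero]

theorem W3 : c.W ^ 3 = 1 := by linear_combination (c.W - 1) * c.hW

theorem fr2_W : fr k K (fr k K c.W) = c.W := by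
  rw [W, fr_F, fr_F, c.tow.cj_cj]

theorem tau_g : tau k K c.g = c.g⁻¹ := eq_inv_of_mul_eq_one_right c.hgt

theorem fr2_g : fr k K (fr k K c.g) = c.W * c.g := c.hgf

theorem gi : c.g * c.g⁻¹ = 1 := mul_inv_cancel₀ c.hg0

theorem fr2_gi : fr k K (fr k K c.g⁻¹) = c.W ^ 2 * c.g⁻¹ := by
  rw [map_inv₀, map_inv₀, c.fr2_g, mul_inv]
  congr 1
  exact (eq_inv_of_mul_eq_one_right (by linear_combination c.W3)).symm

theorem exists_rho : ∃ r : F, algebraMap F K r = c.g ^ 3 := by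
  apply c.tow.exists_F
  rw [map_pow, map_pow, c.fr2_g]
  linear_combination (c.g ^ 3) * c.W3

/-- `ρ = g^3 ∈ F`. -/
noncomputable def rho : F := Classical.choose c.exists_rho

theorem hrho : algebraMap F K c.rho = c.g ^ 3 := Classical.choose_spec c.exists_rho

theorem rho_ne : c.rho ≠ 0 := by
  intro h
  have h1 := c.hrho
  rw [h, map_zero] at h1
  exact pow_ne_zero 3 c.hg0 h1.symm

theorem rho_cj : c.rho * cj k F c.rho = 1 := by
  apply (algebraMap F K).injective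
  rw [map_mul, ← c.tow.tau_F, c.hrho, map_pow, c.tau_g, map_one, ← mul_pow, c.gi, one_pow]

theorem cj_rho : cj k F c.rho = c.rho⁻¹ := eq_inv_of_mul_eq_one_right c.rho_cj

include c in
/-- Cube roots of unity in `K` are fixed by `x ↦ x^(q^2)`. -/
theorem fr2_of_cube {u : K} (hu : u ^ 3 = 1) : fr k K (fr k K u) = u := by
  obtain ⟨n, hn⟩ : ∃ n, Fintype.card k = 3 * n + 2 := ⟨Fintype.card k / 3, by have := c.hq3; omega⟩
  have h1 : ∀ v : K, v ^ 3 = 1 → fr k K v = v ^ 2 := by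
    intro v hv
    rw [fr_apply, hn, pow_add, pow_mul, hv, one_pow, one_mul]
  have h2 : (u ^ 2) ^ 3 = 1 := by rw [← pow_mul, mul_comm, pow_mul, hu, one_pow]
  rw [h1 u hu, h1 _ h2]
  linear_combination u * hu

/-- `ρ` is not a cube in `F`. -/
theorem rho_not_cube (r : F) : r ^ 3 ≠ c.rho := by
  intro h
  have h1 : (algebraMap F K r) ^ 3 = c.g ^ 3 := by rw [← map_pow, h, c.hrho]
  have h2 : (algebraMap F K r * c.g⁻¹) ^ 3 = 1 := by
    rw [mul_pow, h1, ← mul_pow, c.gi, one_pow]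
  have h3 := c.fr2_of_cube h2
  rw [map_mul, map_mul, fr_F, fr_F, c.tow.cj_cj, c.fr2_gi] at h3
  have h4 : c.W ^ 2 = 1 := by
    have h5 : algebraMap F K r * c.g⁻¹ ≠ 0 := by
      intro h0
      rw [h0] at h2
      norm_num at h2
    apply mul_right_cancel₀ h5
    linear_combination h3
  have h6 : c.W = 1 := by linear_combination c.W3 - c.W * h4
  exact c.w_ne_one ((algebraMap F K).injective (by rw [map_one]; exact h6))

/-- Coordinates with respect to `1, g, g⁻¹`. -/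
noncomputable def vec (x0 x1 x2 : F) : K :=
  algebraMap F K x0 + algebraMap F K x1 * c.g + algebraMap F K x2 * c.g⁻¹

theorem fr2_vec (x0 x1 x2 : F) : fr k K (fr k K (c.vec x0 x1 x2)) =
    algebraMap F K x0 + algebraMap F K x1 * (c.W * c.g) +
      algebraMap F K x2 * (c.W ^ 2 * c.g⁻¹) := by
  rw [vec]
  simp only [map_add, map_mul, fr_F, c.tow.cj_cj, c.fr2_g, c.fr2_gi]

theorem fr4_vec (x0 x1 x2 : F) : fr k K (fr k K (fr k K (fr k K (c.vec x0 x1 x2)))) =
    algebraMap F K x0 + algebraMap F K x1 * (c.W ^ 2 * c.g) +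
      algebraMap F K x2 * (c.W * c.g⁻¹) := by
  rw [c.fr2_vec]
  simp only [map_add, map_mul, map_pow, fr_F, c.tow.cj_cj, c.fr2_g, c.fr2_gi, c.fr2_W]
  linear_combination (algebraMap F K x2 * c.W * c.g⁻¹) * c.W3

theorem trace_vec (x0 x1 x2 : F) : Algebra.trace F K (c.vec x0 x1 x2) = 3 * x0 := by
  apply (algebraMap F K).injective
  rw [c.tow.trace_formula, c.fr4_vec, c.fr2_vec, vec, map_mul, map_ofNat]
  linear_combination (algebraMap F K x1 * c.g + algebraMap F K x2 * c.g⁻¹) * c.hW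

theorem tau_vec (x0 x1 x2 : F) : tau k K (c.vec x0 x1 x2) =
    c.vec (cj k F x0) (cj k F x2) (cj k F x1) := by
  rw [vec, vec]
  simp only [map_add, map_mul, map_inv₀, c.tow.tau_F, c.tau_g, inv_inv]
  ring

theorem g_sq : c.g ^ 2 = algebraMap F K c.rho * c.g⁻¹ := by
  rw [c.hrho]
  linear_combination (- c.g ^ 2) * c.gi

theorem gi_sq : c.g⁻¹ ^ 2 = algebraMap F K c.rho⁻¹ * c.g := by
  rw [map_inv₀, c.hrho]
  field_simp

theorem vec_mul (x0 x1 x2 y0 y1 y2 : F) : c.vec x0 x1 x2 * c.vec y0 y1 y2 =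
    c.vec (x0 * y0 + x1 * y2 + x2 * y1) (x0 * y1 + x1 * y0 + c.rho⁻¹ * (x2 * y2))
      (x0 * y2 + x2 * y0 + c.rho * (x1 * y1)) := by
  rw [vec, vec, vec]
  simp only [map_add, map_mul]
  linear_combination (algebraMap F K x1 * algebraMap F K y2 +
    algebraMap F K x2 * algebraMap F K y1) * c.gi + (algebraMap F K x1 * algebraMap F K y1) *
    c.g_sq + (algebraMap F K x2 * algebraMap F K y2) * c.gi_sq

theorem hh_vec (x0 x1 x2 y0 y1 y2 : F) : hh k F K (c.vec x0 x1 x2) (c.vec y0 y1 y2) =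
    3 * (x0 * cj k F y0 + x1 * cj k F y1 + x2 * cj k F y2) := by
  rw [hh, c.tau_vec, c.vec_mul, c.trace_vec]

theorem vec_injective {x0 x1 x2 y0 y1 y2 : F} (h : c.vec x0 x1 x2 = c.vec y0 y1 y2) :
    x0 = y0 ∧ x1 = y1 ∧ x2 = y2 := by
  have key : ∀ z : K, hh k F K (c.vec x0 x1 x2) z = hh k F K (c.vec y0 y1 y2) z := by
    intro z; rw [h]
  have h0 := key (c.vec 1 0 0)
  have h1 := key (c.vec 0 1 0)
  have h2 := key (c.vec 0 0 1)
  simp only [c.hh_vec, map_zero, map_one, mul_zero, mul_one, add_zero, zero_add] at h0 h1 h2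
  exact ⟨mul_left_cancel₀ c.three_F h0, mul_left_cancel₀ c.three_F h1,
    mul_left_cancel₀ c.three_F h2⟩

theorem vec_surjective (x : K) : ∃ x0 x1 x2 : F, x = c.vec x0 x1 x2 := by
  have hinj : Function.Injective (fun p : F × F × F => c.vec p.1 p.2.1 p.2.2) := by
    rintro ⟨a, b, d⟩ ⟨a', b', d'⟩ h
    obtain ⟨h1, h2, h3⟩ := c.vec_injective h
    simp only at h1 h2 h3
    rw [h1, h2, h3]
  have hcard : Fintype.card (F × F × F) = Fintype.card K := by
    rw [Fintype.card_prod, Fintype.card_prod, c.tow.card_F, c.tow.card_K]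
    ring
  have hbij := (Fintype.bijective_iff_injective_and_card _).2 ⟨hinj, hcard⟩
  obtain ⟨⟨a, b, d⟩, h⟩ := hbij.2 x
  exact ⟨a, b, d, h.symm⟩

/-- The norm in coordinates. -/
theorem norm_vec (x0 x1 x2 : F) : Algebra.norm F (c.vec x0 x1 x2) =
    x0 ^ 3 + c.rho * x1 ^ 3 + c.rho⁻¹ * x2 ^ 3 - 3 * (x0 * x1 * x2) := by
  apply (algebraMap F K).injective
  rw [c.tow.norm_formula, c.fr4_vec, c.fr2_vec, vec]
  simp only [map_add, map_sub, map_mul, map_pow, map_ofNat, map_inv₀, c.hrho]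
  have hgi := c.gi
  have hW := c.hW
  have h3 : (c.g ^ 3)⁻¹ = c.g⁻¹ ^ 3 := (inv_pow c.g 3).symm
  rw [h3]
  set G := c.g
  set H := c.g⁻¹
  set x0 := algebraMap F K x0
  set x1 := algebraMap F K x1
  set x2 := algebraMap F K x2
  set W := c.W
  linear_combination (G * H ^ 2 * W ^ 2 * x1 * x2 ^ 2 + G ^ 2 * H * W ^ 2 * x1 ^ 2 * x2 +
    G * H * W ^ 2 * x0 * x1 * x2 + G ^ 3 * W * x1 ^ 3 + H ^ 3 * W * x2 ^ 3 -
    G * H * W * x0 * x1 * x2 + G ^ 2 * W * x0 * x1 ^ 2 - G ^ 3 * x1 ^ 3 + H ^ 2 * W * x0 * x2 ^ 2 -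
    H ^ 3 * x2 ^ 3 + 3 * G * H * x0 * x1 * x2 + G * x0 ^ 2 * x1 + H * x0 ^ 2 * x2) * hW -
    (3 * x0 * x1 * x2) * hgi

/-- `X X^τ` in coordinates. -/
theorem mul_tau_vec (x0 x1 x2 : F) : c.vec x0 x1 x2 * tau k K (c.vec x0 x1 x2) =
    c.vec (x0 * cj k F x0 + x1 * cj k F x1 + x2 * cj k F x2)
      (x0 * cj k F x2 + x1 * cj k F x0 + c.rho⁻¹ * (x2 * cj k F x1))
      (cj k F (x0 * cj k F x2 + x1 * cj k F x0 + c.rho⁻¹ * (x2 * cj k F x1))) := by
  rw [c.tau_vec, c.vec_mul]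
  congr 1
  simp only [map_add, map_mul, map_inv₀, c.cj_rho, c.tow.cj_cj, inv_inv]
  ring

end Ctx2

end Pool.Agent.Helper52.Hemi
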