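import Mathlib
import Pool.Agent.Helper52.Hemi.Coord2
import Pool.Agent.Helper93.Hemi.Goals2

/-!
# Dictionary: the coordinates `E × E × E` of `K`
-/

set_option autoImplicit false
set_option linter.unusedSectionVars false

open Classical

namespace Pool.Agent.Helper93.Hemi

open Pool.Agent.Helper52.Hemi (fr tau Tow hh Ctx2)

section

variable {k E K : Type} [Field k] [Fintype k] [Field E] [Fintype E] [Field K] [Fintype K]
    [Algebra k E] [Algebra E K] [Algebra k K] [IsScalarTower k E K]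

theorem cj52_eq : Pool.Agent.Helper52.Hemi.cj k E = cj k E := rfl

/-- The element `i`. -/
theorem exists_i (h4 : Fintype.card k % 4 = 1) : ∃ i : k, i ^ 2 = -1 := by
  have h : IsSquare (-1 : k) := FiniteField.isSquare_neg_one_iff.2 (by omega)
  obtain ⟨i, hi⟩ := h
  exact ⟨i, by rw [hi, sq]⟩

/-- Existence of the context. -/
theorem exists_ctxK (tw : Tow k E K) (h4 : Fintype.card k % 4 = 1)
    (h3 : Fintype.card k % 3 = 2) : Nonempty (CtxK k E K) := by
  obtain ⟨i, hi⟩ := exists_i h4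
  obtain ⟨c⟩ := tw.exists_ctx2 h3
  exact ⟨{ finE := tw.finF, hq3 := h3, hq4 := h4, i := i, hi := hi, ω := c.w, hω := c.hw,
           ρ := c.rho, hρ := c.rho_cj, hρ3 := c.rho_not_cube, tw := tw, g := c.g,
           hg3 := c.hrho.symm, hg := c.hgt, hgω := c.hgf }⟩

namespace CtxK

variable (c : CtxK k E K)

theorem g_ne : c.g ≠ 0 := by
  intro h
  have := c.hg
  rw [h, zero_mul] at this
  exact zero_ne_one this

/-- The corresponding context of helper52. -/
def ctx2 : Ctx2 k E K :=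
  ⟨c.tw, c.hq3, c.ω, c.hω, c.toCtx.cj_ω, c.g, c.g_ne, c.hgω, c.hg⟩

theorem ctx2_rho : c.ctx2.rho = c.ρ := by
  apply (algebraMap E K).injective
  rw [c.ctx2.hrho, ← c.hg3]
  rfl

theorem toK_eq (X : E × E × E) : c.toK X = c.ctx2.vec X.1 X.2.1 X.2.2 := rfl

theorem toK_zero : c.toK 0 = 0 := by simp [toK]

theorem toK_add (X Y : E × E × E) : c.toK (X + Y) = c.toK X + c.toK Y := by
  simp only [toK, Prod.fst_add, Prod.snd_add, map_add]
  ring

theorem toK_smul (a : k) (X : E × E × E) : c.toK (a • X) = algebraMap k K a * c.toK X := by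
  have h : ∀ x : E, algebraMap E K (a • x) = algebraMap k K a * algebraMap E K x := by
    intro x
    rw [Algebra.smul_def, map_mul, ← IsScalarTower.algebraMap_apply]
  rw [toK, toK, Prod.smul_fst, Prod.smul_snd, Prod.smul_fst, Prod.smul_snd, h, h, h]
  ring

theorem toK_injective : Function.Injective c.toK := by
  rintro ⟨a, b, d⟩ ⟨a', b', d'⟩ h
  obtain ⟨h1, h2, h3⟩ := c.ctx2.vec_injective h
  simp only at h1 h2 h3
  rw [h1, h2, h3]

theorem toK_surjective : Function.Surjective c.toK := by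
  intro x
  obtain ⟨x0, x1, x2, h⟩ := c.ctx2.vec_surjective x
  exact ⟨(x0, x1, x2), h.symm⟩

theorem toK_bijective : Function.Bijective c.toK := ⟨c.toK_injective, c.toK_surjective⟩

theorem toK_eq_zero {X : E × E × E} : c.toK X = 0 ↔ X = 0 := by
  rw [← c.toK_zero]
  exact c.toK_injective.eq_iff

/-- The coordinates of the conjugate. -/
noncomputable def tauV (X : E × E × E) : E × E × E := (cj k E X.1, cj k E X.2.2, cj k E X.2.1)

theorem tau_toK (X : E × E × E) : tau k K (c.toK X) = c.toK (tauV (k := k) X) :=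
  c.ctx2.tau_vec X.1 X.2.1 X.2.2

end CtxK

/-- The multiplication of `K` in coordinates. -/
noncomputable def Ctx.mulV (c : Ctx k E) (X Y : E × E × E) : E × E × E :=
  (X.1 * Y.1 + X.2.1 * Y.2.2 + X.2.2 * Y.2.1,
   X.1 * Y.2.1 + X.2.1 * Y.1 + cj k E c.ρ * (X.2.2 * Y.2.2),
   X.1 * Y.2.2 + X.2.2 * Y.1 + c.ρ * (X.2.1 * Y.2.1))

namespace CtxK

variable (c : CtxK k E K)

theorem toK_mulV (X Y : E × E × E) : c.toK (c.mulV X Y) = c.toK X * c.toK Y := by
  rw [toK_eq, toK_eq, toK_eq, c.ctx2.vec_mul, Ctx.mulV, c.ctx2_rho, c.toCtx.cjρ]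

theorem norm_toK (X : E × E × E) : Algebra.norm E (c.toK X) = c.nu X := by
  rw [toK_eq, c.ctx2.norm_vec, Ctx.nu, c.ctx2_rho, c.toCtx.cjρ]

include c in
theorem aa_eq (X : E × E × E) : algebraMap k E (aa X) =
    X.1 * cj k E X.1 + X.2.1 * cj k E X.2.1 + X.2.2 * cj k E X.2.2 := by
  rw [aa, map_add, map_add, nm_formula c.finE, nm_formula c.finE, nm_formula c.finE]

theorem mul_tau_toK (X : E × E × E) : c.toK X * tau k K (c.toK X) =
    c.toK (algebraMap k E (aa X), c.YY X, cj k E (c.YY X)) := by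
  rw [toK_eq, toK_eq, c.ctx2.mul_tau_vec, c.aa_eq, Ctx.YY, c.ctx2_rho, c.toCtx.cjρ, cj52_eq]

theorem hh_toK (X Y : E × E × E) : hh k E K (c.toK X) (c.toK Y) =
    3 * (X.1 * cj k E Y.1 + X.2.1 * cj k E Y.2.1 + X.2.2 * cj k E Y.2.2) := by
  rw [toK_eq, toK_eq, c.ctx2.hh_vec, cj52_eq]

theorem hh_toK_self (X : E × E × E) : hh k E K (c.toK X) (c.toK X) =
    algebraMap k E (3 * aa X) := by
  rw [c.hh_toK, map_mul, map_ofNat, c.aa_eq]

theorem hh_toK_self_eq_zero (X : E × E × E) : hh k E K (c.toK X) (c.toK X) = 0 ↔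
    aa (k := k) X = 0 := by
  rw [c.hh_toK_self, map_eq_zero_iff _ (algebraMap k E).injective, mul_eq_zero,
    or_iff_right c.toCtx.three_ne]

theorem nu_mulV (X Y : E × E × E) : c.nu (c.mulV X Y) = c.nu X * c.nu Y := by
  rw [← c.norm_toK, ← c.norm_toK, ← c.norm_toK, c.toK_mulV, map_mul]

theorem nu_tauV (X : E × E × E) : c.nu (tauV (k := k) X) = cj k E (c.nu X) := by
  simp only [Ctx.nu, tauV, map_add, map_sub, map_mul, map_pow, map_ofNat, cj_cj c.finE]
  ring

/-- `YY X ≠ 0` for nonzero isotropic `X`. -/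
theorem YY_ne_zero {X : E × E × E} (hX : X ≠ 0) (ha : aa (k := k) X = 0) : c.YY X ≠ 0 := by
  intro h
  have h1 := c.mul_tau_toK X
  rw [ha, h, map_zero, map_zero] at h1
  have h2 : c.toK ((0 : E), (0 : E), (0 : E)) = 0 := c.toK_zero
  rw [h2] at h1
  rcases mul_eq_zero.1 h1 with h3 | h3
  · exact hX (c.toK_eq_zero.1 h3)
  · exact hX (c.toK_eq_zero.1 ((map_eq_zero _).1 h3))

/-- The norm of `X X̄`. -/
theorem nu_mul_cj (X : E × E × E) : c.nu X * cj k E (c.nu X) =
    algebraMap k E (c.n (aa X, c.YY X)) := by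
  rw [← c.nu_tauV, ← c.norm_toK, ← c.norm_toK, ← map_mul, ← c.tau_toK, c.mul_tau_toK, c.norm_toK]
  simp only [Ctx.nu, Ctx.n, map_add, map_sub, map_mul, map_pow, map_ofNat, nm_formula c.finE,
    tr_formula c.finE]
  ring

/-- The relation between `YY` and `mu` for isotropic `X`. -/
theorem rel_mu {X : E × E × E} (ha : aa (k := k) X = 0) :
    4 * tr k E (c.ρ * c.YY X ^ 3) = c.i * tr k E (c.mu X ^ 2) := by
  have h1 := c.nu_mul_cj X
  rw [ha] at h1
  have h2 : c.n (0, c.YY X) = tr k E (c.ρ * c.YY X ^ 3) := by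
    simp [Ctx.n]
  rw [h2] at h1
  apply algebraMap_inj (E := E)
  rw [map_mul, map_ofNat, ← h1, map_mul, tr_formula c.finE, Ctx.mu]
  simp only [map_sub, map_mul, map_pow, cj_cj c.finE, cj_algebraMap]
  have hi : algebraMap k E c.i ^ 2 = -1 := by rw [← map_pow, c.hi, map_neg, map_one]
  linear_combination (4 * c.nu X * cj k E (c.nu X) - algebraMap k E c.i * (c.nu X ^ 2 +
    cj k E (c.nu X) ^ 2) ) * hi

/-- Multiplication by `θ` with `YY θ = 0`: the form and `YY` are multiplied by `aa θ`. -/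
theorem aa_YY_mulV {θ : E × E × E} (hθ : c.YY θ = 0) (X : E × E × E) :
    aa (k := k) (c.mulV θ X) = aa θ * aa X ∧
      c.YY (c.mulV θ X) = algebraMap k E (aa θ) * c.YY X := by
  have h1 := c.mul_tau_toK (c.mulV θ X)
  rw [c.toK_mulV, map_mul, mul_mul_mul_comm, c.mul_tau_toK, c.mul_tau_toK, hθ, map_zero] at h1
  have h2 : c.toK (algebraMap k E (aa θ), (0 : E), (0 : E)) =
      algebraMap k K (aa θ) := by
    simp only [toK, map_zero, zero_mul, add_zero, ← IsScalarTower.algebraMap_apply]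
  rw [h2, ← c.toK_smul] at h1
  have h3 := c.toK_injective h1
  rw [Prod.smul_mk, Prod.smul_mk, Prod.mk.injEq, Prod.mk.injEq] at h3
  obtain ⟨h4, h5, -⟩ := h3
  rw [Algebra.smul_def] at h4 h5
  refine ⟨?_, h5.symm⟩
  apply algebraMap_inj (E := E)
  rw [map_mul]
  exact h4.symm

/-- The multiplication by an element `x` with `x x̄ = 1`, `N x = 1`. -/
theorem YY_nu_of_CC {s : K} (hs : s ∈ Pool.Agent.Helper52.Hemi.CC k K) {X X' : E × E × E}
    (h : c.toK X' = s * c.toK X) : c.YY X' = c.YY X ∧ c.nu X' = c.nu X := by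
  constructor
  · have h1 := c.mul_tau_toK X'
    rw [h, map_mul, mul_mul_mul_comm, c.tw.CC_tau hs, one_mul, c.mul_tau_toK] at h1
    have h3 := c.toK_injective h1
    rw [Prod.mk.injEq, Prod.mk.injEq] at h3
    exact h3.2.1.symm
  · rw [← c.norm_toK, ← c.norm_toK, h, map_mul, c.tw.CC_norm hs, one_mul]

theorem YY_smul (a : k) (X : E × E × E) : c.YY (a • X) = algebraMap k E (a ^ 2) * c.YY X := by
  rw [Ctx.YY, Ctx.YY, Prod.smul_fst, Prod.smul_snd, Prod.smul_fst, Prod.smul_snd,
    Algebra.smul_def a X.1, Algebra.smul_def a X.2.1, Algebra.smul_def a X.2.2]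
  simp only [map_mul, cj_algebraMap, map_pow]
  ring

theorem nu_smul (a : k) (X : E × E × E) : c.nu (a • X) = algebraMap k E (a ^ 3) * c.nu X := by
  rw [Ctx.nu, Ctx.nu, Prod.smul_fst, Prod.smul_snd, Prod.smul_fst, Prod.smul_snd,
    Algebra.smul_def a X.1, Algebra.smul_def a X.2.1, Algebra.smul_def a X.2.2, map_pow]
  ring

theorem mu_smul (a : k) (X : E × E × E) : c.mu (a • X) = algebraMap k E (a ^ 3) * c.mu X := by
  rw [Ctx.mu, Ctx.mu, c.nu_smul, map_mul, cj_algebraMap]
  ring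

end CtxK

/-- `S` is invariant under scaling. -/
theorem S_smul (c : Ctx k E) {a : k} (ha : a ≠ 0) (Y μ : E) :
    c.S (algebraMap k E (a ^ 2) * Y) (algebraMap k E (a ^ 3) * μ) = c.S Y μ := by
  have ha' : algebraMap k E a ≠ 0 := (map_ne_zero _).2 ha
  rw [Ctx.S, Ctx.S]
  apply Fintype.sum_equiv (Equiv.mulLeft (Units.mk0 _ ha'))
  intro α
  rw [Equiv.coe_mulLeft, Units.val_mul, Units.val_mk0, nm_algebraMap_mul c.finE]
  have h1 : quadraticChar k (a ^ 2) = 1 := quadraticChar_sq_one' ha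
  rw [map_mul (quadraticChar k), h1, one_mul]
  simp only [map_mul, map_pow, cj_algebraMap]
  have e1 : algebraMap k E c.i * (α : E) ^ 2 * (algebraMap k E a ^ 2 * cj k E Y) =
      algebraMap k E c.i * (algebraMap k E a * (α : E)) ^ 2 * cj k E Y := by ring
  have e2 : (α : E) ^ 3 * (algebraMap k E a ^ 3 * μ) = (algebraMap k E a * (α : E)) ^ 3 * μ := by
    ring
  rw [e1, e2]

theorem sum_eta_nm (c : Ctx k E) : ∑ α : Eˣ, quadraticChar k (nm k E α) = 0 := by
  have h2 : ringChar k ≠ 2 := by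
    intro h
    apply c.two_ne
    have := ringChar.spec k 2
    rw [h] at this
    exact_mod_cast this.2 dvd_rfl
  obtain ⟨a, ha⟩ := quadraticChar_exists_neg_one h2
  obtain ⟨b, hb⟩ := FiniteField.norm_surjective (K := k) (K' := E) a
  have ha0 : a ≠ 0 := by
    rintro rfl
    rw [quadraticChar_zero] at ha
    norm_num at ha
  have hb0 : b ≠ 0 := by
    rintro rfl
    apply ha0
    rw [← hb]
    exact (nm_eq_zero c.finE).2 rfl
  have h3 : ∑ α : Eˣ, quadraticChar k (nm k E α) = - ∑ α : Eˣ, quadraticChar k (nm k E α) := by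
    rw [← Finset.sum_neg_distrib]
    apply Fintype.sum_equiv (Equiv.mulLeft (Units.mk0 b hb0))
    intro α
    rw [Equiv.coe_mulLeft, Units.val_mul, Units.val_mk0, map_mul, map_mul]
    have : nm k E b = a := hb
    rw [this, ha]
    ring
  omega

theorem goalFun2 (hE : GoalEval) (hL : GoalLink) : Pool.Agent.Helper52.Hemi.GoalFun2 := by
  intro k E K _ _ _ _ _ _ _ _ _ _ tw h4 h3
  obtain ⟨c⟩ := exists_ctxK tw h4 h3
  set q : ℤ := (Fintype.card k : ℤ) with hq
  have hq1 : 1 < q := by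
    have : 1 < Fintype.card k := Fintype.one_lt_card
    rw [hq]
    exact_mod_cast this
  have hpos : 0 < 3 * q * (q - 1) := by
    have : 0 < q - 1 := by omega
    positivity
  let e : E × E × E ≃ K := Equiv.ofBijective c.toK c.toK_bijective
  have he : ∀ X, e X = c.toK X := fun X => rfl
  let f : K → ℤ := fun x => if c.S (c.YY (e.symm x)) (c.mu (e.symm x)) = 3 * q * (q - 1)
    then 1 else -1
  have hval : ∀ x, x ≠ 0 → hh k E K x x = 0 →
      f x * (3 * q * (q - 1)) = c.S (c.YY (e.symm x)) (c.mu (e.symm x)) := by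
    intro x hx hxx
    obtain ⟨X, rfl⟩ := e.surjective x
    have hX : X ≠ 0 := by
      rintro rfl
      exact hx c.toK_zero
    have hXa : aa (k := k) X = 0 := (c.hh_toK_self_eq_zero X).1 hxx
    simp only [f, Equiv.symm_apply_apply]
    rcases hE k E K c (c.YY X) (c.mu X) (c.YY_ne_zero hX hXa) (c.rel_mu hXa) with h | h
    · rw [if_pos h, h, one_mul]
    · rw [if_neg (by rw [h]; linarith), h, neg_one_mul]
  refine ⟨f, ?_, ?_, ?_, ?_⟩
  · intro x _ _
    simp only [f]
    split_ifs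
    · left; rfl
    · right; rfl
  · intro u x hu hx hxx
    obtain ⟨X, rfl⟩ := e.surjective x
    have h1 : algebraMap k K u * e X = e (u • X) := (c.toK_smul u X).symm
    simp only [f]
    rw [h1, Equiv.symm_apply_apply, Equiv.symm_apply_apply, c.YY_smul, c.mu_smul, S_smul _ hu]
  · intro s hs x hx hxx
    obtain ⟨X, rfl⟩ := e.surjective x
    obtain ⟨X', hX'⟩ := e.surjective (s * e X)
    obtain ⟨h1, h2⟩ := c.YY_nu_of_CC hs hX'
    simp only [f]
    rw [← hX', Equiv.symm_apply_apply, Equiv.symm_apply_apply, h1, Ctx.mu, h2, ← Ctx.mu]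
  · intro L h0 hadd hsm hcard hiso
    -- the coordinates of `L`
    set L' : Finset (E × E × E) := L.map e.symm.toEmbedding with hL'
    have hmem : ∀ X, X ∈ L' ↔ e X ∈ L := by
      intro X
      rw [hL', Finset.mem_map_equiv, Equiv.symm_symm]
    have h0' : (0 : E × E × E) ∈ L' := by
      rw [hmem, he, c.toK_zero]
      exact h0
    have hadd' : ∀ x ∈ L', ∀ y ∈ L', x + y ∈ L' := by
      intro x hx y hy
      rw [hmem] at hx hy ⊢
      rw [he, c.toK_add]
      exact hadd _ hx _ hy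
    have hsm' : ∀ (a : k), ∀ x ∈ L', a • x ∈ L' := by
      intro a x hx
      rw [hmem] at hx ⊢
      rw [he, c.toK_smul]
      exact hsm _ _ hx
    have hcard' : L'.card = Fintype.card k ^ 2 := by
      rw [hL', Finset.card_map, hcard]
    have hiso' : ∀ x ∈ L', aa (k := k) x = 0 := by
      intro x hx
      rw [hmem] at hx
      exact (c.hh_toK_self_eq_zero x).1 (hiso _ hx)
    have hlink := fun (α : E) (hα : α ≠ 0) => hL k E K c α hα L' h0' hadd' hsm' hcard' hiso'
    have hS : ∑ X ∈ L', c.S (c.YY X) (c.mu X) = 0 := by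
      simp only [Ctx.S]
      rw [Finset.sum_comm]
      apply Finset.sum_eq_zero
      intro α _
      rw [← Finset.mul_sum, Finset.sum_sub_distrib]
      obtain ⟨l1, l2⟩ := hlink α α.ne_zero
      rw [l1, l2, sub_self, mul_zero]
    have hS0 : c.S (c.YY 0) (c.mu 0) = 0 := by
      have hY : c.YY 0 = 0 := by simp [Ctx.YY]
      have hm : c.mu 0 = 0 := by simp [Ctx.mu, Ctx.nu]
      rw [hY, hm, Ctx.S]
      simp only [map_zero, mul_zero, zero_mul, neg_zero]
      rw [← Finset.sum_mul, sum_eta_nm c.toCtx, zero_mul]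
    have hsum : ∑ x ∈ L.erase 0, f x * (3 * q * (q - 1)) = 0 := by
      have h5 : ∑ x ∈ L.erase 0, f x * (3 * q * (q - 1)) =
          ∑ x ∈ L.erase 0, c.S (c.YY (e.symm x)) (c.mu (e.symm x)) := by
        apply Finset.sum_congr rfl
        intro x hx
        rw [Finset.mem_erase] at hx
        exact hval x hx.1 (hiso x hx.2)
      rw [h5]
      have h6 : ∑ x ∈ L, c.S (c.YY (e.symm x)) (c.mu (e.symm x)) = 0 := by
        rw [← hS, hL', Finset.sum_map]
        rfl
      rw [← Finset.add_sum_erase L _ h0] at h6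
      have h7 : e.symm 0 = 0 := by
        rw [Equiv.symm_apply_eq, he, c.toK_zero]
      rw [h7, hS0, zero_add] at h6
      exact h6
    rw [← Finset.sum_mul] at hsum
    exact (mul_eq_zero.1 hsum).resolve_right hpos.ne'

end

end Pool.Agent.Helper93.Hemi
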