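import Mathlib
import Pool.Agent.Helper52.Hemi.Char3
import Pool.Agent.Helper52.Hemi.Tower2

/-!
# S09649 from the goal for `q ≡ 2 mod 3`
-/

set_option autoImplicit false

namespace Pool.Agent.Helper52.Hemi

/-- The positive frozen statement follows from `GoalFun2`. -/
theorem main_of_goal (H : GoalFun2) : ∀ (F : Type) [Field F] [Fintype F] (q : ℕ),
    Fintype.card F = q ^ 2 → q % 4 = 1 → (q % 3 = 0 ∨ q % 3 = 2) → HasHemi F q := by
  intro F _ _ q hF hq4 hq3
  rcases hq3 with h | h
  · exact char3 F q hF hq4 h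
  · exact case2_of_goal H F q hF hq4 h

end Pool.Agent.Helper52.Hemi
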